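import Pool.Agent.P.MP_f1f2b3_lc.Rec

/-! Coverings, countable sets, small sets below an inaccessible. -/

set_option linter.unusedSectionVars false
set_option linter.unusedVariables false

namespace Pool.Agent.P.MP_f1f2b3_lc

universe u w

section

variable {M : Type u} [ZF M]

/-- `x` is covered by the values of a function on `b` -/
def Cv (b x : M) : Prop := ∃ f, ∀ y ∈ x, ∃ n ∈ b, app f n = y

/-- countable -/
def Ct (x : M) : Prop := Cv om x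

/-- the countable subsets -/
noncomputable def cs (x : M) : M := sep (pw x) Ct

/-- `w = ω₁` -/
def Om1 (w : M) : Prop := Od w ∧ ¬ Ct w ∧ ∀ x ∈ w, Ct x

/-- `ω₁` -/
noncomputable def w1 : M := the Om1

/-- of size less than `θ` -/
def Sm (θ x : M) : Prop := ∃ β ∈ θ, Cv β x

/-- inaccessible -/
structure Ina (θ : M) : Prop where
  od : Od θ
  om_mem : om ∈ θ
  reg : ∀ β ∈ θ, ∀ f : M, Fn f → ∃ η ∈ θ, ∀ x ∈ β, ∀ y ∈ θ, pair x y ∈ f → y ∈ η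
  lim : ∀ β ∈ θ, ∃ γ ∈ θ, Cv γ (pw β)

end

section Fam

variable {I : Type w} {A : I → Type u} [∀ i, ZF (A i)] {K : (∀ i, A i) → Prop}
variable (s t : ∀ i, (ℕ → A i) → A i) [hs : Tm K s] [ht : Tm K t]

instance df_Cv : Df K (fun i v => Cv (s i v) (t i v)) := by unfold Cv; infer_instance
instance df_Ct : Df K (fun i v => Ct (s i v)) := by unfold Ct; infer_instance
instance tm_cs : Tm K (fun i v => cs (s i v)) := by unfold cs; infer_instance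
instance df_Om1 : Df K (fun i v => Om1 (s i v)) := by unfold Om1; infer_instance
instance tm_w1 : Tm K (fun _ _ => w1) := by unfold w1; infer_instance
instance df_Sm : Df K (fun i v => Sm (s i v) (t i v)) := by unfold Sm; infer_instance

end Fam

section

variable {M : Type u} [ZF M]

@[simp] theorem mem_cs {x y : M} : y ∈ cs x ↔ y ⊆ x ∧ Ct y := by simp [cs]

theorem cv_of (F : M → M) [T1 fun v => F (v 0)] {b x : M} (h : ∀ y ∈ x, ∃ n ∈ b, F n = y) :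
    Cv b x :=
  ⟨graph F b, fun y hy => let ⟨n, h1, h2⟩ := h y hy; ⟨n, h1, by rw [app_graph h1, h2]⟩⟩

theorem cv_of_rel (R : M → M → Prop) [h : D1 fun v => R (v 0) (v 1)] {b x : M}
    (h1 : ∀ y ∈ x, ∃ n ∈ b, R n y) (h2 : ∀ n ∈ b, ∀ y ∈ x, ∀ z ∈ x, R n y → R n z → y = z) :
    Cv b x := by
  have := h.use2
  refine cv_of (fun n => the fun y => y ∈ x ∧ R n y) fun y hy => ?_
  obtain ⟨n, h3, h4⟩ := h1 y hy
  exact ⟨n, h3, the_eq ⟨hy, h4⟩ fun z hz => h2 n h3 z hz.1 y hy hz.2 h4⟩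

theorem cov_iff {b x : M} : Cov Mem.E b x ↔ Cv b x := by
  simp only [Cov, fnl_iff, rel_iff, E_iff]
  exact ⟨fun ⟨f, h1, h2⟩ => ⟨f, fun y hy => let ⟨n, h3, h4⟩ := h2 y hy; ⟨n, h3, h1.app_eq h4⟩⟩,
    fun ⟨f, h⟩ => ⟨graph (app f) b, fn_graph, fun y hy =>
      let ⟨n, h3, h4⟩ := h y hy; ⟨n, h3, pair_mem_graph.2 ⟨h3, h4⟩⟩⟩⟩

theorem ctbl_iff {x : M} : Ctbl Mem.E x ↔ Ct x := by simp [Ctbl, isOmega_iff, cov_iff, Ct]

theorem isOmega1_iff {x : M} : IsOmega1 Mem.E x ↔ Om1 x := by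
  simp only [IsOmega1, ctbl_iff]; rfl

theorem inacc_iff {θ : M} : Inacc Mem.E θ ↔ Ina θ := by
  simp only [Inacc, isOmega_iff, cov_iff, fnl_iff, rel_iff, E_iff, sub_iff, exists_eq_left]
  refine ⟨fun ⟨h1, h2, h3, h4⟩ => ⟨h1, h2, fun β hβ f hf => ?_, fun β hβ => h4 β _ hβ fun _ => mem_pw⟩,
    fun h => ⟨h.od, h.om_mem, fun β f hβ hf => ?_, fun β c hβ hc => ?_⟩⟩
  · obtain ⟨η, a, b⟩ := h3 β f hβ hf
    exact ⟨η, a, fun x hx y hy => b x y hx hy⟩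
  · obtain ⟨η, a, b⟩ := h.reg β hβ f hf
    exact ⟨η, a, fun x y hx hy => b x hx y hy⟩
  · rw [ext' (b := pw β) fun x => (hc x).trans mem_pw.symm]
    exact h.lim β hβ

theorem Cv.mono {b b' x x' : M} (h : Cv b x) (hb : b ⊆ b') (hx : x' ⊆ x) : Cv b' x' :=
  let ⟨f, h⟩ := h; ⟨f, fun y hy => let ⟨n, h1, h2⟩ := h y (hx hy); ⟨n, hb h1, h2⟩⟩

theorem Cv.trans {a b c : M} (h : Cv a b) (h' : Cv b c) : Cv a c := by
  obtain ⟨f, h⟩ := h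
  obtain ⟨g, h'⟩ := h'
  refine cv_of (fun n => app g (app f n)) fun y hy => ?_
  obtain ⟨n, h1, rfl⟩ := h' y hy
  obtain ⟨m, h2, rfl⟩ := h n h1
  exact ⟨m, h2, rfl⟩

theorem cv_ss {b x : M} (h : x ⊆ b) : Cv b x := cv_of (fun n => n) fun y hy => ⟨y, h hy, rfl⟩

theorem cv_img (F : M → M) [T1 fun v => F (v 0)] (x : M) : Cv x (img F x) :=
  cv_of F fun _ hy => mem_img.1 hy

theorem Cv.prod {a b x y : M} (h : Cv a x) (h' : Cv b y) : Cv (prod a b) (prod x y) := by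
  obtain ⟨f, h⟩ := h
  obtain ⟨g, h'⟩ := h'
  refine cv_of (fun p => pair (app f (fst p)) (app g (snd p))) fun p hp => ?_
  obtain ⟨c, hc, d, hd, rfl⟩ := mem_prod.1 hp
  obtain ⟨n, h1, rfl⟩ := h c hc
  obtain ⟨m, h2, rfl⟩ := h' d hd
  exact ⟨pair n m, pair_mem_prod.2 ⟨h1, h2⟩, by simp⟩

theorem Cv.pw {a x : M} (h : Cv a x) : Cv (pw a) (pw x) := by
  obtain ⟨f, h⟩ := h
  refine cv_of (fun u => img (app f) u) fun y hy => ⟨sep a fun n => app f n ∈ y, mem_pw.2 sep_ss,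
    ext' fun z => ?_⟩
  simp only [mem_img, mem_sep]
  refine ⟨fun ⟨n, h1, h2⟩ => h2 ▸ h1.2, fun hz => ?_⟩
  obtain ⟨n, h1, rfl⟩ := h z (mem_pw.1 hy hz)
  exact ⟨n, ⟨h1, hz⟩, rfl⟩

theorem cantor (a : M) : ¬ Cv a (pw a) := by
  rintro ⟨f, h⟩
  obtain ⟨n, h1, h2⟩ := h (sep a fun n => n ∉ app f n) (mem_pw.2 sep_ss)
  have : n ∈ app f n ↔ n ∈ a ∧ n ∉ app f n := by
    conv_lhs => rw [h2]
    exact mem_sep
  tauto

open Classical in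
theorem cv_om_om : Cv (om : M) (prod om om) := by
  let F : M → M → M := fun _ p => if snd (snd p) ∈ fst p then
    pair (fst p) (pair (fst (snd p)) (sc (snd (snd p)))) else if fst (snd p) ∈ fst p then
    pair (fst p) (pair (sc (fst (snd p))) ∅) else pair (sc (fst p)) (pair ∅ ∅)
  let R : M → Prop := fun p => ∃ n ∈ (om : M), iter F (pair ∅ (pair ∅ ∅)) n = p
  have hs : ∀ p, R p → R (F ∅ p) := fun p ⟨n, h1, h2⟩ =>
    ⟨sc n, sc_mem_om h1, by rw [iter_sc, h2]⟩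
  have h1 : ∀ c a, R (pair c (pair a ∅)) → ∀ b ∈ (om : M), b ⊆ c → R (pair c (pair a b)) :=
    fun c a h => om_ind _ (fun _ => h) fun b hb ih h2 => by
      simpa [F, h2 (self_mem_sc b)] using hs _ (ih (ss_trans (ss_sc b) h2))
  have h2 : ∀ c ∈ (om : M), R (pair c (pair ∅ ∅)) → ∀ a ∈ (om : M), a ⊆ c →
      R (pair c (pair a ∅)) :=
    fun c hc h => om_ind _ (fun _ => h) fun a ha ih h2 => by
      simpa [F, h2 (self_mem_sc a), mem_irrefl] using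
        hs _ (h1 c a (ih (ss_trans (ss_sc a) h2)) c hc ss_rfl)
  have h3 : ∀ c ∈ (om : M), R (pair c (pair ∅ ∅)) :=
    om_ind _ ⟨∅, empty_mem_om, iter_zero _⟩ fun c hc ih => by
      simpa [F, mem_irrefl] using hs _ (h1 c c (h2 c hc ih c hc ss_rfl) c hc ss_rfl)
  refine cv_of (fun n => snd (iter F (pair ∅ (pair ∅ ∅)) n)) fun p hp => ?_
  obtain ⟨a, ha, b, hb, rfl⟩ := mem_prod.1 hp
  have hc := od_om.union_mem ha hb
  obtain ⟨n, h4, h5⟩ := h1 _ a (h2 _ hc (h3 _ hc) a ha ss_union_l) b hb ss_union_r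
  exact ⟨n, h4, by rw [h5, snd_pair]⟩

theorem Ct.mono {x y : M} (h : Ct x) (hy : y ⊆ x) : Ct y := Cv.mono h ss_rfl hy

theorem Ct.cv {x y : M} (h : Ct x) (hy : Cv x y) : Ct y := Cv.trans h hy

theorem ct_om : Ct (om : M) := cv_ss ss_rfl

theorem ct_empty : Ct (∅ : M) := ct_om.mono empty_ss

theorem Ct.img {x : M} (h : Ct x) (F : M → M) [T1 fun v => F (v 0)] : Ct (img F x) :=
  h.cv (cv_img F x)

theorem Ct.prod {x y : M} (h : Ct x) (h' : Ct y) : Ct (prod x y) :=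
  cv_om_om.trans (Cv.prod h h')

open Classical in
theorem ct_up (a b : M) : Ct (up a b) :=
  cv_of (fun n => if n = ∅ then a else b) fun y hy => (mem_up.1 hy).elim
    (fun e => ⟨∅, empty_mem_om, by simp [e]⟩)
    fun e => ⟨sc ∅, sc_mem_om empty_mem_om, by simp [e, sc_ne_empty]⟩

theorem ct_of_fn {Y N : M} (h : Y ⊆ prod om N) (hf : Fn Y) : Ct Y :=
  cv_of (fun n => pair n (app Y n)) fun p hp => by
    obtain ⟨n, h1, y, -, rfl⟩ := mem_prod.1 (h hp)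
    exact ⟨n, h1, by rw [hf.app_eq hp]⟩

theorem Om1.unique {a b : M} (ha : Om1 a) (hb : Om1 b) : a = b := by
  rcases ha.1.tri hb.1 with h | h | h
  exacts [(ha.2.1 (hb.2.2 a h)).elim, h, (hb.2.1 (ha.2.2 b h)).elim]

theorem Om1.eq {a : M} (ha : Om1 a) : w1 = a := the_eq ha fun _ h => h.unique ha

theorem Om1.ex_not_mem {w x : M} (h : Om1 w) (hx : Ct x) : ∃ i ∈ w, i ∉ x := by
  by_contra h1
  push Not at h1
  exact h.2.1 (hx.mono h1)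

theorem Om1.mem {w x : M} (h : Om1 w) (ho : Od x) (hx : Ct x) : x ∈ w :=
  (ho.mem_or_ss h.1).resolve_right fun h1 => h.2.1 (hx.mono h1)

variable {θ : M}

theorem Ina.empty_mem (h : Ina θ) : ∅ ∈ θ := h.od.trans empty_mem_om h.om_mem

theorem Ina.sc_mem (h : Ina θ) {β : M} (hβ : β ∈ θ) : sc β ∈ θ := by
  obtain ⟨η, h1, h2⟩ := h.reg _ h.om_mem (graph (fun _ => β) om) fn_graph
  exact (h.od.mem hβ).succ.mem_of_ss h.od
    ((h.od.mem h1).sc_ss (h2 _ empty_mem_om β hβ (pair_mem_graph.2 ⟨empty_mem_om, rfl⟩))) h1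

theorem Ina.bdd (h : Ina θ) (Q : M → M → Prop) [hQ : D1 fun v => Q (v 0) (v 1)] {s : M}
    (hs : Sm θ s) (H : ∀ x ∈ s, ∃ ξ ∈ θ, Q x ξ) : ∃ η ∈ θ, ∀ x ∈ s, ∃ ξ ∈ η, Q x ξ := by
  have := hQ.use2
  obtain ⟨β, hβ, f, hf⟩ := hs
  obtain ⟨η, h1, h2⟩ := h.reg β hβ (graph (fun n => lst fun ξ => ξ ∈ θ ∧ Q (app f n) ξ) β) fn_graph
  refine ⟨η, h1, fun x hx => ?_⟩
  obtain ⟨n, h3, rfl⟩ := hf x hx
  obtain ⟨ξ, h4, h5⟩ := H _ hx
  obtain ⟨-, h6, -⟩ := lst_spec (fun ξ => ξ ∈ θ ∧ Q (app f n) ξ) (h.od.mem h4) ⟨h4, h5⟩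
  exact ⟨_, h2 n h3 _ h6.1 (pair_mem_graph.2 ⟨h3, rfl⟩), h6.2⟩

theorem Ina.bound (h : Ina θ) {s : M} (hs : Sm θ s) (H : s ⊆ θ) : ∃ η ∈ θ, s ⊆ η := by
  obtain ⟨η, h1, h2⟩ := h.bdd (fun x ξ => x = ξ) hs fun x hx => ⟨x, H hx, rfl⟩
  exact ⟨η, h1, fun x hx => let ⟨_, h3, e⟩ := h2 x hx; e ▸ h3⟩

theorem Ina.mem_of_sm (h : Ina θ) {s : M} (ho : Od s) (hs : Sm θ s) (H : s ⊆ θ) : s ∈ θ :=
  let ⟨_, h1, h2⟩ := h.bound hs H; ho.mem_of_ss h.od h2 h1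

theorem Sm.cv {x y : M} (h : Sm θ x) (hy : Cv x y) : Sm θ y :=
  let ⟨β, h1, h2⟩ := h; ⟨β, h1, h2.trans hy⟩

theorem Sm.mono {x y : M} (h : Sm θ x) (hy : y ⊆ x) : Sm θ y := h.cv (cv_ss hy)

theorem Sm.img {x : M} (h : Sm θ x) (F : M → M) [T1 fun v => F (v 0)] : Sm θ (img F x) :=
  h.cv (cv_img F x)

theorem sm_mem {β : M} (h : β ∈ θ) : Sm θ β := ⟨β, h, cv_ss ss_rfl⟩

theorem Ina.sm_ct (h : Ina θ) {x : M} (hx : Ct x) : Sm θ x := ⟨_, h.om_mem, hx⟩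

theorem Ina.sm_pw (h : Ina θ) {x : M} (hx : Sm θ x) : Sm θ (pw x) := by
  obtain ⟨β, h1, h2⟩ := hx
  obtain ⟨γ, h3, h4⟩ := h.lim β h1
  exact ⟨γ, h3, h4.trans h2.pw⟩

theorem Ina.sm_prod (h : Ina θ) {x y : M} (hx : Sm θ x) (hy : Sm θ y) : Sm θ (prod x y) := by
  obtain ⟨β, h1, h2⟩ := hx
  obtain ⟨γ, h3, h4⟩ := hy
  refine ((h.sm_pw (h.sm_pw (sm_mem (h.od.union_mem h1 h3)))).mono fun p hp => ?_).cv (h2.prod h4)
  obtain ⟨a, ha, b, hb, rfl⟩ := mem_prod.1 hp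
  refine mem_pw.2 fun u hu => mem_pw.2 fun z hz => ?_
  rcases mem_up.1 hu with rfl | rfl <;> rcases mem_up.1 hz with rfl | rfl <;> simp [*]

end

section

variable {M : Type u} [Md M] {θ : M}

theorem cv_bun (F : M → M) [hF : T1 fun v => F (v 0)] {s b : M} (h : ∀ y ∈ s, Cv b (F y)) :
    Cv (prod s b) (bun F s) := by
  have := hF.use
  obtain ⟨g, hg⟩ := skolem (fun y f => ∀ z ∈ F y, ∃ n ∈ b, app f n = z) s h
  refine cv_of (fun p => app (app g (fst p)) (snd p)) fun z hz => ?_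
  obtain ⟨y, h1, h2⟩ := mem_bun.1 hz
  obtain ⟨n, h3, h4⟩ := hg y h1 z h2
  exact ⟨pair y n, pair_mem_prod.2 ⟨h1, h3⟩, by simpa⟩

theorem Ct.bun {s : M} (hs : Ct s) (F : M → M) [T1 fun v => F (v 0)] (h : ∀ y ∈ s, Ct (F y)) :
    Ct (bun F s) := (hs.prod ct_om).cv (cv_bun F h)

theorem Ct.union {a b : M} (ha : Ct a) (hb : Ct b) : Ct (a ∪ b) :=
  ((ct_up a b).bun (fun y => y) fun y hy => (mem_up.1 hy).elim (fun e => e ▸ ha)
    fun e => e ▸ hb).mono fun x hx => by simpa using hx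

theorem Ina.sm_bun (h : Ina θ) {s : M} (hs : Sm θ s) (F : M → M) [hF : T1 fun v => F (v 0)]
    (H : ∀ y ∈ s, Sm θ (F y)) : Sm θ (bun F s) := by
  have := hF.use
  obtain ⟨η, h1, h2⟩ := h.bdd (fun y ξ => Cv ξ (F y)) hs H
  refine (h.sm_prod hs (sm_mem h1)).cv (cv_bun F fun y hy => ?_)
  obtain ⟨ξ, h3, h4⟩ := h2 y hy
  exact h4.mono ((h.od.mem h1).tr h3) ss_rfl

theorem Ina.sm_union (h : Ina θ) {a b : M} (ha : Sm θ a) (hb : Sm θ b) : Sm θ (a ∪ b) :=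
  (h.sm_bun (h.sm_ct (ct_up a b)) (fun y => y) fun y hy => (mem_up.1 hy).elim (fun e => e ▸ ha)
    fun e => e ▸ hb).mono fun x hx => by simpa using hx

theorem Ina.om1 (h : Ina θ) : Om1 (w1 : M) ∧ w1 ∈ θ := by
  obtain ⟨γ, h1, h2⟩ := h.lim _ h.om_mem
  have h3 : ¬ Ct γ := fun h4 => cantor _ (h4.cv h2)
  obtain ⟨a, h4, h5, h6⟩ := od_least (fun a => ¬ Ct a) (h.od.mem h1) h3
  have h7 : Om1 a := ⟨h4, h5, fun x hx => not_not.1 (h6 x hx)⟩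
  rw [h7.eq]
  exact ⟨h7, h4.mem_of_ss h.od ((h.od.mem h1).ss_of_not_mem h4 fun h8 => h6 _ h8 h3) h1⟩

theorem Om1.sc_mem {w i : M} (h : Om1 w) (hi : i ∈ w) : sc i ∈ w :=
  h.mem (h.1.mem hi).succ ((h.2.2 i hi).union (ct_up i i))

theorem Om1.bound {w x : M} (h : Om1 w) (hx : Ct x) (H : x ⊆ w) : ∃ j ∈ w, x ⊆ j :=
  ⟨bun sc x, h.mem (od_sUn fun y hy => by
      obtain ⟨z, h1, rfl⟩ := mem_img.1 hy
      exact (h.1.mem (H h1)).succ) (hx.bun sc fun y hy => h.2.2 _ (h.sc_mem (H hy))),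
    fun y hy => mem_bun.2 ⟨y, hy, self_mem_sc y⟩⟩

/-- every countable subset is bounded -/
def Unc (α : M) : Prop := ∀ x, x ⊆ α → Ct x → ∃ δ ∈ α, x ⊆ δ

theorem Ina.clos (h : Ina θ) (Q : M → M → Prop) [hQ : D1 fun v => Q (v 0) (v 1)]
    (H : ∀ γ ∈ θ, ∃ δ ∈ θ, Q γ δ) {η : M} (hη : η ∈ θ) :
    ∃ α ∈ θ, η ∈ α ∧ (∀ γ ∈ α, ∃ δ ∈ α, Q γ δ) ∧ Unc α := by
  have := hQ.use2
  obtain ⟨hw, hw'⟩ := h.om1
  obtain ⟨k, hk⟩ := skolem (fun γ δ => δ ∈ θ ∧ γ ∈ δ ∧ ∀ γ' ∈ γ, ∃ δ' ∈ δ, Q γ' δ') θ fun γ hγ => by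
    obtain ⟨δ, h1, h2⟩ := h.bdd Q (sm_mem hγ) fun x hx => H x (h.od.trans hx hγ)
    exact ⟨δ ∪ sc γ, h.od.union_mem h1 (h.sc_mem hγ), ss_union_r (self_mem_sc γ),
      fun γ' h3 => let ⟨δ', h4, h5⟩ := h2 γ' h3; ⟨δ', ss_union_l h4, h5⟩⟩
  let G : M → M := rc fun _ g => app k (η ∪ bun snd g)
  have hG : ∀ i, G i = app k (η ∪ bun G i) := fun i => by
    refine (rc_eq _ i).trans ?_
    congr 2
    refine ext' fun y => ?_
    simp only [mem_bun, mem_graph]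
    exact ⟨fun ⟨_, ⟨z, h1, e⟩, h2⟩ => ⟨z, h1, by rw [← e, snd_pair] at h2; exact h2⟩,
      fun ⟨z, h1, h2⟩ => ⟨_, ⟨z, h1, rfl⟩, by rw [snd_pair]; exact h2⟩⟩
  have h0 : ∀ i, Sm θ i → (∀ j ∈ i, G j ∈ θ) → bun G i ∈ θ := fun i hi h1 =>
    h.mem_of_sm (od_sUn fun y hy => by
      obtain ⟨z, h2, rfl⟩ := mem_img.1 hy
      exact h.od.mem (h1 z h2)) (h.sm_bun hi G fun y hy => sm_mem (h1 y hy)) fun y hy => by
      obtain ⟨z, h2, h3⟩ := mem_bun.1 hy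
      exact h.od.trans h3 (h1 z h2)
  have h1 : ∀ i ∈ (w1 : M), G i ∈ θ := trans_ind hw.1.tr _ fun i hi ih => by
    rw [hG]
    exact (hk _ (h.od.union_mem hη (h0 i (sm_mem (h.od.trans hi hw')) ih))).1
  have h2 : ∀ i ∈ (w1 : M), η ∪ bun G i ∈ θ := fun i hi => h.od.union_mem hη
    (h0 i (sm_mem (h.od.trans hi hw')) fun j hj => h1 j (hw.1.trans hj hi))
  have h3 : ∀ i ∈ (w1 : M), η ∪ bun G i ∈ bun G w1 := fun i hi =>
    mem_bun.2 ⟨i, hi, hG i ▸ (hk _ (h2 i hi)).2.1⟩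
  have h4 := h0 _ (sm_mem hw') h1
  obtain ⟨i0, hi0, -⟩ := hw.ex_not_mem ct_empty
  refine ⟨_, h4, (h.od.mem hη).mem_of_ss (h.od.mem h4) ss_union_l (h3 i0 hi0), fun γ hγ => ?_,
    fun x hx hc => ?_⟩
  · obtain ⟨i, hi, h5⟩ := mem_bun.1 hγ
    obtain ⟨δ, h6, h7⟩ := (hk _ (h2 _ (hw.sc_mem hi))).2.2 γ
      (ss_union_r (mem_bun.2 ⟨i, self_mem_sc i, h5⟩))
    exact ⟨δ, mem_bun.2 ⟨_, hw.sc_mem hi, hG _ ▸ h6⟩, h7⟩
  · obtain ⟨f, hf⟩ := skolem (fun y i => i ∈ (w1 : M) ∧ y ∈ G i) x fun y hy => mem_bun.1 (hx hy)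
    obtain ⟨j, h5, h6⟩ := hw.bound (hc.img (app f)) fun i hi => by
      obtain ⟨y, hy, rfl⟩ := mem_img.1 hi
      exact (hf y hy).1
    exact ⟨_, h3 j h5, fun y hy => ss_union_r (mem_bun.2 ⟨_, h6 (img_mem hy), (hf y hy).2⟩)⟩

end

end Pool.Agent.P.MP_f1f2b3_lc
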