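import Mathlib

/-!
Models of ZFC given by a type `A` and a membership relation `E` (`E x y` reads `x ∈ y`), and the
notions of the problem read inside such a model.  All quantifiers range over the model.
-/

namespace Pool.Agent.P.MP_f1f2b3_lc

/-- First-order formulas of the language of set theory, with de Bruijn variables. -/
inductive Fml : Type
  | mem : ℕ → ℕ → Fml
  | eq : ℕ → ℕ → Fml
  | bot : Fml
  | imp : Fml → Fml → Fml
  | all : Fml → Fml

/-- All free variables of the formula have index less than `k`. -/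
def FreeLt (φ : Fml) : ℕ → Prop :=
  Fml.rec (motive := fun _ => ℕ → Prop) (fun i j k => i < k ∧ j < k) (fun i j k => i < k ∧ j < k)
    (fun _ => True) (fun _ _ p q k => p k ∧ q k) (fun _ p k => p (k + 1)) φ

universe u

variable {A : Type u} (E : A → A → Prop)

/-- The assignment `x, v 0, v 1, …`. -/
def cons (x : A) (v : ℕ → A) (n : ℕ) : A := Nat.rec x (fun k _ => v k) n

/-- Tarski satisfaction in the structure `(A, E)` under an assignment of the variables. -/
def Sat (φ : Fml) : (ℕ → A) → Prop :=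
  Fml.rec (motive := fun _ => (ℕ → A) → Prop) (fun i j v => E (v i) (v j)) (fun i j v => v i = v j)
    (fun _ => False) (fun _ _ p q v => p v → q v) (fun _ p v => ∀ x, p (cons x v)) φ

/-- `a ⊆ b` -/
def Sub (a b : A) : Prop := ∀ x, E x a → E x b

/-- `c = {a, b}` -/
def IsUP (c a b : A) : Prop := ∀ x, E x c ↔ x = a ∨ x = b

/-- `p = (a, b) = {{a}, {a, b}}` -/
def IsPair (p a b : A) : Prop := ∀ c, E c p ↔ IsUP E c a a ∨ IsUP E c a b

/-- `(a, b) ∈ f` -/
def Rel (f a b : A) : Prop := ∃ p, E p f ∧ IsPair E p a b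

/-- `f` has at most one value at each point -/
def Fnl (f : A) : Prop := ∀ a b c, Rel E f a b → Rel E f a c → b = c

/-- `I` contains the empty set and is closed under `x ↦ x ∪ {x}` -/
def Ind (I : A) : Prop :=
  (∃ e, E e I ∧ ∀ x, ¬ E x e) ∧ ∀ x, E x I → ∃ y, E y I ∧ ∀ z, E z y ↔ E z x ∨ z = x

/-- `(A, E)` is a model of ZFC. -/
structure IsZFC : Prop where
  ext : ∀ a b, (∀ x, E x a ↔ E x b) → a = b
  foundation : ∀ a, (∃ x, E x a) → ∃ x, E x a ∧ ∀ y, E y x → ¬ E y a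
  pairing : ∀ a b, ∃ c, IsUP E c a b
  union : ∀ a, ∃ c, ∀ x, E x c ↔ ∃ y, E y a ∧ E x y
  power : ∀ a, ∃ c, ∀ x, E x c ↔ Sub E x a
  infinity : ∃ I, Ind E I
  separation : ∀ (φ : Fml) (v : ℕ → A) (a : A), ∃ b, ∀ x, E x b ↔ E x a ∧ Sat E φ (cons x v)
  replacement : ∀ (φ : Fml) (v : ℕ → A) (a : A),
    (∀ x, E x a → ∃! y, Sat E φ (cons y (cons x v))) →
    ∃ b, ∀ y, E y b ↔ ∃ x, E x a ∧ Sat E φ (cons y (cons x v))
  choice : ∀ a, ∃ f, Fnl E f ∧ ∀ x, E x a → (∃ y, E y x) → ∃ y, E y x ∧ Rel E f x y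

/-- `a` is an ordinal: a transitive set of transitive sets -/
def IsOrd (a : A) : Prop := ∀ x, E x a → Sub E x a ∧ ∀ y, E y x → Sub E y x

/-- `o = ω` -/
def IsOmega (o : A) : Prop := Ind E o ∧ ∀ I, Ind E I → Sub E o I

/-- `|x| ≤ |b|` : some function maps a subset of `b` onto a superset of `x` -/
def Cov (b x : A) : Prop := ∃ f, Fnl E f ∧ ∀ y, E y x → ∃ n, E n b ∧ Rel E f n y

/-- `x` is countable -/
def Ctbl (x : A) : Prop := ∃ o, IsOmega E o ∧ Cov E o x

/-- `w = ω₁` -/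
def IsOmega1 (w : A) : Prop := IsOrd E w ∧ ¬ Ctbl E w ∧ ∀ x, E x w → Ctbl E x

/-- `θ` is inaccessible: an ordinal above `ω` which is regular (every function from some `β < θ`
to `θ` is bounded) and a strong limit (the power set of each `β < θ` has size less than `θ`). -/
def Inacc (θ : A) : Prop :=
  IsOrd E θ ∧ (∃ o, IsOmega E o ∧ E o θ) ∧
    (∀ β f, E β θ → Fnl E f → ∃ η, E η θ ∧ ∀ x y, E x β → E y θ → Rel E f x y → E y η) ∧
    ∀ β c, E β θ → (∀ x, E x c ↔ Sub E x β) → ∃ γ, E γ θ ∧ Cov E γ c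

/-- The partition relation `θ → (θ)²₂`: for every set `c` of pairs there is a cofinal `H ⊆ θ` such
that all increasing pairs from `H` lie in `c`, or none does. -/
def Arrow (θ : A) : Prop :=
  ∀ c, ∃ H, Sub E H θ ∧ (∀ β, E β θ → ∃ ξ, E ξ H ∧ E β ξ) ∧
    ((∀ ξ η, E ξ H → E η H → E ξ η → Rel E c ξ η) ∨
      ∀ ξ η, E ξ H → E η H → E ξ η → ¬ Rel E c ξ η)

/-- `P = Col(ω₁, <θ)`: the functions `p` whose domain is a countable subset of `θ × ω₁`, with
`p (α, ξ) < α`. -/
def IsLevy (θ P : A) : Prop :=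
  ∀ p, E p P ↔ Fnl E p ∧ ∃ w d, IsOmega1 E w ∧ Ctbl E d ∧ ∀ z, E z p →
    ∃ k α ξ η, IsPair E z k η ∧ IsPair E k α ξ ∧ E k d ∧ E α θ ∧ E ξ w ∧ E η α

/-- `p ≤ q` in `P`, ordered by reverse inclusion -/
def Le (P p q : A) : Prop := E p P ∧ E q P ∧ Sub E q p

/-- `(p, (s, t)) ∈ R` -/
def Rel3 (R p s t : A) : Prop := ∃ k, IsPair E k s t ∧ Rel E R p k

/-- `p ⊩ s = t`.  Every set is a name, its relevant members being the pairs (name, condition).
The recursive clause is: for `(s', q) ∈ s` and `r ≤ p, q` there are `u ≤ r` and `(t', q') ∈ t` with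
`u ≤ q'` and `u ⊩ s' = t'`, and symmetrically.  The relation is defined as the union of the sets
`R` of triples closed under this clause. -/
def ForcesEq (P p s t : A) : Prop :=
  ∃ R, Rel3 E R p s t ∧ ∀ p s t, Rel3 E R p s t →
    (∀ s' q r, Rel E s s' q → Le E P r p → Le E P r q →
      ∃ u t' q', Le E P u r ∧ Rel E t t' q' ∧ Le E P u q' ∧ Rel3 E R u s' t') ∧
    ∀ t' q r, Rel E t t' q → Le E P r p → Le E P r q →
      ∃ u s' q', Le E P u r ∧ Rel E s s' q' ∧ Le E P u q' ∧ Rel3 E R u s' t'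

/-- `p ⊩ s ∈ t` -/
def ForcesMem (P p s t : A) : Prop :=
  ∀ r, Le E P r p → ∃ u t' q, Le E P u r ∧ Rel E t t' q ∧ Le E P u q ∧ ForcesEq E P u s t'

/-- The forcing relation `p ⊩ φ[v]`, for a condition `p` of `P` and names `v 0, v 1, …`. -/
def Forces (P : A) (φ : Fml) : A → (ℕ → A) → Prop :=
  Fml.rec (motive := fun _ => A → (ℕ → A) → Prop)
    (fun i j p v => ForcesMem E P p (v i) (v j)) (fun i j p v => ForcesEq E P p (v i) (v j))
    (fun _ _ => False) (fun _ _ f g p v => ∀ q, Le E P q p → f q v → g q v)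
    (fun _ f p v => ∀ t, f p (cons t v)) φ

/-- `τ` is the canonical name of `x`, defined by the recursion `x̌ = {(y̌, one) | y ∈ x}`. -/
def IsCheck (one x τ : A) : Prop :=
  ∃ f, Rel E f x τ ∧ ∀ a b, Rel E f a b → (∀ a', E a' a → ∃ b', Rel E f a' b') ∧
    ∀ z, E z b ↔ ∃ a' b', E a' a ∧ Rel E f a' b' ∧ IsPair E z b' one

end Pool.Agent.P.MP_f1f2b3_lc
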