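import Pool.Agent.P.MP_f1f2b3_lc.Defs

/-! Definability, uniformly in a family of structures, as classes found by instance search. -/

set_option linter.unusedSectionVars false

namespace Pool.Agent.P.MP_f1f2b3_lc

universe u w

/-- a structure for the language of set theory -/
class Mem (A : Type u) where
  E : A → A → Prop

/-- the axioms of ZF -/
structure IsZF {A : Type u} (E : A → A → Prop) : Prop where
  ext : ∀ a b, (∀ x, E x a ↔ E x b) → a = b
  foundation : ∀ a, (∃ x, E x a) → ∃ x, E x a ∧ ∀ y, E y x → ¬ E y a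
  pairing : ∀ a b, ∃ c, IsUP E c a b
  union : ∀ a, ∃ c, ∀ x, E x c ↔ ∃ y, E y a ∧ E x y
  power : ∀ a, ∃ c, ∀ x, E x c ↔ Sub E x a
  infinity : ∃ I, Ind E I
  separation : ∀ (φ : Fml) (v : ℕ → A) (a : A), ∃ b, ∀ x, E x b ↔ E x a ∧ Sat E φ (cons x v)
  replacement : ∀ (φ : Fml) (v : ℕ → A) (a : A),
    (∀ x, E x a → ∃! y, Sat E φ (cons y (cons x v))) →
    ∃ b, ∀ y, E y b ↔ ∃ x, E x a ∧ Sat E φ (cons y (cons x v))

/-- a model of ZF -/
class ZF (A : Type u) extends Mem A where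
  zf : IsZF E

/-- a model of ZFC -/
class Md (A : Type u) extends ZF A where
  choice : ∀ a, ∃ f, Fnl E f ∧ ∀ x, E x a → (∃ y, E y x) → ∃ y, E y x ∧ Rel E f x y

/-- the class structure from the predicate -/
@[reducible] def Md.of {A : Type u} {E : A → A → Prop} (h : IsZFC E) : Md A where
  E := E
  zf := ⟨h.ext, h.foundation, h.pairing, h.union, h.power, h.infinity, h.separation,
    h.replacement⟩
  choice := h.choice

theorem Md.zfc {A : Type u} [Md A] : IsZFC (Mem.E : A → A → Prop) :=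
  ⟨ZF.zf.ext, ZF.zf.foundation, ZF.zf.pairing, ZF.zf.union, ZF.zf.power, ZF.zf.infinity,
    ZF.zf.separation, ZF.zf.replacement, Md.choice⟩

instance Mem.instMembership {A : Type u} [Mem A] : Membership A A := ⟨fun b a => Mem.E a b⟩

theorem E_iff {A : Type u} [Mem A] {a b : A} : Mem.E a b ↔ a ∈ b := Iff.rfl

@[simp] theorem cons_zero {A : Type*} (x : A) (v : ℕ → A) : cons x v 0 = x := rfl
@[simp] theorem cons_succ {A : Type*} (x : A) (v : ℕ → A) (n : ℕ) : cons x v (n + 1) = v n := rfl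

def Fml.ren : Fml → (ℕ → ℕ) → Fml
  | Fml.mem i j, ρ => Fml.mem (ρ i) (ρ j)
  | Fml.eq i j, ρ => Fml.eq (ρ i) (ρ j)
  | Fml.bot, _ => Fml.bot
  | Fml.imp φ ψ, ρ => Fml.imp (φ.ren ρ) (ψ.ren ρ)
  | Fml.all φ, ρ => Fml.all (φ.ren (cons 0 (fun n => ρ n + 1)))

theorem sat_ren {A : Type u} (E : A → A → Prop) (φ : Fml) : ∀ (ρ : ℕ → ℕ) (v : ℕ → A),
    Sat E (φ.ren ρ) v ↔ Sat E φ (fun n => v (ρ n)) := by
  induction φ with
  | mem i j => exact fun _ _ => Iff.rfl
  | eq i j => exact fun _ _ => Iff.rfl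
  | bot => exact fun _ _ => Iff.rfl
  | imp φ ψ h1 h2 => exact fun ρ v => imp_congr (h1 ρ v) (h2 ρ v)
  | all φ ih =>
    intro ρ v
    refine forall_congr' (fun x => (ih _ _).trans ?_)
    have : (fun n => cons x v (cons 0 (fun n => ρ n + 1) n)) = cons x (fun n => v (ρ n)) := by
      funext n; cases n <;> rfl
    rw [this]; exact Iff.rfl

theorem freeLt_ren (φ : Fml) : ∀ (ρ : ℕ → ℕ) (k : ℕ), (∀ n, ρ n < k) → FreeLt (φ.ren ρ) k := by
  induction φ with
  | mem i j => exact fun _ _ h => ⟨h i, h j⟩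
  | eq i j => exact fun _ _ h => ⟨h i, h j⟩
  | bot => exact fun _ _ _ => trivial
  | imp φ ψ h1 h2 => exact fun ρ k h => ⟨h1 ρ k h, h2 ρ k h⟩
  | all φ ih =>
    refine fun ρ k h => ih _ (k + 1) fun n => ?_
    cases n
    exacts [Nat.succ_pos k, Nat.succ_lt_succ (h _)]

section Fam

variable {I : Type w} {A : I → Type u} [∀ i, Mem (A i)]

/-- definable by one formula in all members of the family, with parameters from `K` -/
class Df (K : (∀ i, A i) → Prop) (P : ∀ i, (ℕ → A i) → Prop) : Prop where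
  out : ∃ (φ : Fml) (ρ : ℕ → ℕ ⊕ {c // K c}), ∀ i v,
    (P i v ↔ Sat Mem.E φ (fun n => Sum.elim v (fun c => c.1 i) (ρ n)))

/-- definable functions -/
class Tm (K : (∀ i, A i) → Prop) (t : ∀ i, (ℕ → A i) → A i) : Prop where
  out : Df K (fun i v => v 0 = t i (fun n => v (n + 1)))

variable {K : (∀ i, A i) → Prop}

namespace Df

theorem congr {P Q : ∀ i, (ℕ → A i) → Prop} (h : Df K P) (H : ∀ i v, Q i v ↔ P i v) : Df K Q := by
  obtain ⟨φ, ρ, h⟩ := h
  exact ⟨φ, ρ, fun i v => (H i v).trans (h i v)⟩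

theorem sub {P : ∀ i, (ℕ → A i) → Prop} (h : Df K P) (σ : ℕ → ℕ ⊕ {c // K c}) :
    Df K (fun i v => P i (fun n => Sum.elim v (fun c => c.1 i) (σ n))) := by
  obtain ⟨φ, ρ, h⟩ := h
  refine ⟨φ, fun n => Sum.elim σ Sum.inr (ρ n), fun i v => (h i _).trans ?_⟩
  have : (fun n => Sum.elim (fun n => Sum.elim v (fun c => c.1 i) (σ n)) (fun c => c.1 i) (ρ n)) =
      fun n => Sum.elim v (fun c => c.1 i) (Sum.elim σ Sum.inr (ρ n)) := by
    funext n; cases ρ n <;> rfl
  rw [this]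

theorem ren {P : ∀ i, (ℕ → A i) → Prop} (h : Df K P) (σ : ℕ → ℕ) :
    Df K (fun i v => P i (fun n => v (σ n))) := h.sub (fun n => Sum.inl (σ n))

theorem sat (φ : Fml) : Df K (fun _ v => Sat Mem.E φ v) := ⟨φ, Sum.inl, fun _ _ => Iff.rfl⟩

theorem mem0 (a b : ℕ) : Df K (fun _ v => v a ∈ v b) := sat (Fml.mem a b)

theorem eq0 (a b : ℕ) : Df K (fun _ v => v a = v b) := sat (Fml.eq a b)

theorem bot : Df K (fun _ _ => False) := sat Fml.bot

instance imp {P Q : ∀ i, (ℕ → A i) → Prop} [h1 : Df K P] [h2 : Df K Q] :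
    Df K (fun i v => P i v → Q i v) := by
  obtain ⟨φ, ρ, h1⟩ := h1
  obtain ⟨ψ, σ, h2⟩ := h2
  refine ⟨Fml.imp (φ.ren (fun n => 2 * n)) (ψ.ren (fun n => 2 * n + 1)),
    fun n => if n % 2 = 0 then ρ (n / 2) else σ (n / 2), fun i v => imp_congr ?_ ?_⟩
  · rw [h1 i v]; refine Iff.trans ?_ (sat_ren _ _ _ _).symm
    simp
  · rw [h2 i v]; refine Iff.trans ?_ (sat_ren _ _ _ _).symm
    have e1 : ∀ n : ℕ, (2 * n + 1) / 2 = n := fun n => by omega
    simp [e1]

instance all {P : ∀ i, (ℕ → A i) → A i → Prop}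
    [h : Df K (fun i v => P i (fun n => v (n + 1)) (v 0))] : Df K (fun i v => ∀ x, P i v x) := by
  obtain ⟨φ, ρ, h⟩ := h
  refine ⟨Fml.all (φ.ren (fun n => Sum.elim (cons 0 (fun _ => n + 1)) (fun _ => n + 1) (ρ n))),
    fun n => Sum.elim (fun k => Sum.inl (k - 1)) Sum.inr (ρ n),
    fun i v => forall_congr' (fun x => (h i (cons x v)).trans ?_)⟩
  refine Iff.trans ?_ (sat_ren _ _ _ _).symm
  have : (fun n => Sum.elim (cons x v) (fun c => c.1 i) (ρ n)) = fun n =>
      cons x (fun n => Sum.elim v (fun c => c.1 i)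
        (Sum.elim (fun k => Sum.inl (k - 1)) Sum.inr (ρ n) : ℕ ⊕ {c // K c}))
        (Sum.elim (cons 0 (fun _ => n + 1)) (fun _ => n + 1) (ρ n)) := by
    funext n
    rcases e : ρ n with k | c
    · cases k
      · rfl
      · simp [e]
    · simp [e]
  rw [this]

section
variable {P Q : ∀ i, (ℕ → A i) → Prop}

instance not [Df K P] : Df K (fun i v => ¬ P i v) := @imp _ _ _ _ _ _ _ bot

instance and [Df K P] [Df K Q] : Df K (fun i v => P i v ∧ Q i v) :=
  (inferInstance : Df K (fun i v => ¬ (P i v → ¬ Q i v))).congr (fun _ _ => by tauto)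

instance or [Df K P] [Df K Q] : Df K (fun i v => P i v ∨ Q i v) :=
  (inferInstance : Df K (fun i v => ¬ P i v → Q i v)).congr (fun _ _ => by tauto)

instance iff [Df K P] [Df K Q] : Df K (fun i v => P i v ↔ Q i v) :=
  (inferInstance : Df K (fun i v => (P i v → Q i v) ∧ (Q i v → P i v))).congr (fun _ _ => iff_def)

end

instance ex {P : ∀ i, (ℕ → A i) → A i → Prop}
    [h : Df K (fun i v => P i (fun n => v (n + 1)) (v 0))] : Df K (fun i v => ∃ x, P i v x) :=
  (inferInstance : Df K (fun i v => ¬ ∀ x, ¬ P i v x)).congr (fun _ _ => by simp)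

instance (priority := low) const (p : Prop) : Df K (fun _ _ => p) := by
  by_cases h : p
  · exact (@not _ _ _ _ _ bot).congr (fun _ _ => by simp [h])
  · exact bot.congr (fun _ _ => by simp [h])

instance (priority := low) ren' {P : ∀ i, (ℕ → A i) → Prop} [h : Df K P] (ρ : ℕ → ℕ) :
    Df K (fun i v => P i (fun n => v (ρ n))) := h.ren ρ

instance exu {P : ∀ i, (ℕ → A i) → A i → Prop}
    [h : Df K (fun i v => P i (fun n => v (n + 1)) (v 0))] : Df K (fun i v => ∃! x, P i v x) := by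
  have h3 : Df K (fun i v => P i (fun n => v (n + 2)) (v 0)) := h.ren (cons 0 (fun n => n + 2))
  have h4 : Df K (fun i v => v 0 = v 1) := eq0 0 1
  exact (inferInstance : Df K (fun i v => ∃ x, P i v x ∧ ∀ y, P i v y → y = x))

end Df

instance Tm.var (k : ℕ) : Tm K (fun _ v => v k) := ⟨Df.eq0 0 (k + 1)⟩

instance (priority := low) Tm.ren {t : ∀ i, (ℕ → A i) → A i} [h : Tm K t] (ρ : ℕ → ℕ) :
    Tm K (fun i v => t i (fun n => v (ρ n))) := ⟨h.out.ren (cons 0 (fun n => ρ n + 1))⟩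

theorem Tm.const {c : ∀ i, A i} (h : K c) : Tm K (fun i _ => c i) :=
  ⟨(Df.eq0 0 1).sub (cons (Sum.inl 0) (fun _ => Sum.inr ⟨c, h⟩))⟩

instance (priority := 50) Tm.constT (c : ∀ i, A i) : Tm (fun _ => True) (fun i _ => c i) :=
  Tm.const trivial

theorem Tm.congr {s t : ∀ i, (ℕ → A i) → A i} (h : Tm K s) (e : ∀ i v, t i v = s i v) : Tm K t :=
  ⟨h.out.congr fun i v => by rw [e]⟩

variable (s t r o : ∀ i, (ℕ → A i) → A i) [hs : Tm K s] [ht : Tm K t] [hr : Tm K r] [ho : Tm K o]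

theorem Df.two {R : ∀ i, A i → A i → Prop} (h : Df K (fun i v => R i (v 0) (v 1))) :
    Df K (fun i v => R i (s i v) (t i v)) := by
  have h1 : Df K (fun i v => v 1 = s i (fun n => v (n + 2))) := hs.out.ren (cons 1 (fun n => n + 2))
  have h2 : Df K (fun i v => v 0 = t i (fun n => v (n + 2))) := ht.out.ren (cons 0 (fun n => n + 2))
  have h3 : Df K (fun i v => R i (v 1) (v 0)) := h.ren (cons 1 (fun _ => 0))
  exact (inferInstance : Df K (fun i v => ∀ a b, a = s i v → b = t i v → R i a b)).congr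
    (fun i v => ⟨fun h _ _ ha hb => ha ▸ hb ▸ h, fun h => h _ _ rfl rfl⟩)

instance Df.mem : Df K (fun i v => s i v ∈ t i v) :=
  Df.two s t (R := fun _ a b => a ∈ b) (Df.mem0 0 1)

instance Df.memE : Df K (fun i v => Mem.E (s i v) (t i v)) := Df.mem s t

instance Df.eq : Df K (fun i v => s i v = t i v) := Df.two s t (Df.eq0 0 1)

instance Df.ne : Df K (fun i v => s i v ≠ t i v) := Df.not

theorem Df.one {P : ∀ i, A i → Prop} (h : Df K (fun i v => P i (v 0))) :
    Df K (fun i v => P i (s i v)) := Df.two s s (R := fun i a _ => P i a) h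

theorem Df.three {R : ∀ i, A i → A i → A i → Prop} (h : Df K (fun i v => R i (v 0) (v 1) (v 2))) :
    Df K (fun i v => R i (s i v) (t i v) (r i v)) := by
  have h3 : Df K (fun i v => R i (v 2) (v 1) (v 0)) := h.ren (cons 2 (cons 1 (fun _ => 0)))
  exact (inferInstance : Df K (fun i v => ∀ a b c, a = s i v → b = t i v → c = r i v →
    R i a b c)).congr
    (fun i v => ⟨fun h _ _ _ ha hb hc => ha ▸ hb ▸ hc ▸ h, fun h => h _ _ _ rfl rfl rfl⟩)

theorem Df.four {R : ∀ i, A i → A i → A i → A i → Prop}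
    (h : Df K (fun i v => R i (v 0) (v 1) (v 2) (v 3))) :
    Df K (fun i v => R i (s i v) (t i v) (r i v) (o i v)) := by
  have h3 : Df K (fun i v => R i (v 3) (v 2) (v 1) (v 0)) :=
    h.ren (cons 3 (cons 2 (cons 1 (fun _ => 0))))
  exact (inferInstance : Df K (fun i v => ∀ a b c d, a = s i v → b = t i v → c = r i v →
    d = o i v → R i a b c d)).congr
    (fun i v => ⟨fun h _ _ _ _ ha hb hc hd => ha ▸ hb ▸ hc ▸ hd ▸ h,
      fun h => h _ _ _ _ rfl rfl rfl rfl⟩)

theorem Tm.one {G : ∀ i, A i → A i} (h : Tm K (fun i v => G i (v 0))) :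
    Tm K (fun i v => G i (s i v)) :=
  ⟨Df.two (fun _ v => v 0) (fun i v => s i (fun n => v (n + 1))) (R := fun i a b => a = G i b)
    h.out⟩

theorem Tm.two {G : ∀ i, A i → A i → A i} (h : Tm K (fun i v => G i (v 0) (v 1))) :
    Tm K (fun i v => G i (s i v) (t i v)) :=
  ⟨Df.three (fun _ v => v 0) (fun i v => s i (fun n => v (n + 1)))
    (fun i v => t i (fun n => v (n + 1))) (R := fun i a b c => a = G i b c) h.out⟩

theorem Df.sub1 {P : ∀ i, (ℕ → A i) → A i → Prop}
    (h : Df K (fun i v => P i (fun n => v (n + 1)) (v 0))) (ρ : ℕ → ℕ) :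
    Df K (fun i v => P i (fun n => v (ρ n)) (s i v)) := by
  have h3 : Df K (fun i v => P i (fun n => v (ρ n + 1)) (v 0)) := h.ren (cons 0 fun n => ρ n + 1)
  exact (inferInstance : Df K (fun i v => ∀ a, a = s i v → P i (fun n => v (ρ n)) a)).congr
    (fun i v => ⟨fun h _ ha => ha ▸ h, fun h => h _ rfl⟩)

theorem Df.sub2 {P : ∀ i, (ℕ → A i) → A i → A i → Prop}
    (h : Df K (fun i v => P i (fun n => v (n + 2)) (v 0) (v 1))) (ρ : ℕ → ℕ) :
    Df K (fun i v => P i (fun n => v (ρ n)) (s i v) (t i v)) := by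
  have h3 : Df K (fun i v => P i (fun n => v (ρ n + 1 + 1)) (v 1) (v 0)) :=
    h.ren (cons 1 (cons 0 fun n => ρ n + 2))
  exact (inferInstance : Df K (fun i v => ∀ a b, a = s i v → b = t i v →
    P i (fun n => v (ρ n)) a b)).congr
    (fun i v => ⟨fun h _ _ ha hb => ha ▸ hb ▸ h, fun h => h _ _ rfl rfl⟩)

theorem Tm.sub1 {F : ∀ i, (ℕ → A i) → A i → A i}
    (h : Tm K (fun i v => F i (fun n => v (n + 1)) (v 0))) (ρ : ℕ → ℕ) :
    Tm K (fun i v => F i (fun n => v (ρ n)) (s i v)) :=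
  ⟨Df.sub2 (fun _ v => v 0) (fun i v => s i (fun n => v (n + 1))) (P := fun i v a b => a = F i v b)
    h.out (fun n => ρ n + 1)⟩

theorem Tm.sub2 {F : ∀ i, (ℕ → A i) → A i → A i → A i}
    (h : Tm K (fun i v => F i (fun n => v (n + 2)) (v 0) (v 1))) (ρ : ℕ → ℕ) :
    Tm K (fun i v => F i (fun n => v (ρ n)) (s i v) (t i v)) := by
  have h3 : Df K (fun i v => v 2 = F i (fun n => v (ρ n + 1 + 1 + 1)) (v 1) (v 0)) :=
    h.out.ren (cons 2 (cons 1 (cons 0 fun n => ρ n + 3)))
  exact ⟨(inferInstance : Df K (fun i v => ∀ a b, a = s i (fun n => v (n + 1)) →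
    b = t i (fun n => v (n + 1)) → v 0 = F i (fun n => v (ρ n + 1)) a b)).congr
    (fun i v => ⟨fun h _ _ ha hb => ha ▸ hb ▸ h, fun h => h _ _ rfl rfl⟩)⟩

/-! the notions of the statement -/

instance df_Sub : Df K (fun i v => Sub Mem.E (s i v) (t i v)) := by unfold Sub; infer_instance
instance df_IsUP : Df K (fun i v => IsUP Mem.E (s i v) (t i v) (r i v)) := by
  unfold IsUP; infer_instance
instance df_IsPair : Df K (fun i v => IsPair Mem.E (s i v) (t i v) (r i v)) := by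
  unfold IsPair; infer_instance
instance df_Rel : Df K (fun i v => Rel Mem.E (s i v) (t i v) (r i v)) := by
  unfold Rel; infer_instance
instance df_Fnl : Df K (fun i v => Fnl Mem.E (s i v)) := by unfold Fnl; infer_instance
instance df_Ind : Df K (fun i v => Ind Mem.E (s i v)) := by unfold Ind; infer_instance
instance df_IsOrd : Df K (fun i v => IsOrd Mem.E (s i v)) := by unfold IsOrd; infer_instance
instance df_IsOmega : Df K (fun i v => IsOmega Mem.E (s i v)) := by unfold IsOmega; infer_instance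
instance df_Cov : Df K (fun i v => Cov Mem.E (s i v) (t i v)) := by unfold Cov; infer_instance
instance df_Ctbl : Df K (fun i v => Ctbl Mem.E (s i v)) := by unfold Ctbl; infer_instance
instance df_IsOmega1 : Df K (fun i v => IsOmega1 Mem.E (s i v)) := by
  unfold IsOmega1; infer_instance
instance df_Inacc : Df K (fun i v => Inacc Mem.E (s i v)) := by unfold Inacc; infer_instance
instance df_Arrow : Df K (fun i v => Arrow Mem.E (s i v)) := by unfold Arrow; infer_instance
instance df_IsLevy : Df K (fun i v => IsLevy Mem.E (s i v) (t i v)) := by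
  unfold IsLevy; infer_instance
instance df_Le : Df K (fun i v => Le Mem.E (s i v) (t i v) (r i v)) := by
  unfold Le; infer_instance
instance df_Rel3 : Df K (fun i v => Rel3 Mem.E (s i v) (t i v) (r i v) (o i v)) := by
  unfold Rel3; infer_instance
instance df_ForcesEq : Df K (fun i v => ForcesEq Mem.E (s i v) (t i v) (r i v) (o i v)) := by
  unfold ForcesEq; infer_instance
instance df_ForcesMem : Df K (fun i v => ForcesMem Mem.E (s i v) (t i v) (r i v) (o i v)) := by
  unfold ForcesMem; infer_instance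
instance df_IsCheck : Df K (fun i v => IsCheck Mem.E (s i v) (t i v) (r i v)) := by
  unfold IsCheck; infer_instance

theorem df_Forces (φ : Fml) :
    Df K (fun _ v => Forces Mem.E (v 0) φ (v 1) (fun n => v (n + 2))) := by
  induction φ with
  | mem a b =>
    exact (inferInstance : Df K (fun _ v => ForcesMem Mem.E (v 0) (v 1) (v (a + 2)) (v (b + 2))))
  | eq a b =>
    exact (inferInstance : Df K (fun _ v => ForcesEq Mem.E (v 0) (v 1) (v (a + 2)) (v (b + 2))))
  | bot => exact Df.bot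
  | imp φ ψ h1 h2 =>
    have h3 : Df K (fun _ v => Forces Mem.E (v 1) φ (v 0) (fun n => v (n + 2 + 1))) :=
      h1.ren (cons 1 (cons 0 fun n => n + 3))
    have h4 : Df K (fun _ v => Forces Mem.E (v 1) ψ (v 0) (fun n => v (n + 2 + 1))) :=
      h2.ren (cons 1 (cons 0 fun n => n + 3))
    exact (inferInstance : Df K (fun _ v => ∀ q, Le Mem.E (v 0) q (v 1) →
      Forces Mem.E (v 0) φ q (fun n => v (n + 2)) → Forces Mem.E (v 0) ψ q (fun n => v (n + 2))))
  | all φ h =>
    have h3 : Df K (fun _ v => Forces Mem.E (v 1) φ (v 2) (cons (v 0) fun n => v (n + 2 + 1))) :=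
      (h.ren (cons 1 (cons 2 (cons 0 fun n => n + 3)))).congr fun i v => by
        refine iff_of_eq ?_
        congr 1
        funext n
        cases n <;> rfl
    exact (inferInstance : Df K (fun _ v => ∀ t,
      Forces Mem.E (v 0) φ (v 1) (cons t fun n => v (n + 2))))

end Fam

/-- definable with parameters in one structure -/
abbrev D1 {M : Type u} [Mem M] (P : (ℕ → M) → Prop) : Prop :=
  Df (I := Unit) (A := fun _ => M) (fun _ => True) (fun _ => P)

/-- definable functions in one structure -/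
abbrev T1 {M : Type u} [Mem M] (t : (ℕ → M) → M) : Prop :=
  Tm (I := Unit) (A := fun _ => M) (fun _ => True) (fun _ => t)

section Fix

variable {I : Type w} {A : I → Type u} [∀ i, Mem (A i)] {K : (∀ i, A i) → Prop}

theorem Df.at {P : ∀ i, (ℕ → A i) → Prop} (h : Df K P) (i : I) : D1 (P i) := by
  obtain ⟨φ, ρ, h⟩ := h
  refine ⟨φ, fun n => Sum.elim Sum.inl (fun c => Sum.inr ⟨fun _ => c.1 i, trivial⟩) (ρ n),
    fun _ v => (h i v).trans (iff_of_eq ?_)⟩
  congr 1
  funext n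
  rcases e : ρ n with k | c <;> simp [e]

theorem Df.fix1 {P : ∀ i, (ℕ → A i) → A i → Prop}
    (h : Df K (fun i v => P i (fun n => v (n + 1)) (v 0))) (i : I) (v : ℕ → A i) :
    D1 (fun w => P i v (w 0)) :=
  (h.at i).sub (cons (Sum.inl 0) fun n => Sum.inr ⟨fun _ => v n, trivial⟩)

theorem Tm.fix1 {F : ∀ i, (ℕ → A i) → A i → A i}
    (h : Tm K (fun i v => F i (fun n => v (n + 1)) (v 0))) (i : I) (v : ℕ → A i) :
    T1 (fun w => F i v (w 0)) :=
  ⟨(h.out.at i).sub (cons (Sum.inl 0) (cons (Sum.inl 1) fun n => Sum.inr ⟨fun _ => v n, trivial⟩))⟩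

theorem Tm.fix2 {F : ∀ i, (ℕ → A i) → A i → A i → A i}
    (h : Tm K (fun i v => F i (fun n => v (n + 2)) (v 0) (v 1))) (i : I) (v : ℕ → A i) :
    T1 (fun w => F i v (w 0) (w 1)) :=
  ⟨(h.out.at i).sub (cons (Sum.inl 0) (cons (Sum.inl 1) (cons (Sum.inl 2)
    fun n => Sum.inr ⟨fun _ => v n, trivial⟩)))⟩

theorem Df.fix2 {P : ∀ i, (ℕ → A i) → A i → A i → Prop}
    (h : Df K (fun i v => P i (fun n => v (n + 2)) (v 0) (v 1))) (i : I) (v : ℕ → A i) :
    D1 (fun w => P i v (w 0) (w 1)) :=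
  (h.at i).sub (cons (Sum.inl 0) (cons (Sum.inl 1) fun n => Sum.inr ⟨fun _ => v n, trivial⟩))

end Fix

section Use

variable {M : Type u} [Mem M]

theorem D1.use {P : M → Prop} (h : D1 fun v => P (v 0)) (s : (ℕ → M) → M) [T1 s] :
    D1 fun v => P (s v) := Df.one (fun _ => s) (P := fun _ => P) h

theorem D1.use2 {P : M → M → Prop} (h : D1 fun v => P (v 0) (v 1)) (s t : (ℕ → M) → M) [T1 s]
    [T1 t] : D1 fun v => P (s v) (t v) := Df.two (fun _ => s) (fun _ => t) (R := fun _ => P) h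

theorem D1.use3 {P : M → M → M → Prop} (h : D1 fun v => P (v 0) (v 1) (v 2))
    (s t r : (ℕ → M) → M) [T1 s] [T1 t] [T1 r] : D1 fun v => P (s v) (t v) (r v) :=
  Df.three (fun _ => s) (fun _ => t) (fun _ => r) (R := fun _ => P) h

theorem T1.use {G : M → M} (h : T1 fun v => G (v 0)) (s : (ℕ → M) → M) [T1 s] :
    T1 fun v => G (s v) := Tm.one (fun _ => s) (G := fun _ => G) h

theorem T1.use2 {G : M → M → M} (h : T1 fun v => G (v 0) (v 1)) (s t : (ℕ → M) → M) [T1 s]
    [T1 t] : T1 fun v => G (s v) (t v) := Tm.two (fun _ => s) (fun _ => t) (G := fun _ => G) h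

end Use

section One

variable {M : Type u} [ZF M]

theorem ex_sep (P : M → Prop) (h : D1 (fun v => P (v 0))) (a : M) :
    ∃ b : M, ∀ x, x ∈ b ↔ x ∈ a ∧ P x := by
  obtain ⟨φ, ρ, h⟩ := h
  obtain ⟨b, e⟩ := ZF.zf.separation
    (φ.ren (fun n => Sum.elim (fun _ => 0) (fun _ => n + 1) (ρ n)))
    (fun n => Sum.elim (fun _ => a) (fun c => c.1 ()) (ρ n)) a
  refine ⟨b, fun x => (e x).trans (and_congr_right fun _ => (sat_ren _ _ _ _).trans ?_)⟩
  refine Iff.trans (iff_of_eq ?_) (h () (fun _ => x)).symm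
  congr 1
  funext n
  rcases e : ρ n with k | c
  · rfl
  · simp [e]

theorem ex_repl (R : M → M → Prop) (h : D1 (fun v => R (v 1) (v 0))) (a : M)
    (hu : ∀ x ∈ a, ∃! y, R x y) : ∃ b : M, ∀ y, y ∈ b ↔ ∃ x ∈ a, R x y := by
  obtain ⟨φ, ρ, h⟩ := h
  let φ' := φ.ren (fun n => Sum.elim (cons 0 fun _ => 1) (fun _ => n + 2) (ρ n))
  let w : ℕ → M := fun n => Sum.elim (fun _ => a) (fun c => c.1 ()) (ρ n)
  have key : ∀ x y, (R x y ↔ Sat Mem.E φ' (cons y (cons x w))) := by
    intro x y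
    refine (h () (cons y fun _ => x)).trans (Iff.trans (iff_of_eq ?_) (sat_ren _ _ _ _).symm)
    congr 1
    funext n
    rcases e : ρ n with k | c
    · cases k <;> rfl
    · simp [e, w]
  obtain ⟨b, e⟩ := ZF.zf.replacement φ' w a fun x hx => by simpa only [key] using hu x hx
  exact ⟨b, fun y => (e y).trans (by simp only [key]; rfl)⟩

end One

end Pool.Agent.P.MP_f1f2b3_lc
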