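import Pool.Agent.P.MP_f1f2b3_lc.Card

/-! End extensions. -/

set_option linter.unusedSectionVars false
set_option linter.unusedVariables false

namespace Pool.Agent.P.MP_f1f2b3_lc

universe u w

/-- an embedding onto a transitive class -/
structure Emb {M N : Type u} [Mem M] [Mem N] (j : M → N) : Prop where
  inj : ∀ {x y}, j x = j y → x = y
  mem : ∀ {x y}, y ∈ j x ↔ ∃ z ∈ x, y = j z

namespace Emb

variable {M N : Type u} [ZF M] [ZF N] {j : M → N} (h : Emb j)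
include h

theorem eq_iff {x y : M} : j x = j y ↔ x = y := ⟨h.inj, congrArg j⟩

theorem mem_iff {x y : M} : j x ∈ j y ↔ x ∈ y :=
  h.mem.trans ⟨fun ⟨z, h1, h2⟩ => h.inj h2 ▸ h1, fun h1 => ⟨x, h1, rfl⟩⟩

theorem ball {a : M} {P : N → Prop} : (∀ y ∈ j a, P y) ↔ ∀ x ∈ a, P (j x) :=
  ⟨fun H x hx => H _ (h.mem_iff.2 hx), fun H y hy => let ⟨z, h1, h2⟩ := h.mem.1 hy; h2 ▸ H z h1⟩

theorem bex {a : M} {P : N → Prop} : (∃ y ∈ j a, P y) ↔ ∃ x ∈ a, P (j x) :=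
  ⟨fun ⟨y, hy, H⟩ => let ⟨z, h1, h2⟩ := h.mem.1 hy; ⟨z, h1, h2 ▸ H⟩,
    fun ⟨x, hx, H⟩ => ⟨_, h.mem_iff.2 hx, H⟩⟩

theorem ss_iff {x y : M} : j x ⊆ j y ↔ x ⊆ y := by
  simp only [subset_def, h.ball, h.mem_iff]

theorem eq_of {a : M} {b : N} (h1 : ∀ y ∈ b, ∃ x, y = j x) (h2 : ∀ x, x ∈ a ↔ j x ∈ b) :
    j a = b :=
  ext' fun y => ⟨fun hy => let ⟨z, h3, h4⟩ := h.mem.1 hy; h4 ▸ (h2 z).1 h3,
    fun hy => let ⟨x, e⟩ := h1 y hy; e ▸ h.mem_iff.2 ((h2 x).2 (e ▸ hy))⟩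

theorem ex {a : M} {y : N} (hy : y ∈ j a) : ∃ x, y = j x := let ⟨z, _, e⟩ := h.mem.1 hy; ⟨z, e⟩

theorem empty : j ∅ = ∅ := h.eq_of (by simp) (by simp)

theorem up (a b : M) : j (up a b) = MP_f1f2b3_lc.up (j a) (j b) :=
  h.eq_of (fun y hy => (mem_up.1 hy).elim (fun e => ⟨_, e⟩) fun e => ⟨_, e⟩) (by simp [h.eq_iff])

theorem pair (a b : M) : j (pair a b) = MP_f1f2b3_lc.pair (j a) (j b) := by
  simp only [MP_f1f2b3_lc.pair, h.up]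

theorem union (a b : M) : j (a ∪ b) = j a ∪ j b :=
  h.eq_of (fun y hy => (mem_union.1 hy).elim h.ex h.ex) (by simp [h.mem_iff])

theorem sc (a : M) : j (sc a) = MP_f1f2b3_lc.sc (j a) := by
  simp only [MP_f1f2b3_lc.sc, h.union, h.up]

theorem prod (a b : M) : j (prod a b) = MP_f1f2b3_lc.prod (j a) (j b) := by
  refine h.eq_of (fun y hy => ?_) fun x => ?_
  · obtain ⟨c, hc, d, hd, rfl⟩ := mem_prod.1 hy
    obtain ⟨c, rfl⟩ := h.ex hc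
    obtain ⟨d, rfl⟩ := h.ex hd
    exact ⟨_, (h.pair c d).symm⟩
  · simp only [mem_prod, h.bex, ← h.pair, h.eq_iff]

theorem sep {a : M} {P : M → Prop} {Q : N → Prop} [D1 fun v => P (v 0)] [D1 fun v => Q (v 0)]
    (H : ∀ x ∈ a, P x ↔ Q (j x)) : j (sep a P) = MP_f1f2b3_lc.sep (j a) Q :=
  h.eq_of (fun y hy => h.ex (mem_sep.1 hy).1) fun x => by
    simp only [mem_sep, h.mem_iff]
    exact and_congr_right (H x)

theorem ex_pair {f : M} {a b : N} (hp : MP_f1f2b3_lc.pair a b ∈ j f) :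
    ∃ x y, a = j x ∧ b = j y := by
  obtain ⟨p, e⟩ := h.ex hp
  obtain ⟨u, e1⟩ := h.ex (e ▸ mem_up.2 (Or.inr rfl) : MP_f1f2b3_lc.up a b ∈ j p)
  obtain ⟨x, e2⟩ := h.ex (e1 ▸ mem_up.2 (Or.inl rfl) : a ∈ j u)
  obtain ⟨y, e3⟩ := h.ex (e1 ▸ mem_up.2 (Or.inr rfl) : b ∈ j u)
  exact ⟨x, y, e2, e3⟩

theorem sl (f x : M) : j (sl f x) = MP_f1f2b3_lc.sl (j f) (j x) :=
  h.eq_of (fun y hy => let ⟨_, b, _, e⟩ := h.ex_pair (mem_sl.1 hy); ⟨b, e⟩) fun y => by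
    simp only [mem_sl, ← h.pair, h.mem_iff]

theorem fn_iff {f : M} : Fn (j f) ↔ Fn f := by
  refine ⟨fun H a b c h1 h2 => h.inj (H (a := j a) ?_ ?_), fun H a b c h1 h2 => ?_⟩
  · rwa [← h.pair, h.mem_iff]
  · rwa [← h.pair, h.mem_iff]
  · obtain ⟨a, b, rfl, rfl⟩ := h.ex_pair h1
    obtain ⟨-, c, -, rfl⟩ := h.ex_pair h2
    rw [← h.pair, h.mem_iff] at h1 h2
    rw [H h1 h2]

theorem od_iff {a : M} : Od (j a) ↔ Od a := by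
  simp only [Od, h.ball, h.ss_iff]

theorem om : j om = om := by
  have h1 : (MP_f1f2b3_lc.om : N) ⊆ j MP_f1f2b3_lc.om :=
    om_ind _ (h.empty ▸ h.mem_iff.2 empty_mem_om) fun n _ hn => by
      obtain ⟨m, h2, rfl⟩ := h.mem.1 hn
      exact h.sc m ▸ h.mem_iff.2 (sc_mem_om h2)
  refine ((od_om.mem_or_eq (h.od_iff.2 od_om) h1).resolve_left fun h2 => ?_).symm
  obtain ⟨m, h3, e⟩ := h.mem.1 h2
  rcases om_cases h3 with rfl | ⟨k, -, rfl⟩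
  · exact not_mem_empty (h.empty ▸ e ▸ empty_mem_om)
  · rw [h.sc] at e
    exact mem_irrefl _ (e ▸ sc_mem_om (e ▸ self_mem_sc (j k)))

theorem cv {b x : M} (H : Cv b x) : Cv (j b) (j x) := by
  obtain ⟨f, h1, h2⟩ := cov_iff.2 H
  refine cov_iff.1 ⟨j f, fnl_iff.2 (h.fn_iff.2 (fnl_iff.1 h1)), h.ball.2 fun y hy => ?_⟩
  obtain ⟨n, h3, h4⟩ := h2 y hy
  exact ⟨j n, h.mem_iff.2 h3, rel_iff.2 (h.pair n y ▸ h.mem_iff.2 (rel_iff.1 h4))⟩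

theorem ct {x : M} (H : Ct x) : Ct (j x) := by rw [Ct, ← h.om]; exact h.cv H

end Emb

theorem choice_of_numer {N : Type u} [ZF N]
    (H : ∀ x : N, ∃ β f : N, Od β ∧ ∀ y ∈ x, ∃ ξ ∈ β, app f ξ = y) (a : N) :
    ∃ f : N, Fnl Mem.E f ∧ ∀ x, Mem.E x a → (∃ y, Mem.E y x) →
      ∃ y, Mem.E y x ∧ Rel Mem.E f x y := by
  obtain ⟨β, f, h1, h2⟩ := H (sUn a)
  refine ⟨graph (fun x => app f (lst fun ξ => app f ξ ∈ x)) a, fnl_iff.2 fn_graph,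
    fun x hx ⟨y, hy⟩ => ⟨_, ?_, rel_iff.2 (pair_mem_graph.2 ⟨hx, rfl⟩)⟩⟩
  obtain ⟨ξ, h3, rfl⟩ := h2 y (mem_sUn.2 ⟨x, hx, hy⟩)
  exact (lst_spec (fun ξ => app f ξ ∈ x) (h1.mem h3) hy).2.1

end Pool.Agent.P.MP_f1f2b3_lc
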