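import Pool.Agent.P.MP_f1f2b3_lc.Force
import Pool.Agent.P.MP_f1f2b3_lc.Emb

/-! The generic extension is a model of ZFC. -/

set_option linter.unusedSectionVars false
set_option linter.unusedVariables false

namespace Pool.Agent.P.MP_f1f2b3_lc

universe u w

section

variable {M : Type u} [ZF M]

/-- a set of names as a name -/
noncomputable def fl (c : M) : M := img (fun s => pair s ∅) c

instance t1_fl (s : (ℕ → M) → M) [T1 s] : T1 fun v => fl (s v) := by unfold fl; infer_instance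

/-- canonical names -/
noncomputable def chk (x : M) : M := rc (fun _ g => fl (img snd g)) x

instance t1_chk (s : (ℕ → M) → M) [T1 s] : T1 fun v => chk (s v) := by unfold chk; infer_instance

theorem chk_eq (x : M) : chk x = fl (img chk x) := by
  refine (rc_eq _ x).trans ?_
  congr 1
  refine ext' fun y => ?_
  simp only [mem_img, mem_graph]
  exact ⟨fun ⟨_, ⟨z, h1, e⟩, h2⟩ => ⟨z, h1, by rw [← h2, ← e, snd_pair]; rfl⟩,
    fun ⟨z, h1, h2⟩ => ⟨_, ⟨z, h1, rfl⟩, by rw [snd_pair]; exact h2⟩⟩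

theorem pair_mem_fl {c s q : M} : pair s q ∈ fl c ↔ s ∈ c ∧ q = ∅ := by
  simp only [fl, mem_img, pair_inj]
  exact ⟨fun ⟨x, h1, h2, h3⟩ => ⟨h2 ▸ h1, h3.symm⟩, fun ⟨h1, h2⟩ => ⟨s, h1, rfl, h2.symm⟩⟩

theorem pair_mem_chk {x s q : M} : pair s q ∈ chk x ↔ (∃ y ∈ x, chk y = s) ∧ q = ∅ := by
  rw [chk_eq, pair_mem_fl, mem_img]

theorem isCheck_eq {x τ : M} (h : IsCheck Mem.E ∅ x τ) : τ = chk x := by
  obtain ⟨f, h1, h2⟩ := h
  simp only [rel_iff, isPair_iff, E_iff] at h1 h2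
  refine mem_ind (fun x => ∀ τ, pair x τ ∈ f → τ = chk x) (fun x ih τ h => ?_) x τ h1
  rw [chk_eq]
  refine ext' fun z => ((h2 x τ h).2 z).trans ?_
  simp only [fl, mem_img]
  constructor
  · rintro ⟨a, b, h3, h4, rfl⟩
    exact ⟨b, ⟨a, h3, (ih a h3 b h4).symm⟩, rfl⟩
  · rintro ⟨_, ⟨a, h3, rfl⟩, rfl⟩
    obtain ⟨b, h4⟩ := (h2 x τ h).1 a h3
    exact ⟨a, b, h3, h4, by rw [ih a h3 b h4]⟩

/-- name of an ordered pair -/
noncomputable def op (s t : M) : M := fl (up (fl (up s s)) (fl (up s t)))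

instance t1_op (s t : (ℕ → M) → M) [T1 s] [T1 t] : T1 fun v => op (s v) (t v) := by
  unfold op; infer_instance

end

variable {M : Type u} [Md M] {P : M} [h0 : Fact (∅ ∈ P)] [Countable M] {H : Gen P}

instance FD.exE {S : ∀ H : Gen P, (ℕ → M) → Ext H → Prop}
    [h : FD P fun H v => S H (fun n => v (n + 1)) (val H (v 0))] :
    FD P fun H v => ∃ x, S H v x :=
  (inferInstance : FD P fun H v => ¬ ∀ x, ¬ S H v x).congr fun _ _ => by simp

instance FD.ssV (s t : (ℕ → M) → M) [T1 s] [T1 t] : FD P fun H v => val H (s v) ⊆ val H (t v) :=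
  (inferInstance : FD P fun H v => ∀ x, x ∈ val H (s v) → x ∈ val H (t v))

theorem mem_val_fl {x : Ext H} {c : M} : x ∈ val H (fl c) ↔ ∃ s ∈ c, x = val H s := by
  simp only [mem_val, pair_mem_fl]
  exact ⟨fun ⟨s, _, h1, _, h2⟩ => ⟨s, h1.1, h2⟩,
    fun ⟨s, h1, h2⟩ => ⟨s, _, ⟨h1, rfl⟩, H.nonempty, h2⟩⟩

/-- the name of a definable subset -/
noncomputable def nsep (P a : M) (S : Gen P → M → Prop) : M :=
  sep (prod (img fst a) P) fun z => ∃ q', pair (fst z) q' ∈ a ∧ LE P (snd z) q' ∧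
    Frc P (snd z) fun H => S H (fst z)

theorem mem_val_nsep {a : M} {S : Gen P → M → Prop} [hS : FD P fun H v => S H (v 0)] {x : Ext H} :
    x ∈ val H (nsep P a S) ↔ ∃ s q, pair s q ∈ a ∧ q ∈ H ∧ x = val H s ∧ S H s := by
  have := hS.use
  simp only [mem_val, nsep, mem_sep, fst_pair, snd_pair, pair_mem_prod, mem_img]
  constructor
  · rintro ⟨s, q, ⟨-, q', h1, h2, h3⟩, h4, h5⟩
    exact ⟨s, q', h1, Gen.of_le h4 h2, h5, h3 H h4⟩
  · rintro ⟨s, q, h1, h2, h3, h4⟩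
    obtain ⟨r, a1, a2, a3⟩ := truth' (fun H => S H s) h4 h2
    exact ⟨s, r, ⟨⟨⟨_, h1, fst_pair _ _⟩, a2.1⟩, q, h1, a2, a3⟩, a1, h3⟩

theorem ext_sep (S : ∀ H : Gen P, Ext H → Prop) [hS : FD P fun H v => S H (val H (v 0))] (a : M) :
    ∃ b : Ext H, ∀ x, x ∈ b ↔ x ∈ val H a ∧ S H x :=
  ⟨val H (nsep P a fun H s => S H (val H s)), fun x => by
    rw [mem_val_nsep, mem_val]
    exact ⟨fun ⟨s, q, h1, h2, h3, h4⟩ => ⟨⟨s, q, h1, h2, h3⟩, h3 ▸ h4⟩,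
      fun ⟨⟨s, q, h1, h2, h3⟩, h4⟩ => ⟨s, q, h1, h2, h3, h3 ▸ h4⟩⟩⟩

/-- the embedding of the ground model -/
noncomputable def ι (H : Gen P) (x : M) : Ext H := val H (chk x)

instance FD.memI (s t : (ℕ → M) → M) [T1 s] [T1 t] : FD P fun H v => ι H (s v) ∈ val H (t v) :=
  FD.memV _ _

theorem emb_ι (H : Gen P) : Emb (ι H) := by
  refine ⟨fun {x y} h => ?_, fun {x y} => ?_⟩
  · obtain ⟨p, h1, h2⟩ := val_eq.1 h
    refine mem_ind (fun x => ∀ y p, p ∈ P → FE P p (chk x) (chk y) → x = y)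
      (fun x ih y p hp h => ext' fun z => ⟨fun hz => ?_, fun hz => ?_⟩) x y p (Gen.mem h1) h2
    · obtain ⟨u, t, q, a, b, c, d⟩ := h.unfold.1 _ ∅ p (pair_mem_chk.2 ⟨⟨z, hz, rfl⟩, rfl⟩)
        (LE.rfl hp) ⟨hp, h0.out, empty_ss (a := p)⟩
      obtain ⟨⟨w, e, rfl⟩, -⟩ := pair_mem_chk.1 b
      rwa [ih z hz w u a.1 d]
    · obtain ⟨u, t, q, a, b, c, d⟩ := h.unfold.2 _ ∅ p (pair_mem_chk.2 ⟨⟨z, hz, rfl⟩, rfl⟩)
        (LE.rfl hp) ⟨hp, h0.out, empty_ss (a := p)⟩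
      obtain ⟨⟨w, e, rfl⟩, -⟩ := pair_mem_chk.1 b
      rwa [← ih w e z u a.1 d]
  · rw [ι, chk_eq, mem_val_fl]
    simp only [mem_img]
    exact ⟨fun ⟨_, ⟨z, h1, e⟩, h2⟩ => ⟨z, h1, by rw [h2, ← e]; rfl⟩,
      fun ⟨z, h1, h2⟩ => ⟨_, ⟨z, h1, rfl⟩, h2⟩⟩

theorem fd_sat1 (φ : Fml) (τ : ℕ → M) :
    FD P fun H v => Sat Mem.E φ (cons (val H (v 0)) fun n => val H (τ n)) :=
  ((FD.sat φ).sub (cons (Sum.inl 0) fun n => Sum.inr (τ n))).congr fun H v => iff_of_eq (by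
    congr 1
    funext n
    cases n <;> rfl)

theorem fd_sat2 (φ : Fml) (τ : ℕ → M) :
    FD P fun H v => Sat Mem.E φ (cons (val H (v 0)) (cons (val H (v 1)) fun n => val H (τ n))) :=
  ((FD.sat φ).sub (cons (Sum.inl 0) (cons (Sum.inl 1) fun n => Sum.inr (τ n)))).congr
    fun H v => iff_of_eq (by
      congr 1
      funext n
      rcases n with _ | _ | n <;> rfl)

theorem name_min (C : M → Prop) [hC : D1 fun v => C (v 0)] {s : M} (h : C s) :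
    ∃ s, C s ∧ ∀ s' q, pair s' q ∈ s → ¬ C s' := by
  have := hC.use
  by_contra h1
  push Not at h1
  refine (mem_ind (fun x => ¬ C x ∧ ∀ y ∈ x, ¬ C y ∧ ∀ z ∈ y, ¬ C z) (fun x ih => ?_) s).1 h
  refine ⟨fun hx => ?_, fun y hy => ⟨(ih y hy).1, fun z hz => ((ih y hy).2 z hz).1⟩⟩
  obtain ⟨s', q, h2, h3⟩ := h1 x hx
  exact ((ih _ h2).2 _ (mem_up.2 (Or.inl rfl))).2 s' (mem_up.2 (Or.inl rfl)) h3

theorem ext_isZF (H : Gen P) : IsZF (Mem.E : Ext H → Ext H → Prop) where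
  ext a b h := ext_ext h
  foundation a := by
    obtain ⟨τ, rfl⟩ := val_surj a
    rintro ⟨x, hx⟩
    obtain ⟨s0, rfl⟩ := val_surj x
    obtain ⟨p, h1, h2⟩ := truth (fun H => val H s0 ∈ val H τ) hx
    obtain ⟨q, h3, -, s, h4⟩ := Gen.meet' (fun q => ∃ s, Frc P q fun H => val H s ∈ val H τ ∧
      ∀ y ∈ val H s, y ∉ val H τ) h1 fun r hr => by
        obtain ⟨s, ⟨q, a, b⟩, c⟩ := name_min
          (fun s => ∃ q, LE P q r ∧ Frc P q fun H => val H s ∈ val H τ) (s := s0)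
          ⟨r, LE.rfl hr.1, h2.mono hr.2.1 hr.2.2⟩
        refine ⟨q, a, s, fun H' h4 => ⟨b H' h4, fun y hy h5 => ?_⟩⟩
        obtain ⟨s', q', h6, -, rfl⟩ := mem_val.1 hy
        obtain ⟨u, -, h7, h8⟩ := truth' (fun H => val H s' ∈ val H τ) h5 h4
        exact c s' q' h6 ⟨u, h7.trans a, h8⟩
    exact ⟨_, h4 H h3⟩
  pairing a b := by
    obtain ⟨s, rfl⟩ := val_surj a
    obtain ⟨t, rfl⟩ := val_surj b
    exact ⟨val H (fl (up s t)), fun x => mem_val_fl.trans (by simp)⟩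
  union a := by
    obtain ⟨s, rfl⟩ := val_surj a
    obtain ⟨b, h⟩ := ext_sep (H := H) (fun H x => ∃ y, y ∈ val H s ∧ x ∈ y)
      (fl (bun (img fst) (img fst s)))
    refine ⟨b, fun x => (h x).trans ⟨fun h => h.2, fun ⟨y, h1, h2⟩ => ⟨?_, y, h1, h2⟩⟩⟩
    obtain ⟨t, q, h3, -, rfl⟩ := mem_val.1 h1
    obtain ⟨u, q', h4, -, rfl⟩ := mem_val.1 h2
    exact mem_val_fl.2 ⟨u, mem_bun.2 ⟨t, mem_img.2 ⟨_, h3, fst_pair _ _⟩,
      mem_img.2 ⟨_, h4, fst_pair _ _⟩⟩, rfl⟩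
  power a := by
    obtain ⟨s, rfl⟩ := val_surj a
    obtain ⟨b, h⟩ := ext_sep (H := H) (fun H x => x ⊆ val H s) (fl (pw (prod (img fst s) P)))
    refine ⟨b, fun x => (h x).trans ⟨fun h => h.2, fun h1 => ⟨?_, h1⟩⟩⟩
    obtain ⟨t, rfl⟩ := val_surj x
    refine mem_val_fl.2 ⟨nsep P s fun H u => val H u ∈ val H t, mem_pw.2 sep_ss,
      ext_ext fun z => ?_⟩
    rw [mem_val_nsep]
    refine ⟨fun hz => ?_, fun ⟨_, _, _, _, h2, h3⟩ => h2 ▸ h3⟩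
    obtain ⟨u, q, h2, h3, rfl⟩ := mem_val.1 (h1 z hz)
    exact ⟨u, q, h2, h3, rfl, hz⟩
  infinity := by
    have e := emb_ι H
    refine ⟨ι H om, ⟨ι H ∅, e.mem.2 ⟨_, empty_mem_om, rfl⟩, fun x hx => ?_⟩, fun x hx => ?_⟩
    · obtain ⟨z, h, -⟩ := e.mem.1 hx
      exact not_mem_empty h
    · obtain ⟨n, h, rfl⟩ := e.mem.1 hx
      refine ⟨ι H (sc n), e.mem.2 ⟨_, sc_mem_om h, rfl⟩, fun z => ?_⟩
      simp only [E_iff, e.mem, mem_sc]
      exact ⟨fun ⟨w, h1, h2⟩ => h1.elim (fun h => Or.inl ⟨w, h, h2⟩) fun h => Or.inr (h ▸ h2),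
        fun h => h.elim (fun ⟨w, h1, h2⟩ => ⟨w, Or.inl h1, h2⟩) fun h => ⟨n, Or.inr rfl, h⟩⟩
  separation φ v a := by
    obtain ⟨s, rfl⟩ := val_surj a
    choose τ hτ using fun n => val_surj (v n)
    obtain rfl : (fun n => val H (τ n)) = v := funext hτ
    exact ext_sep (fun H x => Sat Mem.E φ (cons x fun n => val H (τ n))) (hS := fd_sat1 φ τ) s
  replacement φ v a h := by
    obtain ⟨s, rfl⟩ := val_surj a
    choose τ hτ using fun n => val_surj (v n)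
    obtain rfl : (fun n => val H (τ n)) = v := funext hτ
    have := (fd_sat2 (P := P) φ τ).use2 (S := fun H a b =>
      Sat Mem.E φ (cons (val H a) (cons (val H b) fun n => val H (τ n))))
    obtain ⟨c, hc⟩ := collect (fun z t => (∃ t', Frc P (snd z) fun H =>
        Sat Mem.E φ (cons (val H t') (cons (val H (fst z)) fun n => val H (τ n)))) →
      Frc P (snd z) fun H =>
        Sat Mem.E φ (cons (val H t) (cons (val H (fst z)) fun n => val H (τ n))))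
      (prod (img fst s) P) fun z _ => by
        by_cases h : ∃ t', Frc P (snd z) fun H =>
          Sat Mem.E φ (cons (val H t') (cons (val H (fst z)) fun n => val H (τ n)))
        exacts [h.imp fun t h _ => h, ⟨∅, fun h' => (h h').elim⟩]
    obtain ⟨b, hb⟩ := ext_sep (H := H) (fun H y => ∃ x, x ∈ val H s ∧
      Sat Mem.E φ (cons y (cons x fun n => val H (τ n)))) (fl c)
    refine ⟨b, fun y => (hb y).trans ⟨fun h => h.2, fun ⟨x, h1, h2⟩ => ⟨?_, x, h1, h2⟩⟩⟩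
    obtain ⟨u, q, h3, -, rfl⟩ := mem_val.1 h1
    obtain ⟨t, rfl⟩ := val_surj y
    obtain ⟨r, h4, h5⟩ := truth (fun H =>
      Sat Mem.E φ (cons (val H t) (cons (val H u) fun n => val H (τ n)))) h2
    obtain ⟨t', h6, h7⟩ := hc (pair u r) (pair_mem_prod.2
      ⟨mem_img.2 ⟨_, h3, fst_pair _ _⟩, Gen.mem h4⟩)
    simp only [fst_pair, snd_pair] at h7
    exact mem_val_fl.2 ⟨t', h6, (h _ h1).unique h2 (h7 ⟨t, h5⟩ H h4)⟩

noncomputable instance extZF (H : Gen P) : ZF (Ext H) := ⟨ext_isZF H⟩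

theorem val_up (s t : M) : val H (fl (up s t)) = up (val H s) (val H t) :=
  ext' fun x => mem_val_fl.trans (by simp)

theorem val_op (s t : M) : val H (op s t) = pair (val H s) (val H t) := by
  simp only [op, val_up, pair]

theorem ext_numer (x : Ext H) : ∃ β f : Ext H, Od β ∧ ∀ y ∈ x, ∃ ξ ∈ β, app f ξ = y := by
  have e := emb_ι H
  obtain ⟨t, rfl⟩ := val_surj x
  obtain ⟨β, f, h1, h2⟩ := numer (img fst t)
  have key : ∀ a b, pair a b ∈ val H (fl (img (fun ξ => op (chk ξ) (app f ξ)) β)) ↔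
      ∃ ξ ∈ β, a = ι H ξ ∧ b = val H (app f ξ) := fun a b => by
    simp only [mem_val_fl, mem_img]
    exact ⟨fun ⟨_, ⟨ξ, h3, e⟩, h4⟩ => ⟨ξ, h3, by rwa [← e, val_op, pair_inj] at h4⟩,
      fun ⟨ξ, h3, h4, h5⟩ => ⟨_, ⟨ξ, h3, rfl⟩, by rw [val_op, h4, h5]; rfl⟩⟩
  refine ⟨ι H β, val H (fl (img (fun ξ => op (chk ξ) (app f ξ)) β)), e.od_iff.2 h1, fun y hy => ?_⟩
  obtain ⟨s, q, h3, -, rfl⟩ := mem_val.1 hy
  obtain ⟨ξ, h4, h5⟩ := h2 s (mem_img.2 ⟨_, h3, fst_pair _ _⟩)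
  refine ⟨_, e.mem_iff.2 h4, app_eq ((key _ _).2 ⟨ξ, h4, rfl, by rw [h5]⟩) fun z hz => ?_⟩
  obtain ⟨ξ', -, h6, h7⟩ := (key _ _).1 hz
  rw [h7, ← e.inj h6, h5]

noncomputable instance extMd (H : Gen P) : Md (Ext H) := ⟨choice_of_numer ext_numer⟩

end Pool.Agent.P.MP_f1f2b3_lc
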