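import Pool.Agent.P.MP_f1f2b3_lc.Card

/-! Generic filters, generic extensions, and the forcing theorem. -/

set_option linter.unusedSectionVars false
set_option linter.unusedVariables false

namespace Pool.Agent.P.MP_f1f2b3_lc

universe u w

variable {M : Type u} [Md M] {P : M}

/-- the order -/
abbrev LE (P p q : M) : Prop := Le Mem.E P p q

theorem le_def {p q : M} : LE P p q ↔ p ∈ P ∧ q ∈ P ∧ q ⊆ p := Iff.rfl

theorem LE.trans {p q r : M} (h : LE P p q) (h' : LE P q r) : LE P p r :=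
  ⟨h.1, h'.2.1, ss_trans (a := r) h'.2.2 h.2.2⟩

theorem LE.rfl {p : M} (h : p ∈ P) : LE P p p := ⟨h, h, ss_rfl (a := p)⟩

/-- forcing of equality -/
abbrev FE (P p s t : M) : Prop := ForcesEq Mem.E P p s t

/-- the recursive clause -/
def Clause (P : M) (X : M → M → M → Prop) (p s t : M) : Prop :=
  (∀ s' q r, pair s' q ∈ s → LE P r p → LE P r q →
    ∃ u t' q', LE P u r ∧ pair t' q' ∈ t ∧ LE P u q' ∧ X u s' t') ∧
  ∀ t' q r, pair t' q ∈ t → LE P r p → LE P r q →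
    ∃ u s' q', LE P u r ∧ pair s' q' ∈ s ∧ LE P u q' ∧ X u s' t'

theorem rel3_iff {R p s t : M} : Rel3 Mem.E R p s t ↔ pair p (pair s t) ∈ R := by
  simp [Rel3, isPair_iff, rel_iff]

theorem fe_iff {p s t : M} : FE P p s t ↔ ∃ R : M, pair p (pair s t) ∈ R ∧
    ∀ p s t, pair p (pair s t) ∈ R → Clause P (fun u a b => pair u (pair a b) ∈ R) p s t := by
  simp only [FE, ForcesEq, rel3_iff, rel_iff, Clause]

theorem Clause.mono {X Y : M → M → M → Prop} {p s t : M} (h : Clause P X p s t)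
    (H : ∀ u a b q q', u ∈ P → pair a q ∈ s → pair b q' ∈ t → X u a b → Y u a b) :
    Clause P Y p s t :=
  ⟨fun s' q r h1 h2 h3 => let ⟨u, t', q', a, b, c, d⟩ := h.1 s' q r h1 h2 h3
    ⟨u, t', q', a, b, c, H _ _ _ _ _ a.1 h1 b d⟩,
  fun s' q r h1 h2 h3 => let ⟨u, t', q', a, b, c, d⟩ := h.2 s' q r h1 h2 h3
    ⟨u, t', q', a, b, c, H _ _ _ _ _ a.1 b h1 d⟩⟩

theorem Tr.fst_mem {T s a q : M} (hT : Tr T) (hs : s ∈ T) (h : pair a q ∈ s) : a ∈ T :=
  hT (hT (hT hs h) (mem_up.2 (Or.inl rfl))) (mem_up.2 (Or.inl rfl))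

theorem fe_coind (X : M → M → M → Prop) [hX : D1 fun v => X (v 0) (v 1) (v 2)]
    (H : ∀ p s t, X p s t → Clause P X p s t) {p s t : M} (h : X p s t) : FE P p s t := by
  have := hX.use3
  obtain ⟨T, hT, h1⟩ := ex_trans (up s t)
  refine fe_iff.2 ⟨sep (prod (P ∪ up p p) (prod T T)) fun z => X (fst z) (fst (snd z)) (snd (snd z)),
    by simp [h, hT h1 (mem_up.2 (Or.inl rfl)), hT h1 (mem_up.2 (Or.inr rfl))], fun p s t h2 => ?_⟩
  simp only [mem_sep, pair_mem_prod, fst_pair, snd_pair] at h2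
  exact (H p s t h2.2).mono fun u a b q q' hu ha hb hX => by
    simp [hu, hX, hT.fst_mem h2.1.2.1 ha, hT.fst_mem h2.1.2.2 hb]

theorem FE.unfold {p s t : M} (h : FE P p s t) : Clause P (FE P) p s t := by
  obtain ⟨R, h1, h2⟩ := fe_iff.1 h
  exact (h2 p s t h1).mono fun u a b _ _ _ _ _ h3 => fe_iff.2 ⟨R, h3, h2⟩

theorem FE.fold {p s t : M} (h : Clause P (FE P) p s t) : FE P p s t := by
  have : D1 fun v : ℕ → M => Clause P (FE P) (v 0) (v 1) (v 2) := by unfold Clause; infer_instance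
  exact fe_coind (Clause P (FE P)) (fun p s t h => h.mono fun _ _ _ _ _ _ _ _ h => h.unfold) h

theorem FE.mono {p p' s t : M} (h : FE P p s t) (h' : LE P p' p) : FE P p' s t :=
  FE.fold ⟨fun s' q r h1 h2 => h.unfold.1 s' q r h1 (h2.trans h'),
    fun s' q r h1 h2 => h.unfold.2 s' q r h1 (h2.trans h')⟩

theorem FE.dense {p s t : M} (h : ∀ r, LE P r p → ∃ u, LE P u r ∧ FE P u s t) : FE P p s t := by
  refine FE.fold ⟨fun s' q r h1 h2 h3 => ?_, fun s' q r h1 h2 h3 => ?_⟩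
  · obtain ⟨u, h4, h5⟩ := h r h2
    obtain ⟨u', t', q', a, b⟩ := h5.unfold.1 s' q u h1 (LE.rfl h4.1) (h4.trans h3)
    exact ⟨u', t', q', a.trans h4, b⟩
  · obtain ⟨u, h4, h5⟩ := h r h2
    obtain ⟨u', t', q', a, b⟩ := h5.unfold.2 s' q u h1 (LE.rfl h4.1) (h4.trans h3)
    exact ⟨u', t', q', a.trans h4, b⟩

theorem FE.refl (p s : M) : FE P p s s :=
  fe_coind (fun _ s t => s = t) (fun p s t h => h ▸
    ⟨fun s' q r h1 h2 h3 => ⟨r, s', q, LE.rfl h2.1, h1, h3, rfl⟩,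
      fun s' q r h1 h2 h3 => ⟨r, s', q, LE.rfl h2.1, h1, h3, rfl⟩⟩) rfl

theorem FE.symm {p s t : M} (h : FE P p s t) : FE P p t s :=
  fe_coind (fun p s t => FE P p t s) (fun p s t h => ⟨h.unfold.2, h.unfold.1⟩) h

theorem FE.trans {p s m t : M} (h : FE P p s m) (h' : FE P p m t) : FE P p s t := by
  refine fe_coind (fun p s t => ∃ m, FE P p s m ∧ FE P p m t) ?_ ⟨m, h, h'⟩
  rintro p s t ⟨m, h, h'⟩
  refine ⟨fun s' q r h1 h2 h3 => ?_, fun s' q r h1 h2 h3 => ?_⟩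
  · obtain ⟨u, m', q', a, b, c, d⟩ := h.unfold.1 s' q r h1 h2 h3
    obtain ⟨u', t', q'', a', b', c', d'⟩ := h'.unfold.1 m' q' u b (a.trans h2) c
    exact ⟨u', t', q'', a'.trans a, b', c', m', d.mono a', d'⟩
  · obtain ⟨u, m', q', a, b, c, d⟩ := h'.unfold.2 s' q r h1 h2 h3
    obtain ⟨u', t', q'', a', b', c', d'⟩ := h.unfold.2 m' q' u b (a.trans h2) c
    exact ⟨u', t', q'', a'.trans a, b', c', m', d', d.mono a'⟩

/-- generic filters -/
structure Gen (P : M) where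
  /-- membership -/
  m : M → Prop
  sub : ∀ {p}, m p → p ∈ P
  upc : ∀ {p q}, m p → q ∈ P → q ⊆ p → m q
  dir : ∀ {p q}, m p → m q → ∃ r, m r ∧ p ⊆ r ∧ q ⊆ r
  meet : ∀ D : M, (∀ p ∈ P, ∃ q ∈ D, LE P q p) → ∃ q ∈ D, m q

instance : Membership M (Gen P) := ⟨fun H p => H.m p⟩

namespace Gen

variable {H : Gen P}

theorem mem {p : M} (h : p ∈ H) : p ∈ P := H.sub h

theorem up' {p q : M} (h : p ∈ H) (hq : q ∈ P) (h' : q ⊆ p) : q ∈ H := H.upc h hq h'

theorem of_le {p q : M} (h : p ∈ H) (h' : LE P p q) : q ∈ H := H.upc h h'.2.1 h'.2.2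

theorem dir' {p q : M} (h : p ∈ H) (h' : q ∈ H) : ∃ r ∈ H, LE P r p ∧ LE P r q :=
  let ⟨r, a, b, c⟩ := H.dir h h'; ⟨r, a, ⟨H.sub a, H.sub h, b⟩, H.sub a, H.sub h', c⟩

theorem meet_all (H : Gen P) (D : M → Prop) [D1 fun v => D (v 0)]
    (h : ∀ p ∈ P, ∃ q, LE P q p ∧ D q) : ∃ q ∈ H, D q := by
  obtain ⟨q, h1, h2⟩ := H.meet (sep P D) fun p hp =>
    let ⟨q, h1, h2⟩ := h p hp; ⟨q, mem_sep.2 ⟨h1.1, h2⟩, h1⟩
  exact ⟨q, h2, (mem_sep.1 h1).2⟩

theorem meet' (D : M → Prop) [hD : D1 fun v => D (v 0)] {p : M} (hp : p ∈ H)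
    (h : ∀ r, LE P r p → ∃ q, LE P q r ∧ D q) : ∃ q ∈ H, LE P q p ∧ D q := by
  have := hD.use
  obtain ⟨q, h1, h2⟩ := H.meet_all (fun q => (LE P q p ∧ D q) ∨ ¬ ∃ r, LE P r q ∧ LE P r p)
    fun r hr => by
      by_cases h1 : ∃ u, LE P u r ∧ LE P u p
      · obtain ⟨u, h1, h2⟩ := h1
        obtain ⟨q, h3, h4⟩ := h u h2
        exact ⟨q, h3.trans h1, Or.inl ⟨h3.trans h2, h4⟩⟩
      · exact ⟨r, LE.rfl hr, Or.inr h1⟩
  refine ⟨q, h1, h2.resolve_right fun h3 => h3 ?_⟩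
  obtain ⟨r, -, h4⟩ := dir' h1 hp
  exact ⟨r, h4⟩

theorem nonempty [h0 : Fact (∅ ∈ P)] (H : Gen P) : ∅ ∈ H := by
  obtain ⟨q, h1, -⟩ := H.meet_all (fun _ => True) fun p hp => ⟨p, LE.rfl hp, trivial⟩
  exact up' h1 h0.out empty_ss

end Gen

variable [h0 : Fact (∅ ∈ P)]

/-- names with the same value -/
def Gen.setoid (H : Gen P) : Setoid M where
  r s t := ∃ p ∈ H, FE P p s t
  iseqv := ⟨fun s => ⟨∅, H.nonempty, FE.refl _ _⟩, fun ⟨p, h1, h2⟩ => ⟨p, h1, h2.symm⟩,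
    fun ⟨p, h1, h2⟩ ⟨q, h3, h4⟩ => let ⟨r, a, b, c⟩ := Gen.dir' h1 h3
      ⟨r, a, (h2.mono b).trans (h4.mono c)⟩⟩

/-- the generic extension -/
def Ext (H : Gen P) : Type u := Quotient H.setoid

/-- the value of a name -/
def val (H : Gen P) (s : M) : Ext H := Quotient.mk H.setoid s

instance extMem (H : Gen P) : Mem (Ext H) :=
  ⟨fun x y => ∃ t s q, y = val H t ∧ pair s q ∈ t ∧ q ∈ H ∧ x = val H s⟩

variable {H : Gen P}

theorem val_eq {s t : M} : val H s = val H t ↔ ∃ p ∈ H, FE P p s t := Quotient.eq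

theorem val_surj (x : Ext H) : ∃ s, val H s = x := Quotient.exists_rep x

theorem mem_val {x : Ext H} {t : M} : x ∈ val H t ↔ ∃ s q, pair s q ∈ t ∧ q ∈ H ∧ x = val H s := by
  refine ⟨?_, fun ⟨s, q, h⟩ => ⟨t, s, q, rfl, h⟩⟩
  rintro ⟨t0, s, q, h1, h2, h3, rfl⟩
  obtain ⟨p, h4, h5⟩ := val_eq.1 h1
  obtain ⟨r, a, b, c⟩ := Gen.dir' h4 h3
  obtain ⟨u, h6, -, t', q', h7, h8, h9⟩ := Gen.meet'
    (fun u => ∃ t' q', pair t' q' ∈ t ∧ LE P u q' ∧ FE P u t' s) a fun r' hr' =>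
      h5.unfold.2 s q r' h2 (hr'.trans b) (hr'.trans c) |>.imp fun u ⟨t', q', h⟩ =>
        ⟨h.1, t', q', h.2⟩
  exact ⟨t', q', h7, Gen.of_le h6 h8, val_eq.2 ⟨u, h6, h9.symm⟩⟩

theorem ext_ext {x y : Ext H} (h : ∀ z, z ∈ x ↔ z ∈ y) : x = y := by
  obtain ⟨s, rfl⟩ := val_surj x
  obtain ⟨t, rfl⟩ := val_surj y
  obtain ⟨p, h1, h2⟩ := H.meet_all (fun p => FE P p s t ∨
    (∃ s' q, pair s' q ∈ s ∧ LE P p q ∧
      ∀ u t' q', LE P u p → pair t' q' ∈ t → LE P u q' → ¬ FE P u s' t') ∨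
    ∃ t' q, pair t' q ∈ t ∧ LE P p q ∧
      ∀ u s' q', LE P u p → pair s' q' ∈ s → LE P u q' → ¬ FE P u s' t') fun p hp => by
    by_cases h1 : FE P p s t
    · exact ⟨p, LE.rfl hp, Or.inl h1⟩
    · have h2 : ¬ Clause P (FE P) p s t := fun h => h1 (FE.fold h)
      simp only [Clause, not_and_or, not_forall, not_exists] at h2
      rcases h2 with ⟨s', q, r, a, b, c, d⟩ | ⟨s', q, r, a, b, c, d⟩
      · exact ⟨r, b, Or.inr (Or.inl ⟨s', q, a, c, fun u t' q' => by have := d u t' q'; tauto⟩)⟩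
      · exact ⟨r, b, Or.inr (Or.inr ⟨s', q, a, c, fun u t' q' => by have := d u t' q'; tauto⟩)⟩
  rcases h2 with h2 | ⟨s', q, a, b, c⟩ | ⟨s', q, a, b, c⟩
  · exact val_eq.2 ⟨p, h1, h2⟩
  · obtain ⟨t', q', d, e, f⟩ := mem_val.1 ((h _).1 (mem_val.2 ⟨s', q, a, Gen.of_le h1 b, rfl⟩))
    obtain ⟨r, h3, h4⟩ := val_eq.1 f
    obtain ⟨r1, a1, b1, c1⟩ := Gen.dir' h1 e
    obtain ⟨r2, a2, b2, c2⟩ := Gen.dir' a1 h3
    exact (c r2 t' q' (b2.trans b1) d (b2.trans c1) (h4.mono c2)).elim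
  · obtain ⟨t', q', d, e, f⟩ := mem_val.1 ((h _).2 (mem_val.2 ⟨s', q, a, Gen.of_le h1 b, rfl⟩))
    obtain ⟨r, h3, h4⟩ := val_eq.1 f
    obtain ⟨r1, a1, b1, c1⟩ := Gen.dir' h1 e
    obtain ⟨r2, a2, b2, c2⟩ := Gen.dir' a1 h3
    exact (c r2 t' q' (b2.trans b1) d (b2.trans c1) (h4.mono c2).symm).elim

variable [Countable M]

theorem gen_of_step (Inv : M → Prop) {p : M} (hp : p ∈ P) (h : Inv p)
    (step : ∀ r ∈ P, Inv r → ∀ D : M, (∀ p ∈ P, ∃ q ∈ D, LE P q p) →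
      ∃ r' ∈ D, LE P r' r ∧ Inv r') :
    ∃ H : Gen P, p ∈ H ∧ ∀ q ∈ H, ∃ r ∈ H, q ⊆ r ∧ Inv r := by
  obtain ⟨e, he⟩ := exists_surjective_nat M
  have key : ∀ (n : ℕ) (r : {r // r ∈ P ∧ Inv r}), ∃ r' : {r // r ∈ P ∧ Inv r},
      r.1 ⊆ r'.1 ∧ ((∀ p ∈ P, ∃ q ∈ e n, LE P q p) → r'.1 ∈ e n) := fun n r => by
    by_cases h1 : ∀ p ∈ P, ∃ q ∈ e n, LE P q p
    · obtain ⟨r', a, b, c⟩ := step r.1 r.2.1 r.2.2 _ h1
      exact ⟨⟨r', b.1, c⟩, b.2.2, fun _ => a⟩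
    · exact ⟨r, ss_rfl, fun h => (h1 h).elim⟩
  choose F h1 h2 using key
  let s : ℕ → {r // r ∈ P ∧ Inv r} := fun n => Nat.rec ⟨p, hp, h⟩ F n
  have mono : ∀ m n, m ≤ n → (s m).1 ⊆ (s n).1 := fun m n h => by
    induction h with
    | refl => exact ss_rfl
    | step _ ih => exact ss_trans ih (h1 _ _)
  refine ⟨⟨fun q => q ∈ P ∧ ∃ n, q ⊆ (s n).1, fun h => h.1,
    fun ⟨_, n, h⟩ hq h' => ⟨hq, n, ss_trans h' h⟩, fun ⟨_, n, h⟩ ⟨_, m, h'⟩ =>
      ⟨(s (max n m)).1, ⟨(s _).2.1, _, ss_rfl⟩, ss_trans h (mono _ _ (le_max_left _ _)),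
        ss_trans h' (mono _ _ (le_max_right _ _))⟩, fun D hD => ?_⟩, ⟨hp, 0, ss_rfl⟩,
    fun q ⟨_, n, h⟩ => ⟨(s n).1, ⟨(s n).2.1, n, ss_rfl⟩, h, (s n).2.2⟩⟩
  obtain ⟨n, rfl⟩ := he D
  exact ⟨(s (n + 1)).1, h2 n _ hD, (s (n + 1)).2.1, n + 1, ss_rfl⟩

theorem ex_gen {p : M} (hp : p ∈ P) : ∃ H : Gen P, p ∈ H :=
  let ⟨H, h, _⟩ := gen_of_step (fun _ => True) hp trivial fun r hr _ D hD =>
    let ⟨q, h1, h2⟩ := hD r hr; ⟨q, h1, h2, trivial⟩
  ⟨H, h⟩

/-- external forcing -/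
def Frc (P q : M) (S : Gen P → Prop) : Prop := ∀ H : Gen P, q ∈ H → S H

theorem Frc.mono {q r : M} {S : Gen P → Prop} (h : Frc P q S) (hq : q ∈ P) (h' : q ⊆ r) :
    Frc P r S := fun H hr => h H (Gen.up' hr hq h')

/-- statements about generic filters for which forcing is definable and truth is forced -/
class FD (P : M) (S : Gen P → (ℕ → M) → Prop) : Prop where
  df : D1 fun v => Frc P (v 0) fun H => S H fun n => v (n + 1)
  tr : ∀ H v, S H v → ∃ q ∈ H, Frc P q fun H => S H v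

namespace FD

theorem congr {S T : Gen P → (ℕ → M) → Prop} (h : FD P S) (e : ∀ H v, T H v ↔ S H v) : FD P T := by
  have : T = S := funext fun H => funext fun v => propext (e H v)
  rwa [this]

theorem sub {S : Gen P → (ℕ → M) → Prop} (h : FD P S) (σ : ℕ → ℕ ⊕ M) :
    FD P fun H v => S H fun n => Sum.elim v id (σ n) := by
  refine ⟨(h.df.sub (cons (Sum.inl 0) fun n => Sum.elim (fun k => Sum.inl (k + 1))
    (fun c => Sum.inr ⟨fun _ => c, trivial⟩) (σ n))).congr fun _ v => iff_of_eq ?_,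
    fun H v => h.tr H _⟩
  congr
  funext H
  congr
  funext n
  rcases e : σ n with k | c <;> simp [e]

theorem ren {S : Gen P → (ℕ → M) → Prop} (h : FD P S) (ρ : ℕ → ℕ) :
    FD P fun H v => S H fun n => v (ρ n) := h.sub fun n => Sum.inl (ρ n)

instance (priority := high) d1 {Q : (ℕ → M) → Prop} [h : D1 Q] : FD P fun _ v => Q v :=
  ⟨(inferInstance : D1 fun v => v 0 ∈ P → Q fun n => v (n + 1)).congr fun _ v =>
    ⟨fun h hp => let ⟨H, h1⟩ := ex_gen hp; h H h1, fun h H h1 => h (Gen.mem h1)⟩,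
    fun H v h => ⟨∅, H.nonempty, fun _ _ => h⟩⟩

instance memG (t : (ℕ → M) → M) [T1 t] : FD P fun H v => t v ∈ H := by
  refine ⟨(inferInstance : D1 fun v => ∀ r, LE P r (v 0) →
    ∃ u, LE P u r ∧ LE P u (t fun n => v (n + 1))).congr fun _ v => ⟨fun h r hr => ?_,
      fun h H h1 => ?_⟩, fun H v h => ⟨_, h, fun _ h => h⟩⟩
  · obtain ⟨H, h1⟩ := ex_gen hr.1
    obtain ⟨u, -, h2⟩ := Gen.dir' h1 (h H (Gen.of_le h1 hr))
    exact ⟨u, h2⟩
  · obtain ⟨u, h2, -, h3⟩ := Gen.meet' (fun u => LE P u (t fun n => v (n + 1))) h1 h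
    exact Gen.of_le h2 h3

theorem frc_eq {p s t : M} (hp : p ∈ P) : Frc P p (fun H => val H s = val H t) ↔ FE P p s t := by
  refine ⟨fun h => FE.dense fun r hr => ?_, fun h H h1 => val_eq.2 ⟨p, h1, h⟩⟩
  obtain ⟨H, h1⟩ := ex_gen hr.1
  obtain ⟨q, h2, h3⟩ := val_eq.1 (h H (Gen.of_le h1 hr))
  obtain ⟨u, -, h4, h5⟩ := Gen.dir' h1 h2
  exact ⟨u, h4, h3.mono h5⟩

instance eqV (s t : (ℕ → M) → M) [T1 s] [T1 t] : FD P fun H v => val H (s v) = val H (t v) :=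
  ⟨(inferInstance : D1 fun v => v 0 ∈ P →
    FE P (v 0) (s fun n => v (n + 1)) (t fun n => v (n + 1))).congr fun _ v =>
      ⟨fun h hp => (frc_eq hp).1 h, fun h H h1 => (frc_eq (Gen.mem h1)).2 (h (Gen.mem h1)) H h1⟩,
    fun H v h => let ⟨p, h1, h2⟩ := val_eq.1 h; ⟨p, h1, (frc_eq (Gen.mem h1)).2 h2⟩⟩

end FD

instance d1_frc {S : Gen P → (ℕ → M) → Prop} [h : FD P S] (q : (ℕ → M) → M) [T1 q] :
    D1 fun v => Frc P (q v) fun H => S H v :=
  Df.sub1 (fun _ => q) (P := fun _ v x => Frc P x fun H => S H v) h.df id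

theorem truth (S : Gen P → Prop) [h : FD P fun H _ => S H] {H : Gen P} (hS : S H) :
    ∃ q ∈ H, Frc P q S := h.tr H (fun _ => ∅) hS

theorem truth' (S : Gen P → Prop) [h : FD P fun H _ => S H] {H : Gen P} (hS : S H) {p : M}
    (hp : p ∈ H) : ∃ q ∈ H, LE P q p ∧ Frc P q S := by
  obtain ⟨q, h1, h2⟩ := truth S hS
  obtain ⟨r, a, b, c⟩ := Gen.dir' hp h1
  exact ⟨r, a, b, h2.mono c.2.1 c.2.2⟩

theorem frc_imp {S T : Gen P → Prop} [FD P fun H _ => S H] {p : M} :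
    Frc P p (fun H => S H → T H) ↔ ∀ r, LE P r p → Frc P r S → Frc P r T := by
  refine ⟨fun h r hr h1 H h2 => h H (Gen.of_le h2 hr) (h1 H h2), fun h H h1 h2 => ?_⟩
  obtain ⟨q, a, b, c⟩ := truth' S h2 h1
  exact h q b c H a

theorem not_frc {S : Gen P → Prop} [FD P fun H _ => S H] {p : M}
    (h : ¬ Frc P p fun H => ¬ S H) : ∃ r, LE P r p ∧ Frc P r S := by
  by_contra h1
  exact h (frc_imp.2 fun r hr h2 => (h1 ⟨r, hr, h2⟩).elim)

namespace FD

variable {S T : Gen P → (ℕ → M) → Prop}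

theorem fix (h : FD P S) (v : ℕ → M) : FD P fun H _ => S H v := h.sub fun n => Sum.inr (v n)

instance imp [h1 : FD P S] [h2 : FD P T] : FD P fun H v => S H v → T H v := by
  have a1 := h1.ren
  have a2 := h2.ren
  refine ⟨(inferInstance : D1 fun v => ∀ r, LE P r (v 0) → Frc P r (fun H => S H fun n => v (n + 1))
    → Frc P r fun H => T H fun n => v (n + 1)).congr fun _ v => ?_, fun H v h => ?_⟩
  · have := h1.fix fun n => v (n + 1)
    exact frc_imp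
  · by_cases hT : T H v
    · obtain ⟨q, a, b⟩ := h2.tr H v hT
      exact ⟨q, a, fun H' h3 _ => b H' h3⟩
    · have := h1.fix v
      obtain ⟨q, a, b⟩ := H.meet_all (fun q => Frc P q (fun H => S H v) ∨
        ∀ r, LE P r q → ¬ Frc P r fun H => S H v) fun p hp => by
          by_cases h3 : ∃ r, LE P r p ∧ Frc P r fun H => S H v
          · obtain ⟨r, a, b⟩ := h3
            exact ⟨r, a, Or.inl b⟩
          · exact ⟨p, LE.rfl hp, Or.inr fun r a b => h3 ⟨r, a, b⟩⟩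
      refine ⟨q, a, frc_imp.2 fun r hr h4 => ?_⟩
      exact ((b.resolve_left fun h5 => hT (h (h5 H a))) r hr h4).elim

instance not [FD P S] : FD P fun H v => ¬ S H v := imp (T := fun _ _ => False)

instance all {S : Gen P → (ℕ → M) → M → Prop}
    [h : FD P fun H v => S H (fun n => v (n + 1)) (v 0)] : FD P fun H v => ∀ x, S H v x := by
  have a1 : FD P fun H v => S H (fun n => v (n + 1 + 1)) (v 0) := h.ren (cons 0 fun n => n + 2)
  have a0 : D1 fun v => Frc P (v 0) fun H => ∀ x, S H (fun n => v (n + 1)) x :=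
    (inferInstance : D1 fun v => ∀ x, Frc P (v 0) fun H => S H (fun n => v (n + 1)) x).congr
      fun _ v => ⟨fun h x H h1 => h H h1 x, fun h H h1 x => h x H h1⟩
  refine ⟨a0, fun H v hS => ?_⟩
  have a2 : FD P fun H w => S H v (w 0) := h.sub (cons (Sum.inl 0) fun n => Sum.inr (v n))
  have a3 : D1 fun w => Frc P (w 0) fun H => ∀ x, S H v x :=
    a0.sub (cons (Sum.inl 0) fun n => Sum.inr ⟨fun _ => v n, trivial⟩)
  obtain ⟨q, a, b⟩ := H.meet_all (fun q => Frc P q (fun H => ∀ x, S H v x) ∨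
    ∃ x, Frc P q fun H => ¬ S H v x) fun p hp => by
      by_cases h3 : Frc P p fun H => ∀ x, S H v x
      · exact ⟨p, LE.rfl hp, Or.inl h3⟩
      · simp only [Frc, not_forall] at h3
        obtain ⟨H', h4, x, h5⟩ := h3
        have : FD P fun H _ => S H v x := a2.sub fun _ => Sum.inr x
        obtain ⟨r, -, a, b⟩ := truth' (fun H => ¬ S H v x) h5 h4
        exact ⟨r, a, Or.inr ⟨x, b⟩⟩
  exact ⟨q, a, b.resolve_right fun ⟨x, h⟩ => h H a (hS x)⟩

instance and [FD P S] [FD P T] : FD P fun H v => S H v ∧ T H v :=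
  (inferInstance : FD P fun H v => ¬ (S H v → ¬ T H v)).congr fun _ _ => by tauto

instance or [FD P S] [FD P T] : FD P fun H v => S H v ∨ T H v :=
  (inferInstance : FD P fun H v => ¬ S H v → T H v).congr fun _ _ => by tauto

instance iff [FD P S] [FD P T] : FD P fun H v => S H v ↔ T H v :=
  (inferInstance : FD P fun H v => (S H v → T H v) ∧ (T H v → S H v)).congr fun _ _ => iff_def

instance ex {S : Gen P → (ℕ → M) → M → Prop}
    [h : FD P fun H v => S H (fun n => v (n + 1)) (v 0)] : FD P fun H v => ∃ x, S H v x :=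
  (inferInstance : FD P fun H v => ¬ ∀ x, ¬ S H v x).congr fun _ _ => by simp

instance allE {S : ∀ H : Gen P, (ℕ → M) → Ext H → Prop}
    [h : FD P fun H v => S H (fun n => v (n + 1)) (val H (v 0))] :
    FD P fun H v => ∀ x, S H v x :=
  (inferInstance : FD P fun H v => ∀ t, S H v (val H t)).congr fun H v =>
    ⟨fun h t => h _, fun h x => let ⟨t, e⟩ := val_surj x; e ▸ h t⟩

instance memV (s t : (ℕ → M) → M) [T1 s] [T1 t] : FD P fun H v => val H (s v) ∈ val H (t v) :=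
  (inferInstance : FD P fun H v => ∃ s' q, pair s' q ∈ t v ∧ q ∈ H ∧
    val H (s v) = val H s').congr fun _ _ => mem_val

theorem use {S : Gen P → M → Prop} (h : FD P fun H v => S H (v 0)) (s : (ℕ → M) → M) [T1 s] :
    FD P fun H v => S H (s v) :=
  (inferInstance : FD P fun H v => ∀ a, a = s v → S H a).congr fun _ _ => by simp

theorem use2 {S : Gen P → M → M → Prop} (h : FD P fun H v => S H (v 0) (v 1))
    (s t : (ℕ → M) → M) [T1 s] [T1 t] : FD P fun H v => S H (s v) (t v) := by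
  have : FD P fun H v => S H (v 1) (v 0) := h.ren (cons 1 fun _ => 0)
  exact (inferInstance : FD P fun H v => ∀ a b, a = s v → b = t v → S H a b).congr
    fun _ _ => by simp

theorem sat (φ : Fml) : FD P fun H v => Sat Mem.E φ fun n => val H (v n) := by
  induction φ with
  | mem i j => exact memV (fun v => v i) fun v => v j
  | eq i j => exact eqV (fun v => v i) fun v => v j
  | bot => exact d1 (Q := fun _ => False)
  | imp φ ψ h1 h2 => exact imp (h1 := h1) (h2 := h2)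
  | all φ h =>
    refine allE (S := fun H v x => Sat Mem.E φ (cons x fun n => val H (v n)))
      (h := h.congr fun H v => iff_of_eq ?_)
    congr 1
    funext n
    cases n <;> rfl

end FD

theorem forces_iff (φ : Fml) : ∀ (p : M) (v : ℕ → M), p ∈ P →
    (Forces Mem.E P φ p v ↔ Frc P p fun H => Sat Mem.E φ fun n => val H (v n)) := by
  induction φ with
  | mem i j =>
    intro p v hp
    refine ⟨fun h H h1 => ?_, fun h r hr => ?_⟩
    · obtain ⟨u, a, -, t', q, b, c, d⟩ := Gen.meet'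
        (fun u => ∃ t' q, Rel Mem.E (v j) t' q ∧ LE P u q ∧ FE P u (v i) t') h1 fun r hr =>
          (h r hr).imp fun u ⟨t', q, h⟩ => ⟨h.1, t', q, h.2⟩
      exact mem_val.2 ⟨t', q, rel_iff.1 b, Gen.of_le a c, val_eq.2 ⟨u, a, d⟩⟩
    · obtain ⟨H, h1⟩ := ex_gen hr.1
      obtain ⟨t', q, a, b, c⟩ := mem_val.1 (h H (Gen.of_le h1 hr))
      obtain ⟨u, d, e⟩ := val_eq.1 c
      obtain ⟨r1, a1, b1, c1⟩ := Gen.dir' h1 b
      obtain ⟨r2, a2, b2, c2⟩ := Gen.dir' a1 d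
      exact ⟨r2, t', q, b2.trans b1, rel_iff.2 a, b2.trans c1, e.mono c2⟩
  | eq i j => exact fun p v hp => (FD.frc_eq hp).symm
  | bot => exact fun p v hp => ⟨False.elim, fun h => let ⟨H, h1⟩ := ex_gen hp; h H h1⟩
  | imp φ ψ h1 h2 =>
    intro p v hp
    have := (FD.sat (P := P) φ).fix v
    exact Iff.trans (forall₂_congr fun q hq => imp_congr (h1 q v hq.1) (h2 q v hq.1)) frc_imp.symm
  | all φ h =>
    intro p v hp
    have e : ∀ (H : Gen P) t, (fun n => val H (cons t v n)) = cons (val H t) fun n => val H (v n) :=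
      fun H t => by funext n; cases n <;> rfl
    refine (forall_congr' fun t => h p (cons t v) hp).trans
      ⟨fun h H h1 x => ?_, fun h t H h1 => by beta_reduce; rw [e]; exact h H h1 _⟩
    obtain ⟨t, rfl⟩ := val_surj x
    exact e H t ▸ h t H h1

end Pool.Agent.P.MP_f1f2b3_lc
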