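import Pool.Agent.P.MP_f1f2b3_lc.Ext

/-! The Levy collapse. -/

set_option linter.unusedSectionVars false
set_option linter.unusedVariables false

namespace Pool.Agent.P.MP_f1f2b3_lc

universe u w

section

variable {M : Type u} [ZF M]

/-- the level of an atom `((α, ξ), η)` -/
noncomputable def lv (a : M) : M := fst (fst a)

/-- atoms -/
noncomputable def At (θ : M) : M := sep (prod (prod θ w1) θ) fun a => snd a ∈ lv a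

/-- the Levy collapse -/
noncomputable def Lev (θ : M) : M := sep (cs (At θ)) Fn

/-- the part below `β` -/
noncomputable def cut (p β : M) : M := sep p fun a => lv a ∈ β

/-- all coordinates are below `γ` -/
def Lv (p γ : M) : Prop := ∀ a ∈ p, lv a ∈ γ

/-- sequences of conditions -/
noncomputable def SS (θ : M) : M := sep (cs (prod om (At θ))) fun s => ∀ l ∈ (om : M), Fn (sl s l)

/-- the part below `β` -/
noncomputable def cut' (s β : M) : M := sep s fun z => lv (snd z) ∈ β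

/-- all coordinates are below `γ` -/
def Lv' (s γ : M) : Prop := ∀ z ∈ s, lv (snd z) ∈ γ

end

section Fam

variable {I : Type w} {A : I → Type u} [∀ i, ZF (A i)] {K : (∀ i, A i) → Prop}
variable (s t : ∀ i, (ℕ → A i) → A i) [hs : Tm K s] [ht : Tm K t]

instance tm_lv : Tm K (fun i v => lv (s i v)) := by unfold lv; infer_instance
instance tm_At : Tm K (fun i v => At (s i v)) := by unfold At; infer_instance
instance tm_Lev : Tm K (fun i v => Lev (s i v)) := by unfold Lev; infer_instance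
instance tm_cut : Tm K (fun i v => cut (s i v) (t i v)) := by unfold cut; infer_instance
instance df_Lv : Df K (fun i v => Lv (s i v) (t i v)) := by unfold Lv; infer_instance
instance tm_SS : Tm K (fun i v => SS (s i v)) := by unfold SS; infer_instance
instance tm_cut' : Tm K (fun i v => cut' (s i v) (t i v)) := by unfold cut'; infer_instance
instance df_Lv' : Df K (fun i v => Lv' (s i v) (t i v)) := by unfold Lv'; infer_instance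

end Fam

section

variable {M : Type u} [ZF M] {θ : M}

@[simp] theorem lv_pair (a b c : M) : lv (pair (pair a b) c) = a := by simp [lv]

theorem mem_At {a : M} : a ∈ At θ ↔ ∃ α ∈ θ, ∃ ξ ∈ (w1 : M), ∃ η ∈ θ, η ∈ α ∧
    a = pair (pair α ξ) η := by
  simp only [At, mem_sep, mem_prod]
  constructor
  · rintro ⟨⟨_, ⟨α, h1, ξ, h2, rfl⟩, η, h3, rfl⟩, h4⟩
    exact ⟨α, h1, ξ, h2, η, h3, by simpa using h4, rfl⟩
  · rintro ⟨α, h1, ξ, h2, η, h3, h4, rfl⟩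
    exact ⟨⟨_, ⟨α, h1, ξ, h2, rfl⟩, η, h3, rfl⟩, by simpa using h4⟩

theorem lv_mem {a : M} (h : a ∈ At θ) : lv a ∈ θ := by
  obtain ⟨α, h1, ξ, -, η, -, -, rfl⟩ := mem_At.1 h
  simpa

theorem mem_Lev {p : M} : p ∈ Lev θ ↔ p ⊆ At θ ∧ Ct p ∧ Fn p := by simp [Lev, and_assoc]

theorem lev_ss {p q : M} (h : p ∈ Lev θ) (h' : q ⊆ p) : q ∈ Lev θ := by
  rw [mem_Lev] at h ⊢
  exact ⟨ss_trans h' h.1, h.2.1.mono h', h.2.2.mono h'⟩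

instance fact_lev (θ : M) : Fact (∅ ∈ Lev θ) :=
  ⟨mem_Lev.2 ⟨empty_ss, ct_empty, fun _ _ _ h => (not_mem_empty h).elim⟩⟩

@[simp] theorem mem_cut {p β a : M} : a ∈ cut p β ↔ a ∈ p ∧ lv a ∈ β := mem_sep

@[simp] theorem mem_cut' {s β z : M} : z ∈ cut' s β ↔ z ∈ s ∧ lv (snd z) ∈ β := mem_sep

theorem cut_ss {p β : M} : cut p β ⊆ p := sep_ss

theorem cut'_ss {p β : M} : cut' p β ⊆ p := sep_ss

theorem lv_cut {p β : M} : Lv (cut p β) β := fun _ h => (mem_cut.1 h).2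

theorem lv_cut' {p β : M} : Lv' (cut' p β) β := fun _ h => (mem_cut'.1 h).2

theorem ss_cut {p q β : M} (h : q ⊆ p) (h' : Lv q β) : q ⊆ cut p β :=
  fun a ha => mem_cut.2 ⟨h ha, h' a ha⟩

theorem ss_cut' {p q β : M} (h : q ⊆ p) (h' : Lv' q β) : q ⊆ cut' p β :=
  fun a ha => mem_cut'.2 ⟨h ha, h' a ha⟩

theorem cut_mono {p q β : M} (h : q ⊆ p) : cut q β ⊆ cut p β := ss_cut (ss_trans cut_ss h) lv_cut

theorem Lv.mono {p β γ : M} (h : Lv p β) (h' : β ⊆ γ) : Lv p γ := fun a ha => h' (h a ha)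

theorem Lv'.mono {p β γ : M} (h : Lv' p β) (h' : β ⊆ γ) : Lv' p γ := fun a ha => h' (h a ha)

theorem sl_cut' (s β l : M) : sl (cut' s β) l = cut (sl s l) β := ext' fun a => by simp

theorem fn_union {p q : M} (hp : Fn p) (hq : Fn q)
    (h : ∀ k y z, pair k y ∈ p → pair k z ∈ q → y = z) : Fn (p ∪ q) := by
  intro a b c h1 h2
  rcases mem_union.1 h1 with h1 | h1 <;> rcases mem_union.1 h2 with h2 | h2
  exacts [hp h1 h2, h _ _ _ h1 h2, (h _ _ _ h2 h1).symm, hq h1 h2]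

theorem lv_eq (k y z : M) : lv (pair k y) = lv (pair k z) := by simp [lv]

theorem mem_SS {s : M} : s ∈ SS θ ↔ s ⊆ prod om (At θ) ∧ Ct s ∧ ∀ l, Fn (sl s l) := by
  simp only [SS, mem_sep, mem_cs, and_assoc]
  refine and_congr_right fun h => and_congr_right fun _ => ⟨fun h1 l a b c h2 => ?_, fun h l _ => h l⟩
  exact h1 l (pair_mem_prod.1 (h (mem_sl.1 h2))).1 h2

theorem ss_ss {s t : M} (h : s ∈ SS θ) (h' : t ⊆ s) : t ∈ SS θ := by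
  rw [mem_SS] at h ⊢
  exact ⟨ss_trans h' h.1, h.2.1.mono h', fun l => (h.2.2 l).mono (sl_mono h' l)⟩

theorem sl_mem {s : M} (h : s ∈ SS θ) (l : M) : sl s l ∈ Lev θ := by
  rw [mem_SS] at h
  exact mem_Lev.2 ⟨fun a ha => (pair_mem_prod.1 (h.1 (mem_sl.1 ha))).2,
    (h.2.1.img snd).mono fun a ha => mem_img.2 ⟨_, mem_sl.1 ha, snd_pair _ _⟩, h.2.2 l⟩

theorem chain_mono {f : M} (h : ∀ n ∈ (om : M), app f n ⊆ app f (sc n)) {m : M} :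
    ∀ n ∈ (om : M), m ⊆ n → m ∈ (om : M) → app f m ⊆ app f n := by
  refine om_ind _ (fun h1 _ => by rw [ss_antisymm h1 empty_ss]; exact ss_rfl) fun n hn ih h1 h2 => ?_
  rcases (od_om.mem h2).mem_or_eq (od_om.mem hn).succ h1 with h3 | rfl
  · exact ss_trans (ih ((mem_sc.1 h3).elim (fun h4 => (od_om.mem hn).tr h4) fun e => e ▸ ss_rfl) h2)
      (h n hn)
  · exact ss_rfl

theorem chain_two {f : M} (h : ∀ n ∈ (om : M), app f n ⊆ app f (sc n)) {a b : M}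
    (ha : a ∈ bun (app f) om) (hb : b ∈ bun (app f) om) :
    ∃ n ∈ (om : M), a ∈ app f n ∧ b ∈ app f n := by
  obtain ⟨m, h1, h2⟩ := mem_bun.1 ha
  obtain ⟨n, h3, h4⟩ := mem_bun.1 hb
  have := od_om.union_mem h1 h3
  exact ⟨_, this, chain_mono h _ this ss_union_l h1 h2, chain_mono h _ this ss_union_r h3 h4⟩

end

section

variable {M : Type u} [Md M] {θ : M}

theorem isLevy_eq {P : M} (h : Ina θ) (hP : IsLevy Mem.E θ P) : P = Lev θ := by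
  refine ext' fun p => (hP p).trans ?_
  simp only [fnl_iff, isOmega1_iff, ctbl_iff, isPair_iff, E_iff, mem_Lev]
  constructor
  · rintro ⟨h1, w, d, h2, h3, h4⟩
    refine ⟨fun z hz => ?_, h3.cv (cv_of (fun k => pair k (app p k)) fun z hz => ?_), h1⟩
    · obtain ⟨_, α, ξ, η, rfl, rfl, -, a, b, c⟩ := h4 z hz
      exact mem_At.2 ⟨α, a, ξ, h2.eq ▸ b, η, h.od.trans c a, c, rfl⟩
    · obtain ⟨k, α, ξ, η, rfl, -, a, -⟩ := h4 z hz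
      exact ⟨k, a, by rw [h1.app_eq hz]⟩
  · rintro ⟨h1, h2, h3⟩
    refine ⟨h3, w1, img fst p, h.om1.1, h2.img fst, fun z hz => ?_⟩
    obtain ⟨α, a, ξ, b, η, -, c, rfl⟩ := mem_At.1 (h1 hz)
    exact ⟨_, α, ξ, η, rfl, rfl, mem_img.2 ⟨_, hz, fst_pair _ _⟩, a, b, c⟩

theorem union_lev {p q : M} (hp : p ∈ Lev θ) (hq : q ∈ Lev θ)
    (h : ∀ k y z, pair k y ∈ p → pair k z ∈ q → y = z) : p ∪ q ∈ Lev θ := by
  rw [mem_Lev] at hp hq ⊢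
  exact ⟨union_ss hp.1 hq.1, hp.2.1.union hq.2.1, fn_union hp.2.2 hq.2.2 h⟩

theorem amalg {p q α : M} (hp : p ∈ Lev θ) (hq : q ∈ Lev θ) (h : cut p α ⊆ q) :
    p ∪ cut q α ∈ Lev θ :=
  union_lev hp (lev_ss hq cut_ss) fun k y z h1 h2 => (mem_Lev.1 hq).2.2
    (h (mem_cut.2 ⟨h1, lv_eq k z y ▸ (mem_cut.1 h2).2⟩)) (mem_cut.1 h2).1

theorem Ina.ex_lv (h : Ina θ) {p : M} (hp : p ∈ Lev θ) : ∃ γ ∈ θ, Lv p γ := by
  rw [mem_Lev] at hp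
  obtain ⟨γ, h1, h2⟩ := h.bound (h.sm_ct (hp.2.1.img lv)) fun x hx => by
    obtain ⟨a, h1, rfl⟩ := mem_img.1 hx
    exact lv_mem (hp.1 h1)
  exact ⟨γ, h1, fun a ha => h2 (img_mem ha)⟩

theorem Ina.ex_lv' (h : Ina θ) {p : M} (hp : p ∈ SS θ) : ∃ γ ∈ θ, Lv' p γ := by
  rw [mem_SS] at hp
  obtain ⟨γ, h1, h2⟩ := h.bound (h.sm_ct (hp.2.1.img fun z => lv (snd z))) fun x hx => by
    obtain ⟨a, h1, rfl⟩ := mem_img.1 hx
    exact lv_mem (snd_mem (hp.1 h1))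
  exact ⟨γ, h1, fun a ha => h2 (mem_img.2 ⟨a, ha, rfl⟩)⟩

theorem Unc.lv {α p : M} (h : Unc α) (hp : Ct p) (h' : Lv p α) : ∃ γ ∈ α, Lv p γ := by
  obtain ⟨γ, h1, h2⟩ := h _ (fun x hx => by
    obtain ⟨a, h1, rfl⟩ := mem_img.1 hx
    exact h' a h1) (hp.img MP_f1f2b3_lc.lv)
  exact ⟨γ, h1, fun a ha => h2 (img_mem ha)⟩

theorem Unc.lv' {α p : M} (h : Unc α) (hp : Ct p) (h' : Lv' p α) : ∃ γ ∈ α, Lv' p γ := by
  obtain ⟨γ, h1, h2⟩ := h _ (fun x hx => by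
    obtain ⟨a, h1, rfl⟩ := mem_img.1 hx
    exact h' a h1) (hp.img fun z => MP_f1f2b3_lc.lv (snd z))
  exact ⟨γ, h1, fun a ha => h2 (mem_img.2 ⟨a, ha, rfl⟩)⟩

theorem Ina.sm_at (h : Ina θ) {γ : M} (hγ : γ ∈ θ) : Sm θ (cut (At θ) γ) :=
  (h.sm_prod (h.sm_prod (sm_mem hγ) (sm_mem h.om1.2)) (sm_mem hγ)).mono fun a ha => by
    obtain ⟨α, -, ξ, b, η, -, c, rfl⟩ := mem_At.1 (mem_cut.1 ha).1
    have := (mem_cut.1 ha).2
    rw [lv_pair] at this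
    simp [this, b, (h.od.mem hγ).trans c this]

theorem Ina.sm_lev (h : Ina θ) {γ : M} (hγ : γ ∈ θ) : Sm θ (sep (Lev θ) fun p => Lv p γ) :=
  (h.sm_pw (h.sm_at hγ)).mono fun p hp =>
    mem_pw.2 (ss_cut (mem_Lev.1 (mem_sep.1 hp).1).1 (mem_sep.1 hp).2)

theorem Ina.sm_ss (h : Ina θ) {γ : M} (hγ : γ ∈ θ) : Sm θ (sep (SS θ) fun p => Lv' p γ) :=
  (h.sm_pw (h.sm_prod (sm_mem h.om_mem) (h.sm_at hγ))).mono fun p hp => mem_pw.2 fun z hz => by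
    obtain ⟨l, h1, a, h2, rfl⟩ := mem_prod.1 ((mem_SS.1 (mem_sep.1 hp).1).1 hz)
    simpa [h1, h2] using (mem_sep.1 hp).2 _ hz

theorem chain_lev {f : M} (h0 : ∀ n ∈ (om : M), app f n ∈ Lev θ)
    (h : ∀ n ∈ (om : M), app f n ⊆ app f (sc n)) : bun (app f) om ∈ Lev θ := by
  refine mem_Lev.2 ⟨fun a ha => ?_, ct_om.bun _ fun n hn => (mem_Lev.1 (h0 n hn)).2.1,
    fun a b c h1 h2 => ?_⟩
  · obtain ⟨n, h1, h2⟩ := mem_bun.1 ha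
    exact (mem_Lev.1 (h0 n h1)).1 h2
  · obtain ⟨n, h3, h4, h5⟩ := chain_two h h1 h2
    exact (mem_Lev.1 (h0 n h3)).2.2 h4 h5

theorem chain_ss {f : M} (h0 : ∀ n ∈ (om : M), app f n ∈ SS θ)
    (h : ∀ n ∈ (om : M), app f n ⊆ app f (sc n)) : bun (app f) om ∈ SS θ := by
  refine mem_SS.2 ⟨fun a ha => ?_, ct_om.bun _ fun n hn => (mem_SS.1 (h0 n hn)).2.1,
    fun l a b c h1 h2 => ?_⟩
  · obtain ⟨n, h1, h2⟩ := mem_bun.1 ha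
    exact (mem_SS.1 (h0 n h1)).1 h2
  · obtain ⟨n, h3, h4, h5⟩ := chain_two h (mem_sl.1 h1) (mem_sl.1 h2)
    exact (mem_SS.1 (h0 n h3)).2.2 l (mem_sl.2 h4) (mem_sl.2 h5)

theorem baire (D : M → M → Prop) [hD : D1 fun v => D (v 0) (v 1)]
    (h : ∀ n ∈ (om : M), ∀ p ∈ Lev θ, ∃ q ∈ Lev θ, p ⊆ q ∧ D n q) {p : M} (hp : p ∈ Lev θ) :
    ∃ q ∈ Lev θ, p ⊆ q ∧ ∀ n ∈ (om : M), ∃ r ∈ Lev θ, r ⊆ q ∧ D n r := by
  have := hD.use2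
  obtain ⟨f, h1, h2⟩ := dc (Lev θ) (fun n p q => p ⊆ q ∧ D n q) hp h
  exact ⟨_, chain_lev (fun n hn => (h2 n hn).1) fun n hn => (h2 n hn).2.1,
    fun a ha => mem_bun.2 ⟨∅, empty_mem_om, h1 ▸ ha⟩, fun n hn => ⟨_, (h2 _ (sc_mem_om hn)).1,
      fun a ha => mem_bun.2 ⟨_, sc_mem_om hn, ha⟩, (h2 n hn).2.2⟩⟩

theorem Ina.clp (h : Ina θ) (Q : M → M → Prop) [hQ : D1 fun v => Q (v 0) (v 1)]
    (H : ∀ p ∈ Lev θ, ∃ γ ∈ θ, Q p γ) {η : M} (hη : η ∈ θ) :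
    ∃ α ∈ θ, η ∈ α ∧ ∀ p ∈ Lev θ, Lv p α → ∃ γ ∈ α, Q p γ := by
  have := hQ.use2
  obtain ⟨α, h1, h2, h3, h4⟩ := h.clos (fun γ δ => ∀ p ∈ sep (Lev θ) fun p => Lv p γ,
    ∃ γ' ∈ δ, Q p γ') (fun γ hγ => h.bdd Q (h.sm_lev hγ) fun p hp => H p (mem_sep.1 hp).1) hη
  refine ⟨α, h1, h2, fun p hp h5 => ?_⟩
  obtain ⟨γ, h6, h7⟩ := h4.lv (mem_Lev.1 hp).2.1 h5
  obtain ⟨δ, h8, h9⟩ := h3 γ h6
  obtain ⟨γ', a, b⟩ := h9 p (mem_sep.2 ⟨hp, h7⟩)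
  exact ⟨γ', (h.od.mem h1).trans a h8, b⟩

variable [Countable M] {H : Gen (Lev θ)}

theorem Gen.fn {p q k y z : M} (hp : p ∈ H) (hq : q ∈ H) (h1 : pair k y ∈ p) (h2 : pair k z ∈ q) :
    y = z :=
  let ⟨_, a, b, c⟩ := Gen.dir' hp hq; (mem_Lev.1 (Gen.mem a)).2.2 (b.2.2 _ h1) (c.2.2 _ h2)

theorem Gen.ss {p q : M} (hp : p ∈ H) (h : q ⊆ p) : q ∈ H :=
  Gen.up' hp (lev_ss (Gen.mem hp) h) h

theorem Gen.mem_of {p : M} (hp : p ∈ Lev θ) (h : ∀ a ∈ p, ∃ q ∈ H, a ∈ q) : p ∈ H := by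
  obtain ⟨r, h1, h2⟩ := H.meet_all (fun r => p ⊆ r ∨ p ∪ r ∉ Lev θ) fun r hr => by
    by_cases h1 : p ∪ r ∈ Lev θ
    exacts [⟨_, ⟨h1, hr, ss_union_r⟩, Or.inl ss_union_l⟩, ⟨r, LE.rfl hr, Or.inr h1⟩]
  refine Gen.ss h1 (h2.resolve_right fun h3 => h3 (union_lev hp (Gen.mem h1) fun k y z a b => ?_))
  obtain ⟨q, c, d⟩ := h _ a
  exact Gen.fn c h1 d b

theorem Gen.union {p q : M} (hp : p ∈ H) (hq : q ∈ H) : p ∪ q ∈ H :=
  let ⟨_, a, b, c⟩ := Gen.dir' hp hq; Gen.ss a (union_ss b.2.2 c.2.2)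

/-- switching the generic filter above a level -/
theorem switch {r α : M} (hr : r ∈ Lev θ) (h : cut r α ∈ H) :
    ∃ H' : Gen (Lev θ), r ∈ H' ∧ ∀ q, Lv q α → (q ∈ H ↔ q ∈ H') := by
  obtain ⟨H', h1, h2⟩ := gen_of_step (fun r => cut r α ∈ H) hr h fun r hr h D hD => by
    obtain ⟨t, a, -, r', b, c, d⟩ := Gen.meet' (fun t => ∃ r' ∈ D, LE (Lev θ) r' r ∧ cut r' α ⊆ t) h
      fun t ht => by
        obtain ⟨r', a, b⟩ := hD _ (amalg hr ht.1 ht.2.2)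
        exact ⟨_, ⟨amalg ht.1 b.1 (ss_trans ss_union_r b.2.2), ht.1, ss_union_l (a := t)⟩, r', a,
          ⟨b.1, hr, ss_trans ss_union_l b.2.2⟩, ss_union_r⟩
    exact ⟨r', b, c, Gen.ss a d⟩
  refine ⟨H', h1, fun q hq => ⟨fun h3 => ?_, fun h3 => ?_⟩⟩
  · obtain ⟨u, a, b⟩ := H'.meet_all (fun u => q ⊆ u ∨ q ∪ u ∉ Lev θ) fun u hu => by
      by_cases h1 : q ∪ u ∈ Lev θ
      exacts [⟨_, ⟨h1, hu, ss_union_r⟩, Or.inl ss_union_l⟩, ⟨u, LE.rfl hu, Or.inr h1⟩]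
    refine Gen.ss a (b.resolve_right fun h4 => h4 ?_)
    obtain ⟨u', -, c, d⟩ := h2 u a
    exact union_lev (Gen.mem h3) (Gen.mem a) fun k y z e f =>
      Gen.fn h3 d e (mem_cut.2 ⟨c f, lv_eq k y z ▸ hq _ e⟩)
  · obtain ⟨u, -, c, d⟩ := h2 q h3
    exact Gen.ss d (ss_cut c hq)

theorem Ina.dec (h : Ina θ) (D : M → Prop) [hD : D1 fun v => D (v 0)] {p : M} (hp : p ∈ Lev θ)
    (H : ∀ r ∈ Lev θ, p ⊆ r → ∃ q ∈ Lev θ, r ⊆ q ∧ D q) :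
    ∃ α ∈ θ, Frc (Lev θ) p fun H => ∃ q ∈ H, Lv q α ∧ D q := by
  have := hD.use
  obtain ⟨η, h1, h2⟩ := h.ex_lv hp
  obtain ⟨α, h3, h4, h5⟩ := h.clp (fun r γ => p ⊆ r → ∃ q ∈ Lev θ, r ⊆ q ∧ D q ∧ Lv q γ)
    (fun r hr => by
      by_cases h3 : p ⊆ r
      · obtain ⟨q, a, b, c⟩ := H r hr h3
        obtain ⟨γ, d, e⟩ := h.ex_lv a
        exact ⟨γ, d, fun _ => ⟨q, a, b, c, e⟩⟩
      · exact ⟨η, h1, fun h => (h3 h).elim⟩) h1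
  refine ⟨α, h3, fun G hG => ?_⟩
  obtain ⟨r, a, -, q, b, c⟩ := Gen.meet' (fun r => ∃ q, q ⊆ r ∧ Lv q α ∧ D q) hG fun r hr => by
    obtain ⟨γ, a, b⟩ := h5 _ (lev_ss hr.1 cut_ss) lv_cut
    obtain ⟨q, c, d, e, f⟩ := b (ss_cut hr.2.2 (h2.mono ((h.od.mem h3).tr h4)))
    have f' := f.mono ((h.od.mem h3).tr a)
    exact ⟨_, ⟨amalg hr.1 c d, hr.1, ss_union_l (a := r)⟩, q,
      ss_trans (ss_cut ss_rfl f') ss_union_r, f', e⟩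
  exact ⟨q, Gen.ss a b, c⟩

theorem Ina.cc (h : Ina θ) (S : Gen (Lev θ) → M → Prop) [hS : FD (Lev θ) fun H v => S H (v 0)]
    {p : M} (hp : p ∈ Lev θ) (H : Frc (Lev θ) p fun H => ∃ γ ∈ θ, S H γ) :
    ∃ η ∈ θ, Frc (Lev θ) p fun H => ∃ γ ∈ η, S H γ := by
  have := hS.use
  obtain ⟨α, h1, h2⟩ := h.dec (fun q => ∃ γ ∈ θ, Frc (Lev θ) q fun H => S H γ) hp fun r hr h1 => by
    obtain ⟨G, hG⟩ := ex_gen hr
    obtain ⟨γ, a, b⟩ := H G (Gen.ss hG h1)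
    obtain ⟨q, -, c, d⟩ := truth' (fun H => S H γ) b hG
    exact ⟨q, c.1, c.2.2, γ, a, d⟩
  obtain ⟨η, h3, h4⟩ := h.bdd (fun q γ => Frc (Lev θ) q fun H => S H γ)
    ((h.sm_lev h1).mono (sep_ss (P := fun q => ∃ γ ∈ θ, Frc (Lev θ) q fun H => S H γ)))
    fun q hq => (mem_sep.1 hq).2
  refine ⟨η, h3, fun G hG => ?_⟩
  obtain ⟨q, a, b, c⟩ := h2 G hG
  obtain ⟨γ, d, e⟩ := h4 q (mem_sep.2 ⟨mem_sep.2 ⟨Gen.mem a, b⟩, c⟩)
  exact ⟨γ, d, e G a⟩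

/-- the truth value is decided below `γ` -/
def Dec (θ γ : M) (S : Gen (Lev θ) → Prop) : Prop :=
  Frc (Lev θ) ∅ fun H => ∃ q ∈ H, Lv q γ ∧ (Frc (Lev θ) q S ∨ Frc (Lev θ) q fun H => ¬ S H)

instance d1_dec {S : Gen (Lev θ) → (ℕ → M) → Prop} [h : FD (Lev θ) S] (q : (ℕ → M) → M) [T1 q] :
    D1 fun v => Dec θ (q v) fun H => S H v := by
  have := h.ren
  unfold Dec; infer_instance

theorem Ina.ex_dec (h : Ina θ) (S : Gen (Lev θ) → Prop) [FD (Lev θ) fun H _ => S H] :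
    ∃ γ ∈ θ, Dec θ γ S :=
  h.dec _ (fact_lev θ).out fun r hr _ => by
    by_cases h1 : Frc (Lev θ) r fun H => ¬ S H
    · exact ⟨r, hr, ss_rfl, Or.inr h1⟩
    · obtain ⟨q, a, b⟩ := not_frc h1
      exact ⟨q, a.1, a.2.2, Or.inl b⟩

theorem Dec.mono {γ δ : M} {S : Gen (Lev θ) → Prop} (h : Dec θ γ S) (h' : γ ⊆ δ) : Dec θ δ S :=
  fun H hH => let ⟨q, a, b, c⟩ := h H hH; ⟨q, a, b.mono h', c⟩

theorem Dec.not {γ : M} {S : Gen (Lev θ) → Prop} (h : Dec θ γ S) : Dec θ γ fun H => ¬ S H :=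
  fun H hH => let ⟨q, a, b, c⟩ := h H hH; ⟨q, a, b, c.symm.imp_right fun h H h1 h2 => h2 (h H h1)⟩

theorem Dec.iff {γ : M} {S : Gen (Lev θ) → Prop} (h : Dec θ γ S) {H H' : Gen (Lev θ)}
    (e : ∀ q, Lv q γ → (q ∈ H ↔ q ∈ H')) : S H ↔ S H' := by
  obtain ⟨q, a, b, c | c⟩ := h H H.nonempty
  · exact iff_of_true (c H a) (c H' ((e q b).1 a))
  · exact iff_of_false (c H a) (c H' ((e q b).1 a))

theorem Dec.cut {γ p : M} {S : Gen (Lev θ) → Prop} (h : Dec θ γ S) (hp : p ∈ Lev θ)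
    (h' : Frc (Lev θ) p S) : Frc (Lev θ) (cut p γ) S := fun H h1 =>
  let ⟨H', a, b⟩ := switch hp h1; (h.iff b).2 (h' H' a)

/-- names with bounded sections -/
theorem Ina.bn (h : Ina θ) (T : M → M) [hT : T1 fun v => T (v 0)] (hs : ∀ γ ∈ θ, Sm θ (T γ))
    (hm : ∀ γ δ, γ ⊆ δ → T γ ⊆ T δ) (S : Gen (Lev θ) → M → M → Prop)
    [hS : FD (Lev θ) fun H v => S H (v 0) (v 1)] (X : M) {p : M} (hp : p ∈ Lev θ)
    (H : Frc (Lev θ) p fun H => ∀ β ∈ θ, ∃ γ ∈ θ, ∀ x ∈ X, S H β x → x ∈ T γ) :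
    ∃ Z, Z ⊆ prod θ (prod (Lev θ) X) ∧
      (∀ β ∈ θ, ∃ γ ∈ θ, ∀ q x, pair β (pair q x) ∈ Z → Lv q γ ∧ x ∈ T γ) ∧
      Frc (Lev θ) p fun H => ∀ β ∈ θ, ∀ x ∈ X, S H β x ↔ ∃ q ∈ H, pair β (pair q x) ∈ Z := by
  have := hS.use2
  have := hT.use
  obtain ⟨g, hg⟩ := skolem (fun β γ => γ ∈ θ ∧ Frc (Lev θ) p fun H => ∀ x ∈ X, S H β x →
      x ∈ T γ ∧ Dec θ γ fun H => S H β x) θ fun β hβ => by
    obtain ⟨η, h1, h2⟩ := h.cc (fun H γ => ∀ x ∈ X, S H β x → x ∈ T γ) hp fun G hG => H G hG β hβ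
    obtain ⟨δ, h3, h4⟩ := h.bdd (fun x γ => Dec θ γ fun H => S H β x) (hs η h1)
      fun x _ => h.ex_dec _
    refine ⟨η ∪ δ, h.od.union_mem h1 h3, fun G hG x hx h5 => ?_⟩
    obtain ⟨γ, a, b⟩ := h2 G hG
    have c := hm _ _ ((h.od.mem h1).tr a) (b x hx h5)
    obtain ⟨γ', d, e⟩ := h4 x c
    exact ⟨hm _ _ ss_union_l c, e.mono (ss_trans ((h.od.mem h3).tr d) ss_union_r)⟩
  refine ⟨sep (prod θ (prod (Lev θ) X)) fun z => Lv (fst (snd z)) (app g (fst z)) ∧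
    snd (snd z) ∈ T (app g (fst z)) ∧ Frc (Lev θ) (fst (snd z)) fun H => S H (fst z) (snd (snd z)),
    sep_ss, fun β hβ => ⟨_, (hg β hβ).1, fun q x hz => ?_⟩, fun G hG β hβ x hx => ?_⟩
  · simp only [mem_sep, fst_pair, snd_pair] at hz
    exact ⟨hz.2.1, hz.2.2.1⟩
  · simp only [mem_sep, fst_pair, snd_pair, pair_mem_prod]
    refine ⟨fun h1 => ?_, fun ⟨q, a, b⟩ => b.2.2.2 G a⟩
    obtain ⟨a, b⟩ := (hg β hβ).2 G hG x hx h1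
    obtain ⟨q, c, d, e⟩ := b G G.nonempty
    exact ⟨q, c, ⟨hβ, Gen.mem c, hx⟩, d, a, e.resolve_right fun e => e G c h1⟩

/-- no new countable sets -/
theorem ground_ct {X : M} {y : Ext H} (hy : y ⊆ ι H X) (hc : Ct y) :
    ∃ x, x ⊆ X ∧ Ct x ∧ y = ι H x := by
  have e := emb_ι H
  obtain ⟨f, hf⟩ := hc
  obtain ⟨τ, hτ⟩ := val_surj (sep (graph (app f) om) fun z => snd z ∈ y)
  have key : ∀ n a, ι H (pair n a) ∈ val H τ ↔ n ∈ (om : M) ∧ app f (ι H n) = ι H a ∧ ι H a ∈ y :=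
    fun n a => by simp [hτ, e.pair, ← e.om, e.mem_iff, and_assoc]
  obtain ⟨q, h1, h2⟩ := H.meet_all (fun q => ∀ n ∈ (om : M), ∃ r ∈ Lev θ, r ⊆ q ∧
      ((∃ a, Frc (Lev θ) r fun H => ι H (pair n a) ∈ val H τ) ∨
        Frc (Lev θ) r fun H => ¬ ∃ a, ι H (pair n a) ∈ val H τ)) fun p hp => by
    obtain ⟨q, a, b, c⟩ := baire (fun n r => (∃ a, Frc (Lev θ) r fun H => ι H (pair n a) ∈ val H τ)
      ∨ Frc (Lev θ) r fun H => ¬ ∃ a, ι H (pair n a) ∈ val H τ) (fun n _ p hp => by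
        by_cases h : Frc (Lev θ) p fun H => ¬ ∃ a, ι H (pair n a) ∈ val H τ
        · exact ⟨p, hp, ss_rfl, Or.inr h⟩
        · simp only [Frc, not_forall, not_not] at h
          obtain ⟨G, hG, a, h⟩ := h
          obtain ⟨q, -, b, c⟩ := truth' (fun H => ι H (pair n a) ∈ val H τ) h hG
          exact ⟨q, b.1, b.2.2, Or.inl ⟨a, c⟩⟩) hp
    exact ⟨q, ⟨a, hp, b⟩, c⟩
  refine ⟨sep X fun a => ∃ n ∈ (om : M), Frc (Lev θ) q fun H => ι H (pair n a) ∈ val H τ, sep_ss,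
    cv_of_rel (fun n a => Frc (Lev θ) q fun H => ι H (pair n a) ∈ val H τ)
      (fun a ha => (mem_sep.1 ha).2) fun n _ a _ b _ h3 h4 => e.inj
        (((key n a).1 (h3 H h1)).2.1.symm.trans ((key n b).1 (h4 H h1)).2.1),
    (e.eq_of (fun z hz => e.ex (hy hz)) fun a => ?_).symm⟩
  rw [mem_sep]
  refine ⟨fun ⟨_, n, _, h3⟩ => ((key n a).1 (h3 H h1)).2.2, fun ha => ⟨e.mem_iff.1 (hy ha), ?_⟩⟩
  obtain ⟨n, h3, h4⟩ := hf _ ha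
  obtain ⟨n, h5, rfl⟩ := e.mem.1 (e.om ▸ h3)
  obtain ⟨r, a1, a2, ⟨b, a3⟩ | a3⟩ := h2 n h5
  · rw [e.inj (h4.symm.trans ((key n b).1 (a3 H (Gen.ss h1 a2))).2.1)]
    exact ⟨n, h5, a3.mono a1 a2⟩
  · exact (a3 H (Gen.ss h1 a2) ⟨a, (key n a).2 ⟨h5, h4, ha⟩⟩).elim

theorem ι_cs (X : M) : ι H (cs X) = cs (ι H X) := by
  have e := emb_ι H
  refine e.eq_of (fun y hy => ?_) fun x => ?_
  · obtain ⟨x, -, -, h⟩ := ground_ct (mem_cs.1 hy).1 (mem_cs.1 hy).2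
    exact ⟨x, h⟩
  · simp only [mem_cs, e.ss_iff]
    refine and_congr_right fun _ => ⟨e.ct, fun h => ?_⟩
    obtain ⟨x', -, h1, h2⟩ := ground_ct ss_rfl h
    rwa [e.inj h2]

theorem ι_w1 (h : Ina θ) : ι H w1 = w1 := by
  have e := emb_ι H
  refine (Om1.eq ⟨e.od_iff.2 h.om1.1.1, fun h1 => h.om1.1.2.1 ?_,
    e.ball.2 fun x hx => e.ct (h.om1.1.2.2 x hx)⟩).symm
  obtain ⟨x', -, h1, h2⟩ := ground_ct ss_rfl h1
  rwa [e.inj h2]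

end

end Pool.Agent.P.MP_f1f2b3_lc
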