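import Pool.Agent.P.MP_f1f2b3_lc.PartB2

/-! The characterisation, first for countable models and then for all models. -/

set_option linter.unusedSectionVars false
set_option linter.unusedVariables false
set_option synthInstance.maxSize 4096

namespace Pool.Agent.P.MP_f1f2b3_lc

universe u w

theorem ex_phi : ∃ φ : Fml, FreeLt φ 1 ∧ ∀ (A : Type u) [Md A] (v : ℕ → A),
    Sat Mem.E φ v ↔ ¬ ∃ F g N f, Body (v 0) F g N f := by
  let _ : ∀ i : (A : Type u) × Md A, ZF i.1 := fun i => i.2.toZF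
  have h1 : Df (I := (A : Type u) × Md A) (A := fun i => i.1) (fun _ => False)
      fun i v => Body (v 4) (v 3) (v 2) (v 1) (v 0) :=
    df_Body.ren (cons 4 (cons 3 (cons 2 (cons 1 fun _ => 0))))
  obtain ⟨φ, h⟩ := (inferInstance : Df (I := (A : Type u) × Md A) (A := fun i => i.1)
    (fun _ => False) fun i v => ¬ ∃ F g N f, Body (v 0) F g N f).noparam
  exact ⟨φ.ren fun _ => 0, freeLt_ren _ _ _ fun _ => Nat.one_pos, fun A hA v =>
    (sat_ren _ _ _ _).trans (h ⟨A, hA⟩ fun _ => v 0).symm⟩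

theorem main_ct {φ : Fml} (hφ : ∀ (A : Type u) [Md A] (v : ℕ → A),
    Sat Mem.E φ v ↔ ¬ ∃ F g N f, Body (v 0) F g N f) {M : Type u} [Md M] [Countable M]
    {θ P one τ : M} (h1 : Inacc Mem.E θ) (h2 : IsLevy Mem.E θ P) (h3 : ∀ x, ¬ Mem.E x one)
    (h4 : IsCheck Mem.E one θ τ) : Arrow Mem.E θ ↔ Forces Mem.E P φ one fun _ => τ := by
  have h := inacc_iff.1 h1
  obtain rfl := isLevy_eq h h2
  obtain rfl := eq_empty h3
  obtain rfl := isCheck_eq h4
  rw [forces_iff φ _ _ (fact_lev θ).out]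
  refine ⟨fun ha H _ => (hφ _ _).2 (h.partB ha H), fun h5 => arrow_of_br h fun F => ?_⟩
  by_contra h6
  obtain ⟨H, h7⟩ := ex_gen (fact_lev θ).out
  exact (hφ _ _).1 (h5 H h7) (h.partA (fun b hb => h6 ⟨b, hb⟩) H)

/-- a code of a formula -/
def Fml.enc : Fml → ℕ
  | Fml.mem i j => Nat.pair 0 (Nat.pair i j)
  | Fml.eq i j => Nat.pair 1 (Nat.pair i j)
  | Fml.bot => Nat.pair 2 0
  | Fml.imp φ ψ => Nat.pair 3 (Nat.pair φ.enc ψ.enc)
  | Fml.all φ => Nat.pair 4 φ.enc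

instance : Countable Fml := ⟨Fml.enc, fun φ => by
  induction φ <;> intro ψ h <;> cases ψ <;> simp_all [Fml.enc, Nat.pair_eq_pair] <;> grind⟩

theorem sat_fin {A : Type u} (E : A → A → Prop) (φ : Fml) :
    ∃ k, ∀ v w : ℕ → A, (∀ n < k, v n = w n) → (Sat E φ v ↔ Sat E φ w) := by
  induction φ with
  | mem i j =>
    exact ⟨i + j + 1, fun v w h => by
      change E (v i) (v j) ↔ E (w i) (w j)
      rw [h i (by omega), h j (by omega)]⟩
  | eq i j =>
    exact ⟨i + j + 1, fun v w h => by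
      change v i = v j ↔ w i = w j
      rw [h i (by omega), h j (by omega)]⟩
  | bot => exact ⟨0, fun _ _ _ => Iff.rfl⟩
  | imp φ ψ h1 h2 =>
    obtain ⟨k, h1⟩ := h1
    obtain ⟨l, h2⟩ := h2
    exact ⟨k + l, fun v w h => imp_congr (h1 v w fun n hn => h n (by omega))
      (h2 v w fun n hn => h n (by omega))⟩
  | all φ h1 =>
    obtain ⟨k, h1⟩ := h1
    refine ⟨k, fun v w h => forall_congr' fun x => h1 _ _ fun n hn => ?_⟩
    cases n
    exacts [rfl, h _ (by omega)]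

theorem ex_hull {A : Type u} (E : A → A → Prop) (v0 : ℕ → A) :
    ∃ S : Set A, S.Countable ∧ (∀ n, v0 n ∈ S) ∧ ∀ φ (v : ℕ → S),
      Sat (fun a b : S => E a.1 b.1) φ v ↔ Sat E φ fun n => (v n).1 := by
  have : Nonempty A := ⟨v0 0⟩
  let sk : Fml → (ℕ → A) → A := fun φ v => Classical.epsilon fun x => ¬ Sat E φ (cons x v)
  let ex : ∀ k, (Fin k → A) → ℕ → A := fun k f n => if h : n < k then f ⟨n, h⟩ else v0 0
  let T : ℕ → Set A := fun n => Nat.rec (Set.range v0)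
    (fun _ s => s ∪ ⋃ k, ⋃ φ, (fun f => sk φ (ex k f)) '' {f | ∀ i, f i ∈ s}) n
  have h1 : ∀ n, (T n).Countable := fun n => by
    induction n with
    | zero => exact Set.countable_range v0
    | succ n ih =>
      exact ih.union (Set.countable_iUnion fun k => Set.countable_iUnion fun φ =>
        (Set.countable_pi fun _ => ih).image _)
  have h2 : Monotone T := monotone_nat_of_le_succ fun n => Set.subset_union_left
  refine ⟨⋃ n, T n, Set.countable_iUnion h1, fun n => Set.mem_iUnion.2 ⟨0, n, rfl⟩, fun φ => ?_⟩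
  induction φ with
  | mem i j => exact fun _ => Iff.rfl
  | eq i j => exact fun _ => Subtype.ext_iff
  | bot => exact fun _ => Iff.rfl
  | imp φ ψ h1 h2 => exact fun v => imp_congr (h1 v) (h2 v)
  | all φ ih =>
    intro v
    have e : ∀ x : ⋃ n, T n, (fun n => (cons x v n).1) = cons x.1 fun n => (v n).1 :=
      fun x => funext fun n => by cases n <;> rfl
    refine ⟨fun h x => ?_, fun h x => (ih _).2 (e x ▸ h x.1)⟩
    by_contra hx
    obtain ⟨k, hk⟩ := sat_fin E φ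
    choose m hm using fun n => Set.mem_iUnion.1 (v n).2
    have e2 : ∀ y, Sat E φ (cons y fun n => (v n).1) ↔
        Sat E φ (cons y (ex k fun i => (v i).1)) := fun y => hk _ _ fun n hn => by
      cases n with
      | zero => rfl
      | succ n => simp [ex, show n < k by omega]
    have h3 : ¬ Sat E φ (cons (sk φ (ex k fun i => (v i).1)) (ex k fun i => (v i).1)) :=
      Classical.epsilon_spec (p := fun x => ¬ Sat E φ (cons x (ex k fun i => (v i).1)))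
        ⟨x, fun h => hx ((e2 x).2 h)⟩
    have h4 : sk φ (ex k fun i => (v i).1) ∈ ⋃ n, T n :=
      Set.mem_iUnion.2 ⟨(Finset.range k).sup m + 1, Or.inr (Set.mem_iUnion.2 ⟨k,
        Set.mem_iUnion.2 ⟨φ, _, fun i => h2 (Finset.le_sup (Finset.mem_range.2 i.2)) (hm i), rfl⟩⟩)⟩
    exact h3 ((e2 _).1 (e ⟨_, h4⟩ ▸ (ih _).1 (h ⟨_, h4⟩)))

theorem transfer {A B : Type u} {E : A → A → Prop} {E' : B → B → Prop} {j : B → A}
    (h : ∀ φ (v : ℕ → B), Sat E' φ v ↔ Sat E φ fun n => j (v n))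
    (P : ∀ i : (A : Type u) × Mem A, (ℕ → i.1) → Prop)
    (hP : @Df _ (fun i : (A : Type u) × Mem A => i.1) (fun i => i.2) (fun _ => False) P)
    (v : ℕ → B) : P ⟨B, ⟨E'⟩⟩ v ↔ P ⟨A, ⟨E⟩⟩ fun n => j (v n) := by
  obtain ⟨φ, hφ⟩ := @Df.noparam _ _ (fun i : (A : Type u) × Mem A => i.2) _ hP
  exact (hφ _ _).trans ((h φ v).trans (hφ ⟨A, ⟨E⟩⟩ _).symm)

theorem zfc_of_elem {A B : Type u} {E : A → A → Prop} {E' : B → B → Prop} {j : B → A}
    (h : ∀ φ (v : ℕ → B), Sat E' φ v ↔ Sat E φ fun n => j (v n)) (b : B) (hA : IsZFC E) :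
    IsZFC E' := by
  let _ : ∀ i : (A : Type u) × Mem A, Mem i.1 := fun i => i.2
  have t := transfer h
  refine ⟨(t (fun i _ => ∀ a b : i.1, (∀ x, Mem.E x a ↔ Mem.E x b) → a = b) inferInstance
      fun _ => b).2 hA.ext,
    (t (fun i _ => ∀ a : i.1, (∃ x, Mem.E x a) → ∃ x, Mem.E x a ∧ ∀ y, Mem.E y x → ¬ Mem.E y a)
      inferInstance fun _ => b).2 hA.foundation,
    (t (fun i _ => ∀ a b : i.1, ∃ c, IsUP Mem.E c a b) inferInstance fun _ => b).2 hA.pairing,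
    (t (fun i _ => ∀ a : i.1, ∃ c, ∀ x, Mem.E x c ↔ ∃ y, Mem.E y a ∧ Mem.E x y) inferInstance
      fun _ => b).2 hA.union,
    (t (fun i _ => ∀ a : i.1, ∃ c, ∀ x, Mem.E x c ↔ Sub Mem.E x a) inferInstance
      fun _ => b).2 hA.power,
    (t (fun i _ => ∃ I : i.1, Ind Mem.E I) inferInstance fun _ => b).2 hA.infinity,
    fun φ v => ?_, fun φ v => ?_,
    (t (fun i _ => ∀ a : i.1, ∃ f, Fnl Mem.E f ∧ ∀ x, Mem.E x a → (∃ y, Mem.E y x) →
      ∃ y, Mem.E y x ∧ Rel Mem.E f x y) inferInstance fun _ => b).2 hA.choice⟩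
  · have : Df (I := (A : Type u) × Mem A) (A := fun i => i.1) (fun _ => False)
        fun i v => Sat Mem.E φ (cons (v 0) fun n => v (n + 1 + 1 + 1)) :=
      ((Df.sat φ).ren (cons 0 fun n => n + 3)).congr fun i v => iff_of_eq (by
        congr 1
        funext n
        cases n <;> rfl)
    exact (t (fun i v => ∀ a : i.1, ∃ b, ∀ x, Mem.E x b ↔ Mem.E x a ∧ Sat Mem.E φ (cons x v))
      inferInstance v).2 (hA.separation φ _)
  · have : ∀ (a b : ℕ) (ρ : ℕ → ℕ), Df (I := (A : Type u) × Mem A) (A := fun i => i.1)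
        (fun _ => False) fun i v => Sat Mem.E φ (cons (v a) (cons (v b) fun n => v (ρ n))) :=
      fun a b ρ => ((Df.sat φ).ren (cons a (cons b ρ))).congr fun i v => iff_of_eq (by
        congr 1
        funext n
        rcases n with _ | _ | n <;> rfl)
    exact (t (fun i v => ∀ a : i.1, (∀ x, Mem.E x a → ∃! y, Sat Mem.E φ (cons y (cons x v))) →
      ∃ b, ∀ y, Mem.E y b ↔ ∃ x, Mem.E x a ∧ Sat Mem.E φ (cons y (cons x v)))
      inferInstance v).2 (hA.replacement φ _)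

theorem main : ∃ φ : Fml, FreeLt φ 1 ∧ ∀ (A : Type u) (E : A → A → Prop), IsZFC E →
    ∀ θ P one τ : A, Inacc E θ → IsLevy E θ P → (∀ x, ¬ E x one) → IsCheck E one θ τ →
      (Arrow E θ ↔ Forces E P φ one fun _ => τ) := by
  obtain ⟨φ, h1, h2⟩ := ex_phi.{u}
  refine ⟨φ, h1, fun A E hA θ P one τ => ?_⟩
  obtain ⟨S, a1, a2, a3⟩ := ex_hull E (cons θ (cons P (cons one fun _ => τ)))
  let _ : ∀ i : (A : Type u) × Mem A, Mem i.1 := fun i => i.2
  have : Df (I := (A : Type u) × Mem A) (A := fun i => i.1) (fun _ => False)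
      fun i v => Forces Mem.E (v 1) φ (v 2) fun _ => v 3 :=
    (df_Forces φ).ren (cons 1 (cons 2 fun _ => 3))
  refine (transfer a3 (fun i v => Inacc Mem.E (v 0) → IsLevy Mem.E (v 0) (v 1) →
    (∀ x, ¬ Mem.E x (v 2)) → IsCheck Mem.E (v 2) (v 0) (v 3) →
      (Arrow Mem.E (v 0) ↔ Forces Mem.E (v 1) φ (v 2) fun _ => v 3)) inferInstance
    fun n => ⟨_, a2 n⟩).1 ?_
  have := a1.to_subtype
  exact @main_ct φ h2 S (Md.of (zfc_of_elem a3 ⟨_, a2 0⟩ hA)) _ _ _ _ _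

theorem isLevy_lev {M : Type u} [Md M] {θ : M} (h : Ina θ) : IsLevy Mem.E θ (Lev θ) := by
  intro p
  simp only [fnl_iff, isOmega1_iff, ctbl_iff, isPair_iff, E_iff, mem_Lev]
  constructor
  · rintro ⟨h1, h2, h3⟩
    refine ⟨h3, w1, img fst p, h.om1.1, h2.img fst, fun z hz => ?_⟩
    obtain ⟨α, a, ξ, b, η, -, c, rfl⟩ := mem_At.1 (h1 hz)
    exact ⟨_, α, ξ, η, rfl, rfl, mem_img.2 ⟨_, hz, fst_pair _ _⟩, a, b, c⟩
  · rintro ⟨h1, w, d, h2, h3, h4⟩
    refine ⟨fun z hz => ?_, h3.cv (cv_of (fun k => pair k (app p k)) fun z hz => ?_), h1⟩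
    · obtain ⟨_, α, ξ, η, rfl, rfl, -, a, b, c⟩ := h4 z hz
      exact mem_At.2 ⟨α, a, ξ, h2.eq ▸ b, η, h.od.trans c a, c, rfl⟩
    · obtain ⟨k, α, ξ, η, rfl, -, a, -⟩ := h4 z hz
      exact ⟨k, a, by rw [h1.app_eq hz]⟩

theorem isCheck_chk {M : Type u} [ZF M] (x : M) : IsCheck Mem.E ∅ x (chk x) := by
  obtain ⟨T, h1, h2⟩ := ex_trans x
  refine ⟨graph chk T, ?_⟩
  simp only [rel_iff, isPair_iff, E_iff, pair_mem_graph]
  refine ⟨⟨h2, trivial⟩, ?_⟩
  rintro a _ ⟨h3, rfl⟩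
  refine ⟨fun a' h4 => ⟨_, h1 h3 h4, rfl⟩, fun z => ?_⟩
  rw [chk_eq]
  simp only [fl, mem_img]
  exact ⟨fun ⟨_, ⟨y, b, c⟩, d⟩ => ⟨y, _, b, ⟨h1 h3 b, c⟩, d.symm⟩,
    fun ⟨y, _, b, c, d⟩ => ⟨_, ⟨y, b, c.2⟩, d.symm⟩⟩

theorem ex_data {A : Type u} {E : A → A → Prop} (hA : IsZFC E) {θ : A} (h : Inacc E θ) :
    ∃ P one τ : A, IsLevy E θ P ∧ (∀ x, ¬ E x one) ∧ IsCheck E one θ τ := by
  let _ := Md.of hA
  exact ⟨_, _, _, isLevy_lev (inacc_iff.1 h), fun x => not_mem_empty (x := x), isCheck_chk θ⟩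

end Pool.Agent.P.MP_f1f2b3_lc
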