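import Pool.Agent.P.MP_f1f2b3_lc.Df

/-! Set operations in a model of ZF. -/

set_option linter.unusedSectionVars false

namespace Pool.Agent.P.MP_f1f2b3_lc

universe u w

instance Mem.instHasSubset {A : Type u} [Mem A] : HasSubset A := ⟨fun a b => ∀ ⦃x⦄, x ∈ a → x ∈ b⟩

theorem subset_def {A : Type u} [Mem A] {a b : A} : a ⊆ b ↔ ∀ x ∈ a, x ∈ b := Iff.rfl

theorem sub_iff {A : Type u} [Mem A] {a b : A} : Sub Mem.E a b ↔ a ⊆ b := Iff.rfl

theorem ss_rfl {A : Type u} [Mem A] {a : A} : a ⊆ a := fun _ h => h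

theorem ss_trans {A : Type u} [Mem A] {a b c : A} (h : a ⊆ b) (h' : b ⊆ c) : a ⊆ c :=
  fun _ hx => h' (h hx)

section

variable {M : Type u} [ZF M]

instance ZF.nonempty : Nonempty M := let ⟨I, _⟩ := (ZF.zf (A := M)).infinity; ⟨I⟩

theorem ext' {a b : M} (h : ∀ x, x ∈ a ↔ x ∈ b) : a = b := ZF.zf.ext a b h

theorem ss_antisymm {a b : M} (h : a ⊆ b) (h' : b ⊆ a) : a = b :=
  ext' fun _ => ⟨fun hx => h hx, fun hx => h' hx⟩

/-- the set with a given extension, if there is one -/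
noncomputable def mkS (P : M → Prop) : M := Classical.epsilon fun b => ∀ x, x ∈ b ↔ P x

theorem mem_mk {P : M → Prop} (h : ∃ b : M, ∀ x, x ∈ b ↔ P x) {x : M} : x ∈ mkS P ↔ P x :=
  Classical.epsilon_spec h x

/-- separation -/
noncomputable def sep (a : M) (P : M → Prop) : M := mkS fun x => x ∈ a ∧ P x

@[simp] theorem mem_sep {a x : M} {P : M → Prop} [h : D1 fun v => P (v 0)] :
    x ∈ sep a P ↔ x ∈ a ∧ P x := mem_mk (ex_sep P h a)

noncomputable instance ZF.instEmpty : EmptyCollection M := ⟨mkS fun _ => False⟩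

@[simp] theorem not_mem_empty {x : M} : x ∉ (∅ : M) := by
  obtain ⟨a⟩ : Nonempty M := inferInstance
  obtain ⟨b, h⟩ := ex_sep (fun _ => False) inferInstance a
  exact (mem_mk (P := fun _ => False) ⟨b, fun x => by simp [h]⟩).1

theorem eq_empty {a : M} (h : ∀ x, x ∉ a) : a = ∅ := ext' fun x => by simp [h]

theorem empty_ss {a : M} : ∅ ⊆ a := fun _ h => (not_mem_empty h).elim

theorem ne_empty {a : M} (h : a ≠ ∅) : ∃ x, x ∈ a := by
  by_contra h'
  exact h (eq_empty fun x hx => h' ⟨x, hx⟩)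

/-- unordered pair -/
noncomputable def up (a b : M) : M := mkS fun x => x = a ∨ x = b

@[simp] theorem mem_up {a b x : M} : x ∈ up a b ↔ x = a ∨ x = b := mem_mk (ZF.zf.pairing a b)

/-- union -/
noncomputable def sUn (a : M) : M := mkS fun x => ∃ y ∈ a, x ∈ y

@[simp] theorem mem_sUn {a x : M} : x ∈ sUn a ↔ ∃ y ∈ a, x ∈ y := mem_mk (ZF.zf.union a)

/-- power set -/
noncomputable def pw (a : M) : M := mkS fun x => x ⊆ a

@[simp] theorem mem_pw {a x : M} : x ∈ pw a ↔ x ⊆ a := mem_mk (ZF.zf.power a)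

noncomputable instance ZF.instUnion : Union M := ⟨fun a b => sUn (up a b)⟩

@[simp] theorem mem_union {a b x : M} : x ∈ a ∪ b ↔ x ∈ a ∨ x ∈ b := by
  change x ∈ sUn (up a b) ↔ _
  simp

theorem ss_union_l {a b : M} : a ⊆ a ∪ b := fun _ h => mem_union.2 (Or.inl h)
theorem ss_union_r {a b : M} : b ⊆ a ∪ b := fun _ h => mem_union.2 (Or.inr h)
theorem union_ss {a b c : M} (h : a ⊆ c) (h' : b ⊆ c) : a ∪ b ⊆ c :=
  fun _ hx => (mem_union.1 hx).elim (fun h1 => h h1) fun h1 => h' h1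

/-- image -/
noncomputable def img (F : M → M) (a : M) : M := mkS fun y => ∃ x ∈ a, F x = y

@[simp] theorem mem_img {F : M → M} {a y : M} [h : T1 fun v => F (v 0)] :
    y ∈ img F a ↔ ∃ x ∈ a, F x = y := by
  have := h.use
  obtain ⟨b, e⟩ := ex_repl (fun x y => F x = y) inferInstance a fun x _ => ⟨F x, rfl, fun _ h => h.symm⟩
  exact mem_mk ⟨b, e⟩

/-- the unique object with a property, or the empty set -/
noncomputable def the (P : M → Prop) : M := mkS fun x => ∃ y, (∀ z, P z ↔ z = y) ∧ x ∈ y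

theorem mem_the {P : M → Prop} {x : M} : x ∈ the P ↔ ∃ y, (∀ z, P z ↔ z = y) ∧ x ∈ y := by
  refine mem_mk ?_
  by_cases h : ∃ y, ∀ z, P z ↔ z = y
  · obtain ⟨y, hy⟩ := h
    refine ⟨y, fun x => ⟨fun h => ⟨y, hy, h⟩, fun ⟨y', h1, h2⟩ => ?_⟩⟩
    rwa [(hy y').1 ((h1 y').2 rfl)] at h2
  · exact ⟨∅, fun x => ⟨fun h => (not_mem_empty h).elim, fun ⟨y, h1, _⟩ => (h ⟨y, h1⟩).elim⟩⟩

theorem the_eq {P : M → Prop} {y : M} (h : P y) (hu : ∀ z, P z → z = y) : the P = y :=
  ext' fun x => mem_the.trans ⟨fun ⟨y', h1, h2⟩ => by rwa [(h1 y).1 h],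
    fun hx => ⟨y, fun z => ⟨hu z, fun e => e ▸ h⟩, hx⟩⟩

theorem the_spec {P : M → Prop} (h : ∃! y, P y) : P (the P) := by
  obtain ⟨y, h1, h2⟩ := h
  rwa [the_eq h1 h2]

/-- ordered pair -/
noncomputable def pair (a b : M) : M := up (up a a) (up a b)

theorem up_eq_iff {a b c d : M} : up a b = up c d ↔ a = c ∧ b = d ∨ a = d ∧ b = c := by
  constructor
  · intro h
    have h1 : ∀ x, x = a ∨ x = b ↔ x = c ∨ x = d := fun x => by rw [← mem_up, h, mem_up]
    have h2 := (h1 a).1 (Or.inl rfl)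
    have h3 := (h1 b).1 (Or.inr rfl)
    have h4 := (h1 c).2 (Or.inl rfl)
    have h5 := (h1 d).2 (Or.inr rfl)
    grind
  · rintro (⟨rfl, rfl⟩ | ⟨rfl, rfl⟩)
    · rfl
    · exact ext' fun x => by simp [or_comm]

@[simp] theorem pair_inj {a b c d : M} : pair a b = pair c d ↔ a = c ∧ b = d := by
  simp only [pair, up_eq_iff]
  grind

/-- first coordinate -/
noncomputable def fst (p : M) : M := the fun a => ∃ b, p = pair a b

/-- second coordinate -/
noncomputable def snd (p : M) : M := the fun b => ∃ a, p = pair a b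

@[simp] theorem fst_pair (a b : M) : fst (pair a b) = a :=
  the_eq ⟨b, rfl⟩ fun _ ⟨_, h⟩ => (pair_inj.1 h).1.symm

@[simp] theorem snd_pair (a b : M) : snd (pair a b) = b :=
  the_eq ⟨a, rfl⟩ fun _ ⟨_, h⟩ => (pair_inj.1 h).2.symm

/-- value of a function -/
noncomputable def app (f x : M) : M := the fun y => pair x y ∈ f

theorem app_eq {f x y : M} (h : pair x y ∈ f) (hu : ∀ z, pair x z ∈ f → z = y) : app f x = y :=
  the_eq h hu

/-- successor -/
noncomputable def sc (a : M) : M := a ∪ up a a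

@[simp] theorem mem_sc {a x : M} : x ∈ sc a ↔ x ∈ a ∨ x = a := by simp [sc]

theorem self_mem_sc (a : M) : a ∈ sc a := by simp

theorem ss_sc (a : M) : a ⊆ sc a := fun _ h => mem_sc.2 (Or.inl h)

theorem isUP_iff {a b c : M} : IsUP Mem.E c a b ↔ c = up a b :=
  ⟨fun h => ext' fun x => (h x).trans mem_up.symm, fun h _ => h ▸ mem_up⟩

theorem isPair_iff {a b p : M} : IsPair Mem.E p a b ↔ p = pair a b := by
  simp only [IsPair, isUP_iff]
  exact ⟨fun h => ext' fun x => (h x).trans mem_up.symm, fun h _ => h ▸ mem_up⟩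

theorem rel_iff {a b f : M} : Rel Mem.E f a b ↔ pair a b ∈ f := by
  simp only [Rel, isPair_iff, E_iff]
  exact ⟨fun ⟨p, h, e⟩ => e ▸ h, fun h => ⟨_, h, rfl⟩⟩

/-- at most one value at each point -/
def Fn (f : M) : Prop := ∀ ⦃a b c⦄, pair a b ∈ f → pair a c ∈ f → b = c

theorem fnl_iff {f : M} : Fnl Mem.E f ↔ Fn f := by simp only [Fnl, rel_iff]; rfl

theorem Fn.app_eq {f x y : M} (h : Fn f) (hp : pair x y ∈ f) : app f x = y :=
  Pool.Agent.P.MP_f1f2b3_lc.app_eq hp fun _ hz => h hz hp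

theorem Fn.mono {f g : M} (h : Fn f) (hs : g ⊆ f) : Fn g := fun _ _ _ h1 h2 => h (hs h1) (hs h2)

theorem found {a x : M} (h : x ∈ a) : ∃ x ∈ a, ∀ y ∈ x, y ∉ a := ZF.zf.foundation a ⟨x, h⟩

theorem mem_asymm {a b : M} (h : a ∈ b) : b ∉ a := fun h' => by
  obtain ⟨x, h1, h2⟩ := found (a := up a b) (x := a) (by simp)
  rcases mem_up.1 h1 with rfl | rfl
  exacts [h2 _ h' (by simp), h2 _ h (by simp)]

theorem mem_irrefl (a : M) : a ∉ a := fun h => mem_asymm h h

theorem mem_ne {a b : M} (h : a ∈ b) : a ≠ b := fun e => mem_irrefl b (e ▸ h)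

theorem sc_ne_empty (a : M) : sc a ≠ ∅ := fun h => not_mem_empty (h ▸ self_mem_sc a)

theorem sc_inj {a b : M} (h : sc a = sc b) : a = b := by
  rcases mem_sc.1 (h ▸ self_mem_sc a) with h1 | h1
  · rcases mem_sc.1 (h ▸ self_mem_sc b : b ∈ sc a) with h2 | h2
    exacts [(mem_asymm h1 h2).elim, h2.symm]
  · exact h1

end

section Fam

variable {I : Type w} {A : I → Type u} [∀ i, ZF (A i)] {K : (∀ i, A i) → Prop}

theorem Tm.ofMem {t : ∀ i, (ℕ → A i) → A i} (Q : ∀ i, (ℕ → A i) → A i → Prop)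
    (e : ∀ i v x, x ∈ t i v ↔ Q i v x) (h : Df K (fun i v => Q i (fun n => v (n + 1)) (v 0))) :
    Tm K t := by
  have h2 : Df K (fun i v => Q i (fun n => v (n + 1 + 1)) (v 0)) :=
    h.ren (cons 0 (fun n => n + 2))
  exact ⟨(inferInstance : Df K (fun i v => ∀ x, x ∈ v 0 ↔ Q i (fun n => v (n + 1)) x)).congr
    fun i v => ⟨fun h x => h ▸ e _ _ x, fun h => ext' fun x => (h x).trans (e _ _ x).symm⟩⟩

variable (s t : ∀ i, (ℕ → A i) → A i) [hs : Tm K s] [ht : Tm K t]

instance df_ss : Df K (fun i v => s i v ⊆ t i v) := df_Sub s t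

instance tm_empty : Tm K (fun _ _ => ∅) :=
  Tm.ofMem (fun _ _ _ => False) (fun _ _ _ => by simp) inferInstance

instance tm_up : Tm K (fun i v => up (s i v) (t i v)) :=
  Tm.ofMem _ (fun _ _ _ => mem_up) inferInstance

instance tm_sUn : Tm K (fun i v => sUn (s i v)) := Tm.ofMem _ (fun _ _ _ => mem_sUn) inferInstance

instance tm_pw : Tm K (fun i v => pw (s i v)) := Tm.ofMem _ (fun _ _ _ => mem_pw) inferInstance

instance tm_union : Tm K (fun i v => s i v ∪ t i v) :=
  Tm.ofMem _ (fun _ _ _ => mem_union) inferInstance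

instance tm_sep {P : ∀ i, (ℕ → A i) → A i → Prop}
    [h : Df K (fun i v => P i (fun n => v (n + 1)) (v 0))] :
    Tm K (fun i v => sep (s i v) (P i v)) :=
  Tm.ofMem _ (fun i v _ => mem_sep (h := h.fix1 i v)) inferInstance

instance tm_img {F : ∀ i, (ℕ → A i) → A i → A i}
    [h : Tm K (fun i v => F i (fun n => v (n + 1)) (v 0))] :
    Tm K (fun i v => img (F i v) (s i v)) := by
  have := fun s [Tm K s] => Tm.sub1 s h
  exact Tm.ofMem _ (fun i v _ => mem_img (h := h.fix1 i v)) inferInstance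

instance tm_the {P : ∀ i, (ℕ → A i) → A i → Prop}
    [h : Df K (fun i v => P i (fun n => v (n + 1)) (v 0))] : Tm K (fun i v => the (P i v)) := by
  have := fun s [Tm K s] => h.sub1 s
  exact Tm.ofMem _ (fun i v _ => mem_the) inferInstance

instance tm_pair : Tm K (fun i v => pair (s i v) (t i v)) := by unfold pair; infer_instance
instance tm_fst : Tm K (fun i v => fst (s i v)) := by unfold fst; infer_instance
instance tm_snd : Tm K (fun i v => snd (s i v)) := by unfold snd; infer_instance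
instance tm_app : Tm K (fun i v => app (s i v) (t i v)) := by unfold app; infer_instance
instance tm_sc : Tm K (fun i v => sc (s i v)) := by unfold sc; infer_instance
instance df_Fn : Df K (fun i v => Fn (s i v)) := by unfold Fn; infer_instance

open Classical in
instance tm_ite {P : ∀ i, (ℕ → A i) → Prop} [h : Df K P] :
    Tm K (fun i v => if P i v then s i v else t i v) :=
  Tm.ofMem (fun i v x => (P i v ∧ x ∈ s i v) ∨ (¬ P i v ∧ x ∈ t i v))
    (fun i v _ => by by_cases h : P i v <;> simp [h]) inferInstance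

end Fam

section

variable {M : Type u} [ZF M]

noncomputable instance ZF.instInter : Inter M := ⟨fun a b => sep a fun x => x ∈ b⟩
noncomputable instance ZF.instSDiff : SDiff M := ⟨fun a b => sep a fun x => x ∉ b⟩

@[simp] theorem mem_inter {a b x : M} : x ∈ a ∩ b ↔ x ∈ a ∧ x ∈ b := mem_sep
@[simp] theorem mem_sdiff {a b x : M} : x ∈ a \ b ↔ x ∈ a ∧ x ∉ b := mem_sep

theorem sep_ss {a : M} {P : M → Prop} [D1 fun v => P (v 0)] : sep a P ⊆ a :=
  fun _ h => (mem_sep.1 h).1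

theorem img_mem {F : M → M} [T1 fun v => F (v 0)] {a x : M} (h : x ∈ a) : F x ∈ img F a :=
  mem_img.2 ⟨x, h, rfl⟩

/-- indexed union -/
noncomputable def bun (F : M → M) (a : M) : M := sUn (img F a)

@[simp] theorem mem_bun {F : M → M} [T1 fun v => F (v 0)] {a y : M} :
    y ∈ bun F a ↔ ∃ x ∈ a, y ∈ F x := by
  simp only [bun, mem_sUn, mem_img]
  exact ⟨fun ⟨_, ⟨x, hx, e⟩, h⟩ => ⟨x, hx, e ▸ h⟩, fun ⟨x, hx, h⟩ => ⟨_, ⟨x, hx, rfl⟩, h⟩⟩

/-- cartesian product -/
noncomputable def prod (a b : M) : M := bun (fun x => img (fun y => pair x y) b) a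

theorem mem_prod {a b p : M} : p ∈ prod a b ↔ ∃ x ∈ a, ∃ y ∈ b, p = pair x y := by
  simp [prod, eq_comm]

@[simp] theorem pair_mem_prod {a b x y : M} : pair x y ∈ prod a b ↔ x ∈ a ∧ y ∈ b := by
  simp [mem_prod]

theorem prod_mono {a b c d : M} (h : a ⊆ c) (h' : b ⊆ d) : prod a b ⊆ prod c d := by
  intro p hp
  obtain ⟨x, hx, y, hy, rfl⟩ := mem_prod.1 hp
  exact pair_mem_prod.2 ⟨h hx, h' hy⟩

theorem prod_eta {a b p : M} (h : p ∈ prod a b) : pair (fst p) (snd p) = p := by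
  obtain ⟨x, -, y, -, rfl⟩ := mem_prod.1 h
  simp

theorem fst_mem {a b p : M} (h : p ∈ prod a b) : fst p ∈ a := by
  obtain ⟨x, hx, y, -, rfl⟩ := mem_prod.1 h
  simpa

theorem snd_mem {a b p : M} (h : p ∈ prod a b) : snd p ∈ b := by
  obtain ⟨x, -, y, hy, rfl⟩ := mem_prod.1 h
  simpa

/-- graph of a definable function on a set -/
noncomputable def graph (F : M → M) (a : M) : M := img (fun x => pair x (F x)) a

theorem mem_graph {F : M → M} [T1 fun v => F (v 0)] {a p : M} :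
    p ∈ graph F a ↔ ∃ x ∈ a, pair x (F x) = p := mem_img

@[simp] theorem pair_mem_graph {F : M → M} [T1 fun v => F (v 0)] {a x y : M} :
    pair x y ∈ graph F a ↔ x ∈ a ∧ F x = y := by
  simp only [mem_graph, pair_inj]
  exact ⟨fun ⟨z, hz, e1, e2⟩ => e1 ▸ ⟨hz, e2⟩, fun ⟨h, e⟩ => ⟨x, h, rfl, e⟩⟩

theorem fn_graph {F : M → M} [T1 fun v => F (v 0)] {a : M} : Fn (graph F a) :=
  fun _ _ _ h1 h2 => (pair_mem_graph.1 h1).2.symm.trans (pair_mem_graph.1 h2).2

theorem app_graph {F : M → M} [T1 fun v => F (v 0)] {a x : M} (h : x ∈ a) :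
    app (graph F a) x = F x := fn_graph.app_eq (pair_mem_graph.2 ⟨h, rfl⟩)

/-- restriction to first coordinates in `a` -/
noncomputable def res (f a : M) : M := sep f fun p => fst p ∈ a

@[simp] theorem mem_res {f a p : M} : p ∈ res f a ↔ p ∈ f ∧ fst p ∈ a := mem_sep

/-- the section of a relation -/
noncomputable def sl (f x : M) : M := img snd (sep f fun p => p = pair x (snd p))

@[simp] theorem mem_sl {f x y : M} : y ∈ sl f x ↔ pair x y ∈ f := by
  simp only [sl, mem_img, mem_sep]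
  exact ⟨fun ⟨p, ⟨h1, h2⟩, e⟩ => by rwa [← e, ← h2], fun h => ⟨_, ⟨h, by simp⟩, by simp⟩⟩

theorem sl_mono {f g : M} (h : f ⊆ g) (x : M) : sl f x ⊆ sl g x :=
  fun _ hy => mem_sl.2 (h (mem_sl.1 hy))

end

section Fam

variable {I : Type w} {A : I → Type u} [∀ i, ZF (A i)] {K : (∀ i, A i) → Prop}
variable (s t : ∀ i, (ℕ → A i) → A i) [hs : Tm K s] [ht : Tm K t]

instance tm_inter : Tm K (fun i v => s i v ∩ t i v) :=
  Tm.ofMem _ (fun _ _ _ => mem_inter) inferInstance

instance tm_sdiff : Tm K (fun i v => s i v \ t i v) :=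
  Tm.ofMem _ (fun _ _ _ => mem_sdiff) inferInstance

instance tm_bun {F : ∀ i, (ℕ → A i) → A i → A i}
    [h : Tm K (fun i v => F i (fun n => v (n + 1)) (v 0))] :
    Tm K (fun i v => bun (F i v) (s i v)) := by unfold bun; infer_instance

instance tm_graph {F : ∀ i, (ℕ → A i) → A i → A i}
    [h : Tm K (fun i v => F i (fun n => v (n + 1)) (v 0))] :
    Tm K (fun i v => graph (F i v) (s i v)) := by unfold graph; infer_instance

instance tm_prod : Tm K (fun i v => prod (s i v) (t i v)) := by unfold prod; infer_instance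
instance tm_res : Tm K (fun i v => res (s i v) (t i v)) := by unfold res; infer_instance
instance tm_sl : Tm K (fun i v => sl (s i v) (t i v)) := by unfold sl; infer_instance

end Fam

end Pool.Agent.P.MP_f1f2b3_lc
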