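import Pool.Agent.P.MP_f1f2b3_lc.Card

/-! Consequences of the partition relation. -/

set_option linter.unusedSectionVars false
set_option linter.unusedVariables false
set_option synthInstance.maxSize 4096

namespace Pool.Agent.P.MP_f1f2b3_lc

universe u w

section

variable {M : Type u} [ZF M]

/-- `b` is a limit of the sections of `F` -/
def Br (θ F b : M) : Prop := ∀ η ∈ θ, ∃ β ∈ θ, η ⊆ β ∧ ∀ ζ ∈ η, ζ ∈ b ↔ pair ζ β ∈ F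

/-- a union of `θ` small sets -/
def Flt (θ J : M) : Prop := ∃ T : M, (∀ η ∈ θ, Sm θ (app T η)) ∧
  (∀ η ∈ θ, ∀ ξ ∈ θ, η ⊆ ξ → app T η ⊆ app T ξ) ∧ ∀ j ∈ J, ∃ η ∈ θ, j ∈ app T η

theorem arrow_iff {θ : M} : Arrow Mem.E θ ↔ ∀ c : M, ∃ H : M, H ⊆ θ ∧ (∀ β ∈ θ, ∃ ξ ∈ H, β ∈ ξ) ∧
    ((∀ ξ ∈ H, ∀ η ∈ H, ξ ∈ η → pair ξ η ∈ c) ∨ ∀ ξ ∈ H, ∀ η ∈ H, ξ ∈ η → pair ξ η ∉ c) := by
  simp only [Arrow, rel_iff, E_iff, sub_iff]
  refine forall_congr' fun c => exists_congr fun H => and_congr_right fun _ =>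
    and_congr_right fun _ => or_congr ?_ ?_ <;>
  exact ⟨fun h a ha b hb => h a b ha hb, fun h a b ha hb => h a ha b hb⟩

open Classical in
theorem arrow_of_br {θ : M} (h : Ina θ) (H : ∀ F, ∃ b, Br θ F b) : Arrow Mem.E θ := by
  refine arrow_iff.2 fun c => ?_
  obtain ⟨b, hb⟩ := H c
  let G : M → M := rc fun β g =>
    if ∀ p ∈ g, ∅ ∈ snd p → (fst p ∈ b ↔ pair (fst p) β ∈ c) then sc ∅ else ∅
  have hG : ∀ β, ∅ ∈ G β ↔ ∀ ζ ∈ β, ∅ ∈ G ζ → (ζ ∈ b ↔ pair ζ β ∈ c) := fun β => by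
    have e : G β = _ := rc_eq _ β
    have e2 : (∀ p ∈ graph G β, ∅ ∈ snd p → (fst p ∈ b ↔ pair (fst p) β ∈ c)) ↔
        ∀ ζ ∈ β, ∅ ∈ G ζ → (ζ ∈ b ↔ pair ζ β ∈ c) :=
      ⟨fun h ζ hζ => by simpa using h _ (pair_mem_graph.2 ⟨hζ, rfl⟩), fun h p hp => by
        obtain ⟨ζ, hζ, rfl⟩ := mem_graph.1 hp
        simpa using h ζ hζ⟩
    rw [e, ← e2]
    split_ifs with h1
    · exact iff_of_true (self_mem_sc _) h1
    · exact iff_of_false not_mem_empty h1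
  have unb : ∀ η ∈ θ, ∃ β ∈ θ, η ⊆ β ∧ ∅ ∈ G β := fun η hη => by
    by_contra h1
    obtain ⟨β, h2, h3, h4⟩ := hb η hη
    refine h1 ⟨β, h2, h3, (hG β).2 fun ζ h5 h6 => h4 ζ ?_⟩
    have h7 := h.od.trans h5 h2
    exact ((h.od.mem h7).mem_or_ss (h.od.mem hη)).resolve_right fun h8 => h1 ⟨ζ, h7, h8, h6⟩
  by_cases h1 : ∀ β ∈ θ, ∃ ξ ∈ sep θ fun ξ => ∅ ∈ G ξ ∧ ξ ∈ b, β ∈ ξ
  · exact ⟨_, sep_ss, h1, Or.inl fun ξ a η a' h2 =>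
      ((hG η).1 (mem_sep.1 a').2.1 ξ h2 (mem_sep.1 a).2.1).1 (mem_sep.1 a).2.2⟩
  · push Not at h1
    obtain ⟨β, h2, h3⟩ := h1
    refine ⟨sep θ fun ξ => ∅ ∈ G ξ ∧ ξ ∉ b, sep_ss, fun γ hγ => ?_, Or.inr fun ξ a η a' h2 h4 =>
      (mem_sep.1 a).2.2 (((hG η).1 (mem_sep.1 a').2.1 ξ h2 (mem_sep.1 a).2.1).2 h4)⟩
    obtain ⟨ξ, a1, a2, a3⟩ := unb _ (h.od.union_mem (h.sc_mem h2) (h.sc_mem hγ))
    exact ⟨ξ, mem_sep.2 ⟨a1, a3, fun a4 => h3 ξ (mem_sep.2 ⟨a1, a3, a4⟩)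
      (a2 (ss_union_l (self_mem_sc β)))⟩, a2 (ss_union_r (self_mem_sc γ))⟩

end

variable {M : Type u} [Md M] {θ : M}

theorem Ina.flt_of (h : Ina θ) (T : M → M) [T1 fun v => T (v 0)] {J : M}
    (h1 : ∀ η ∈ θ, Sm θ (T η)) (h2 : ∀ j ∈ J, ∃ η ∈ θ, j ∈ T η) : Flt θ J := by
  refine ⟨graph (fun η => bun T (sc η)) θ, fun η hη => ?_, fun η hη ξ hξ e => ?_, fun j hj => ?_⟩
  · rw [app_graph hη]
    exact h.sm_bun (sm_mem (h.sc_mem hη)) T fun y hy => h1 y (h.od.trans hy (h.sc_mem hη))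
  · rw [app_graph hη, app_graph hξ]
    intro x hx
    obtain ⟨y, a, b⟩ := mem_bun.1 hx
    refine mem_bun.2 ⟨y, ?_, b⟩
    rcases mem_sc.1 a with a | rfl
    exacts [ss_sc _ (e a), mem_sc.2 ((h.od.mem hη).mem_or_eq (h.od.mem hξ) e)]
  · obtain ⟨η, a, b⟩ := h2 j hj
    exact ⟨η, a, by rw [app_graph a]; exact mem_bun.2 ⟨η, self_mem_sc η, b⟩⟩

theorem Ina.flt_self (h : Ina θ) : Flt θ θ :=
  h.flt_of sc (fun η hη => sm_mem (h.sc_mem hη)) fun j hj => ⟨j, hj, self_mem_sc j⟩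

theorem Ina.flt_sm (h : Ina θ) {J : M} (hJ : Sm θ J) : Flt θ J :=
  h.flt_of (fun _ => J) (fun _ _ => hJ) fun j hj => ⟨∅, h.empty_mem, hj⟩

theorem Ina.flt_img (h : Ina θ) {J : M} (hJ : Flt θ J) (F : M → M) [hF : T1 fun v => F (v 0)] :
    Flt θ (img F J) := by
  have := hF.use
  obtain ⟨T, h1, -, h3⟩ := hJ
  refine h.flt_of (fun η => img F (app T η)) (fun η hη => (h1 η hη).img F) fun j hj => ?_
  obtain ⟨x, a, rfl⟩ := mem_img.1 hj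
  obtain ⟨η, b, c⟩ := h3 x a
  exact ⟨η, b, img_mem c⟩

theorem Ina.flt_union (h : Ina θ) {I J : M} (hI : Flt θ I) (hJ : Flt θ J) : Flt θ (I ∪ J) := by
  obtain ⟨T, h1, -, h3⟩ := hI
  obtain ⟨T', h1', -, h3'⟩ := hJ
  refine h.flt_of (fun η => app T η ∪ app T' η) (fun η hη => h.sm_union (h1 η hη) (h1' η hη))
    fun j hj => ?_
  rcases mem_union.1 hj with a | a
  · exact (h3 j a).imp fun η b => ⟨b.1, ss_union_l b.2⟩
  · exact (h3' j a).imp fun η b => ⟨b.1, ss_union_r b.2⟩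

theorem Ina.flt_prod (h : Ina θ) {I J : M} (hI : Flt θ I) (hJ : Flt θ J) : Flt θ (prod I J) := by
  obtain ⟨T, h1, h2, h3⟩ := hI
  obtain ⟨T', h1', h2', h3'⟩ := hJ
  refine h.flt_of (fun η => prod (app T η) (app T' η)) (fun η hη => h.sm_prod (h1 η hη) (h1' η hη))
    fun j hj => ?_
  obtain ⟨x, a, y, b, rfl⟩ := mem_prod.1 hj
  obtain ⟨η, c, d⟩ := h3 x a
  obtain ⟨ξ, e, f⟩ := h3' y b
  have := h.od.union_mem c e
  exact ⟨_, this, pair_mem_prod.2 ⟨h2 _ c _ this ss_union_l d, h2' _ e _ this ss_union_r f⟩⟩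

theorem Ina.uf (h : Ina θ) (ha : Arrow Mem.E θ) {J : M} (hJ : Flt θ J) :
    ∃ U : M, ∀ J0, Sm θ J0 → J0 ⊆ J → ∀ η ∈ θ, ∃ β ∈ θ, η ⊆ β ∧ ∀ Y ∈ J0, Y ∈ U ↔ β ∈ Y := by
  obtain ⟨T, h1, h2, h3⟩ := hJ
  obtain ⟨ch, hch⟩ := ex_choice (pw (pw (bun (app T) θ)))
  let t : M → M → M := fun β η => sep (app T η) fun Y => β ∈ Y
  let d : M → M → M := fun β β' => lst fun η => η ∈ θ ∧ t β η ≠ t β' η
  obtain ⟨H, a1, a2, a3⟩ := arrow_iff.1 ha (sep (prod θ θ) fun z =>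
    app ch (up (t (fst z) (d (fst z) (snd z))) (t (snd z) (d (fst z) (snd z)))) =
      t (fst z) (d (fst z) (snd z)))
  have tm : ∀ β β', ∀ η ∈ θ, ∀ ξ ∈ θ, ξ ⊆ η → t β η = t β' η → t β ξ = t β' ξ :=
    fun β β' η hη ξ hξ e e' => ext' fun Y => by
      simp only [t, mem_sep]
      refine and_congr_right fun hY => ?_
      have := congrArg (Y ∈ ·) e'
      simpa [t, h2 ξ hξ η hη e hY] using this
  have conv : ∀ β1 ∈ H, ∀ β2 ∈ H, ∀ β3 ∈ H, β1 ∈ β2 → β2 ∈ β3 → ∀ η ∈ θ, t β1 η = t β3 η →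
      t β2 η = t β1 η := fun β1 b1 β2 b2 β3 b3 c1 c2 η hη e => by
    by_contra hn
    have s1 := lst_spec (fun η => η ∈ θ ∧ t β1 η ≠ t β2 η) (h.od.mem hη) ⟨hη, Ne.symm hn⟩
    have s2 := lst_ss (fun η => η ∈ θ ∧ t β1 η ≠ t β2 η) (h.od.mem hη) ⟨hη, Ne.symm hn⟩
    have e1 : t β1 (d β1 β2) = t β3 (d β1 β2) := tm _ _ η hη _ s1.2.1.1 s2 e
    have e2 : d β2 β3 = d β1 β2 := the_eq ⟨s1.1, ⟨s1.2.1.1, e1 ▸ s1.2.1.2.symm⟩, fun c hc h4 =>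
      s1.2.2 c hc ⟨h4.1, (tm _ _ η hη c h4.1 ((h.od.mem hη).tr (s2 hc)) e) ▸ h4.2.symm⟩⟩
      fun z hz => by
        rcases hz.1.tri s1.1 with h4 | h4 | h4
        · exact (s1.2.2 z h4 ⟨hz.2.1.1, (tm _ _ η hη z hz.2.1.1 ((h.od.mem hη).tr (s2 h4)) e) ▸
            hz.2.1.2.symm⟩).elim
        · exact h4
        · exact (hz.2.2 _ h4 ⟨s1.2.1.1, e1 ▸ s1.2.1.2.symm⟩).elim
    have e3 : up (t β2 (d β1 β2)) (t β1 (d β1 β2)) = up (t β1 (d β1 β2)) (t β2 (d β1 β2)) :=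
      up_eq_iff.2 (Or.inr ⟨rfl, rfl⟩)
    simp only [mem_sep, pair_mem_prod, fst_pair, snd_pair] at a3
    rcases a3 with a3 | a3
    · have f1 := (a3 β1 b1 β2 b2 c1).2
      have f2 := (a3 β2 b2 β3 b3 c2).2
      rw [e2, ← e1, e3] at f2
      exact s1.2.1.2 (f1.symm.trans f2)
    · have f1 := a3 β1 b1 β2 b2 c1
      have f2 := a3 β2 b2 β3 b3 c2
      rw [e2, ← e1, e3] at f2
      have := hch (up (t β1 (d β1 β2)) (t β2 (d β1 β2))) (mem_pw.2 fun x hx => mem_pw.2 fun y hy =>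
        mem_bun.2 ⟨_, s1.2.1.1, by rcases mem_up.1 hx with rfl | rfl <;> exact sep_ss hy⟩) _
        (mem_up.2 (Or.inl rfl))
      rcases mem_up.1 this with f | f
      exacts [f1 ⟨⟨a1 b1, a1 b2⟩, f⟩, f2 ⟨⟨a1 b2, a1 b3⟩, f⟩]
  have ev : ∀ η ∈ θ, ∃ β0 ∈ H, ∀ β ∈ H, β0 ∈ β → t β η = t β0 η := fun η hη => by
    by_cases h4 : ∃ u, ∀ ξ ∈ θ, ∃ β ∈ H, ξ ∈ β ∧ t β η = u
    · obtain ⟨u, hu⟩ := h4
      obtain ⟨β0, b1, -, b2⟩ := hu _ hη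
      refine ⟨β0, b1, fun β b3 b4 => ?_⟩
      obtain ⟨β3, b5, b6, b7⟩ := hu β (a1 b3)
      exact conv β0 b1 β b3 β3 b5 b4 b6 η hη (b2.trans b7.symm)
    · push Not at h4
      obtain ⟨ξ, b1, b2⟩ := h.bdd (fun u ξ => ∀ β ∈ H, ξ ∈ β → t β η ≠ u) (h.sm_pw (h1 η hη))
        fun u _ => h4 u
      obtain ⟨β, b3, b4⟩ := a2 ξ b1
      obtain ⟨ξ', b5, b6⟩ := b2 (t β η) (mem_pw.2 sep_ss)
      exact (b6 β b3 ((h.od.mem (a1 b3)).trans b5 b4) rfl).elim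
  refine ⟨sep J fun Y => ∃ β0 ∈ H, ∀ β ∈ H, β0 ∈ β → β ∈ Y, fun J0 b1 b2 η hη => ?_⟩
  obtain ⟨η', b3, b4⟩ := h.bdd (fun j ξ => j ∈ app T ξ) b1 fun j hj => h3 j (b2 hj)
  obtain ⟨β0, b5, b6⟩ := ev η' b3
  have key : ∀ Y ∈ J0, ∀ β ∈ H, β0 ∈ β → (β ∈ Y ↔ β0 ∈ Y) := fun Y hY β c1 c2 => by
    obtain ⟨ξ, c3, c4⟩ := b4 Y hY
    have := congrArg (Y ∈ ·) (b6 β c1 c2)
    simpa [t, h2 ξ (h.od.trans c3 b3) η' b3 ((h.od.mem b3).tr c3) c4] using this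
  have up2 : ∀ x ∈ θ, ∃ β ∈ H, β0 ∈ β ∧ x ∈ β := fun x hx => by
    obtain ⟨β, c1, c2⟩ := a2 _ (h.od.union_mem (a1 b5) hx)
    exact ⟨β, c1, (h.od.mem (a1 b5)).mem_of_ss (h.od.mem (a1 c1)) ss_union_l c2,
      (h.od.mem hx).mem_of_ss (h.od.mem (a1 c1)) ss_union_r c2⟩
  obtain ⟨β, c1, c2, c3⟩ := up2 η hη
  refine ⟨β, a1 c1, (h.od.mem (a1 c1)).tr c3, fun Y hY => ?_⟩
  rw [mem_sep, key Y hY β c1 c2]
  refine ⟨fun ⟨_, β1, c4, c5⟩ => ?_, fun c4 => ⟨b2 hY, β0, b5, fun β' c5 c6 =>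
    (key Y hY β' c5 c6).2 c4⟩⟩
  obtain ⟨β', c6, c7, c8⟩ := up2 β1 (a1 c4)
  exact (key Y hY β' c6 c7).1 (c5 β' c6 c8)

theorem Ina.nu (h : Ina θ) (ha : Arrow Mem.E θ) {I J : M} (hI : Flt θ I) (hJ : Flt θ J) (k : M)
    (hk : ∀ i ∈ I, ∀ α ∈ θ, app k (pair i α) ∈ θ) :
    ∃ U c : M, (∀ i ∈ I, app c i ∈ θ) ∧ ∀ I0 J0, Sm θ I0 → I0 ⊆ I → Sm θ J0 → J0 ⊆ J → ∀ η ∈ θ,
      ∃ α ∈ θ, η ⊆ α ∧ (∀ Y ∈ J0, Y ∈ U ↔ α ∈ Y) ∧
        ∀ i ∈ I0, app k (pair i α) ∈ α → app k (pair i α) ∈ app c i := by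
  obtain ⟨T, h1, h2, h3⟩ := hI
  let cp : M → M := fun z => graph (fun β => app k (pair (fst z) (app (snd z) β))) θ
  let id0 : M := graph (fun β => β) θ
  let St : M → M → M := fun η n => iter (fun _ x => x ∪ img cp (prod (app T η ∩ I) x)) (up id0 id0) n
  have tS : ∀ s t [T1 s] [T1 t], T1 fun v => St (s v) (t v) := fun s t _ _ => by
    unfold St iter; infer_instance
  have S0 : ∀ η, St η ∅ = up id0 id0 := fun η => iter_zero _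
  have S1 : ∀ η n, St η (sc n) = St η n ∪ img cp (prod (app T η ∩ I) (St η n)) :=
    fun η n => iter_sc _ _
  let 𝔉 : M := bun (fun η => bun (St η) om) θ
  have hF : Flt θ 𝔉 := h.flt_of (fun η => bun (St η) om) (fun η hη => h.sm_bun (sm_mem h.om_mem) _
    (om_ind _ (S0 η ▸ h.sm_ct (ct_up _ _)) fun n _ ih => S1 η n ▸ h.sm_union ih
      ((h.sm_prod ((h1 η hη).mono sep_ss) ih).img cp))) fun j hj => mem_bun.1 hj
  have Fθ : ∀ κ ∈ 𝔉, ∀ β ∈ θ, app κ β ∈ θ := fun κ hκ => by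
    obtain ⟨η, -, a⟩ := mem_bun.1 hκ
    obtain ⟨n, hn, a⟩ := mem_bun.1 a
    refine om_ind (fun n => ∀ κ ∈ St η n, ∀ β ∈ θ, app κ β ∈ θ) (fun κ a β b => ?_)
      (fun n _ ih κ a β b => ?_) n hn κ a
    · rw [S0, mem_up, or_self] at a
      rwa [a, app_graph b]
    · rw [S1, mem_union] at a
      rcases a with a | a
      · exact ih κ a β b
      · obtain ⟨z, c, rfl⟩ := mem_img.1 a
        rw [app_graph b]
        exact hk _ (mem_inter.1 (fst_mem c)).2 _ (ih _ (snd_mem c) β b)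
  have Fid : id0 ∈ 𝔉 := mem_bun.2 ⟨∅, h.empty_mem, mem_bun.2 ⟨∅, empty_mem_om, by simp [S0]⟩⟩
  have Fcp : ∀ i ∈ I, ∀ κ ∈ 𝔉, cp (pair i κ) ∈ 𝔉 := fun i hi κ hκ => by
    obtain ⟨η, hη, a⟩ := mem_bun.1 hκ
    obtain ⟨n, hn, a⟩ := mem_bun.1 a
    obtain ⟨ξ, b, c⟩ := h3 i hi
    have d := h.od.union_mem hη b
    have : ∀ n ∈ (om : M), St η n ⊆ St (η ∪ ξ) n := om_ind _ (by rw [S0, S0]; exact ss_rfl)
      fun n _ ih => by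
        rw [S1, S1]
        refine union_ss (ss_trans ih ss_union_l) fun y hy => ss_union_r ?_
        obtain ⟨z, e, rfl⟩ := mem_img.1 hy
        exact img_mem (prod_mono (fun x hx => mem_inter.2 ⟨h2 _ hη _ d ss_union_l
          (mem_inter.1 hx).1, (mem_inter.1 hx).2⟩) ih e)
    exact mem_bun.2 ⟨_, d, mem_bun.2 ⟨_, sc_mem_om hn, S1 _ n ▸ ss_union_r (img_mem
      (pair_mem_prod.2 ⟨mem_inter.2 ⟨h2 _ b _ d ss_union_r c, hi⟩, this n hn a⟩))⟩⟩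
  let lt : M → M := fun z => sep θ fun β => app (fst z) β ∈ app (snd z) β
  let pre : M → M := fun z => sep θ fun β => app (fst z) β ∈ snd z
  obtain ⟨U, hU⟩ := h.uf ha (h.flt_union (h.flt_img (h.flt_prod hF hF) lt)
    (h.flt_img (h.flt_prod hF (h.flt_union hJ h.flt_self)) pre))
  have m1 : ∀ κ ∈ 𝔉, ∀ κ' ∈ 𝔉, lt (pair κ κ') ∈
      img lt (prod 𝔉 𝔉) ∪ img pre (prod 𝔉 (J ∪ θ)) :=
    fun κ a κ' b => ss_union_l (img_mem (pair_mem_prod.2 ⟨a, b⟩))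
  have m2 : ∀ κ ∈ 𝔉, ∀ Y ∈ J ∪ θ, pre (pair κ Y) ∈
      img lt (prod 𝔉 𝔉) ∪ img pre (prod 𝔉 (J ∪ θ)) :=
    fun κ a κ' b => ss_union_r (img_mem (pair_mem_prod.2 ⟨a, b⟩))
  obtain ⟨κ, a1, a2, a3⟩ : ∃ κ ∈ 𝔉, (∀ γ ∈ θ, pre (pair κ γ) ∉ U) ∧
      ∀ κ' ∈ 𝔉, lt (pair κ' κ) ∈ U → ∃ γ ∈ θ, pre (pair κ' γ) ∈ U := by
    by_contra hn
    push Not at hn
    obtain ⟨f, -, hf⟩ := dc (sep 𝔉 fun κ => ∀ γ ∈ θ, pre (pair κ γ) ∉ U)
      (fun _ κ κ' => lt (pair κ' κ) ∈ U) (a := id0) (mem_sep.2 ⟨Fid, fun γ hγ h4 => by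
        obtain ⟨β, a, b, c⟩ := hU _ (h.sm_ct (ct_up (pre (pair id0 γ)) (pre (pair id0 γ))))
          (fun x hx => by
            rw [mem_up, or_self] at hx
            exact hx ▸ m2 _ Fid _ (ss_union_r hγ)) γ hγ
        have := (c _ (mem_up.2 (Or.inl rfl))).1 h4
        simp only [pre, mem_sep, fst_pair, snd_pair, id0, app_graph a] at this
        exact not_ss_of_mem this.2 b⟩) fun _ _ κ hκ => by
        obtain ⟨κ', a, b, c⟩ := hn κ (mem_sep.1 hκ).1 (mem_sep.1 hκ).2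
        exact ⟨κ', mem_sep.2 ⟨a, c⟩, b⟩
    obtain ⟨β, -, -, c⟩ := hU _ (h.sm_ct (ct_om.img fun n => lt (pair (app f (sc n)) (app f n))))
      (fun x hx => by
        obtain ⟨n, hn, rfl⟩ := mem_img.1 hx
        exact m1 _ (mem_sep.1 (hf _ (sc_mem_om hn)).1).1 _ (mem_sep.1 (hf _ hn).1).1) ∅ h.empty_mem
    obtain ⟨x, d, e⟩ := found (a := img (fun n => app (app f n) β) om) (img_mem empty_mem_om)
    obtain ⟨n, hn, rfl⟩ := mem_img.1 d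
    have := (c _ (mem_img.2 ⟨n, hn, rfl⟩)).1 (hf n hn).2
    simp only [lt, mem_sep, fst_pair, snd_pair] at this
    exact e _ this.2 (mem_img.2 ⟨_, sc_mem_om hn, rfl⟩)
  obtain ⟨c, hc⟩ := skolem (fun i γ => γ ∈ θ ∧ (lt (pair (cp (pair i κ)) κ) ∈ U →
      pre (pair (cp (pair i κ)) γ) ∈ U)) I fun i hi => by
    by_cases h4 : lt (pair (cp (pair i κ)) κ) ∈ U
    · exact (a3 _ (Fcp i hi κ a1) h4).imp fun γ a => ⟨a.1, fun _ => a.2⟩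
    · exact ⟨∅, h.empty_mem, fun h5 => (h4 h5).elim⟩
  refine ⟨sep J fun Y => pre (pair κ Y) ∈ U, c, fun i hi => (hc i hi).1,
    fun I0 J0 b1 b2 b3 b4 η hη => ?_⟩
  obtain ⟨β, c1, -, c2⟩ := hU _ (h.sm_union
    ((h.sm_union b3 (h.sm_ct (ct_up η η))).img fun Y => pre (pair κ Y)) (h.sm_union
      (b1.img fun i => lt (pair (cp (pair i κ)) κ))
      (b1.img fun i => pre (pair (cp (pair i κ)) (app c i))))) (union_ss (fun x hx => by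
        obtain ⟨Y, a, rfl⟩ := mem_img.1 hx
        refine m2 _ a1 _ ((mem_union.1 a).elim (fun a => ss_union_l (b4 a)) fun a => ?_)
        rw [mem_up, or_self] at a
        exact a ▸ ss_union_r hη) (union_ss (fun x hx => by
        obtain ⟨i, a, rfl⟩ := mem_img.1 hx
        exact m1 _ (Fcp i (b2 a) κ a1) _ a1) fun x hx => by
        obtain ⟨i, a, rfl⟩ := mem_img.1 hx
        exact m2 _ (Fcp i (b2 a) κ a1) _ (ss_union_r (hc i (b2 a)).1))) ∅ h.empty_mem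
  have c3 := Fθ κ a1 β c1
  refine ⟨app κ β, c3, (h.od.mem c3).ss_of_not_mem (h.od.mem hη) fun h4 => a2 η hη ?_,
    fun Y hY => ?_, fun i hi h4 => ?_⟩
  · exact (c2 _ (ss_union_l (mem_img.2 ⟨η, by simp, rfl⟩))).2 (by simp [pre, c1, h4])
  · rw [mem_sep, c2 _ (ss_union_l (mem_img.2 ⟨Y, ss_union_l hY, rfl⟩))]
    simp [pre, c1, b4 hY]
  · have := (c2 _ (ss_union_r (ss_union_r (mem_img.2 ⟨i, hi, rfl⟩)))).1 ((hc i (b2 hi)).2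
      ((c2 _ (ss_union_r (ss_union_l (mem_img.2 ⟨i, hi, rfl⟩)))).2
        (by simpa [lt, c1, cp, app_graph c1] using h4)))
    simpa [pre, c1, cp, app_graph c1] using this

instance df_Unc (s : (ℕ → M) → M) [T1 s] : D1 fun v => Unc (s v) := by unfold Unc; infer_instance

theorem Ina.nup (h : Ina θ) (ha : Arrow Mem.E θ) (Q : M → M → Prop)
    [hQ : D1 fun v => Q (v 0) (v 1)] (HQ : ∀ γ ∈ θ, ∃ δ ∈ θ, Q γ δ) (T : M → M)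
    [hT : T1 fun v => T (v 0)] (HT : ∀ γ ∈ θ, Sm θ (T γ)) (R : M → M → M → Prop)
    [hR : D1 fun v => R (v 0) (v 1) (v 2)] {I : M} (hI : Flt θ I)
    (H : ∀ i ∈ I, ∃ η ∈ θ, ∀ α ∈ θ, η ⊆ α → (∀ γ ∈ α, ∃ δ ∈ α, Q γ δ) → Unc α →
      ∃ γ ∈ α, ∃ u ∈ T γ, R i α u) :
    ∃ c : M, ∀ I0, Sm θ I0 → I0 ⊆ I → ∀ η ∈ θ, ∃ α ∈ θ, η ⊆ α ∧ ∀ i ∈ I0, R i α (app c i) := by
  have := hQ.use2
  have := hT.use
  have := hR.use3
  obtain ⟨e, he⟩ := skolem (fun (α : M) e => ¬ Unc α → ∀ δ ∈ α, ∃ n ∈ (om : M),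
      app e n ∈ α ∧ app e n ∉ δ) θ fun α _ => by
    by_cases h1 : Unc α
    · exact ⟨∅, fun h2 => (h2 h1).elim⟩
    · simp only [Unc, not_forall, not_exists, not_and, subset_def] at h1
      obtain ⟨x, a, ⟨f, b⟩, c⟩ := h1
      refine ⟨f, fun _ δ hδ => ?_⟩
      obtain ⟨y, d, d'⟩ := c δ hδ
      obtain ⟨n, g, rfl⟩ := b y d
      exact ⟨n, g, a _ d, d'⟩
  obtain ⟨k, hk⟩ := skolem (fun (z : M) y => y ∈ θ ∧
      ((¬ ∀ γ ∈ snd z, ∃ δ ∈ snd z, Q γ δ) → y ∈ snd z ∧ ¬ ∃ δ ∈ snd z, Q y δ) ∧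
      ((∀ γ ∈ snd z, ∃ δ ∈ snd z, Q γ δ) → (¬ Unc (snd z) →
        app (app e (snd z)) (snd (fst z)) ∈ snd z → y = app (app e (snd z)) (snd (fst z))) ∧
        (Unc (snd z) → (∃ γ ∈ snd z, ∃ u ∈ T γ, R (fst (fst z)) (snd z) u) →
          y ∈ snd z ∧ ∃ u ∈ T y, R (fst (fst z)) (snd z) u)))
      (prod (prod (I ∪ up ∅ ∅) om) θ) fun z hz => by
    have a := snd_mem hz
    by_cases h1 : ∀ γ ∈ snd z, ∃ δ ∈ snd z, Q γ δ
    · by_cases h2 : Unc (snd z)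
      · by_cases h3 : ∃ γ ∈ snd z, ∃ u ∈ T γ, R (fst (fst z)) (snd z) u
        · obtain ⟨γ, b, c⟩ := h3
          exact ⟨γ, h.od.trans b a, fun g => (g h1).elim,
            fun _ => ⟨fun g => (g h2).elim, fun _ _ => ⟨b, c⟩⟩⟩
        · exact ⟨∅, h.empty_mem, fun g => (g h1).elim,
            fun _ => ⟨fun g => (g h2).elim, fun _ g => (h3 g).elim⟩⟩
      · by_cases h3 : app (app e (snd z)) (snd (fst z)) ∈ snd z
        · exact ⟨_, h.od.trans h3 a, fun g => (g h1).elim,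
            fun _ => ⟨fun _ _ => rfl, fun g => (h2 g).elim⟩⟩
        · exact ⟨∅, h.empty_mem, fun g => (g h1).elim,
            fun _ => ⟨fun _ g => (h3 g).elim, fun g => (h2 g).elim⟩⟩
    · obtain ⟨γ, b⟩ := not_forall.1 h1
      exact ⟨γ, h.od.trans (Classical.not_imp.1 b).1 a, fun _ => Classical.not_imp.1 b,
        fun g => (h1 g).elim⟩
  obtain ⟨m, hm⟩ := skolem (fun z u => (∃ u ∈ T (app k (pair (pair (fst z) ∅) (snd z))),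
      R (fst z) (snd z) u) → u ∈ T (app k (pair (pair (fst z) ∅) (snd z))) ∧ R (fst z) (snd z) u)
      (prod I θ) fun z _ => by
    by_cases h1 : ∃ u ∈ T (app k (pair (pair (fst z) ∅) (snd z))), R (fst z) (snd z) u
    exacts [h1.imp fun u a _ => a, ⟨∅, fun h2 => (h1 h2).elim⟩]
  let Y : M → M := fun z => sep θ fun α => app m (pair (fst z) α) = snd z
  obtain ⟨U, c, a1, a2⟩ := h.nu ha (h.flt_prod (h.flt_union hI (h.flt_sm (h.sm_ct (ct_up ∅ ∅))))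
    (h.flt_sm (sm_mem h.om_mem))) (h.flt_img (h.flt_prod hI (h.flt_of T HT
      fun j hj => mem_bun.1 hj : Flt θ (bun T θ))) Y) k fun i hi α hα =>
      (hk _ (pair_mem_prod.2 ⟨hi, hα⟩)).1
  have z0 : ∀ n ∈ (om : M), pair ∅ n ∈ prod (I ∪ up ∅ ∅) om := fun n hn => by simp [hn]
  obtain ⟨η1, b1, b2⟩ := h.bdd Q (sm_mem (a1 _ (z0 _ empty_mem_om)))
    fun x hx => HQ x (h.od.trans hx (a1 _ (z0 _ empty_mem_om)))
  obtain ⟨η2, b3, b4⟩ := h.bdd (fun n ξ => app c (pair ∅ n) = ξ) (sm_mem h.om_mem)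
    fun n hn => ⟨_, a1 _ (z0 n hn), rfl⟩
  have key : ∀ I0 J0, Sm θ I0 → I0 ⊆ I → Sm θ J0 → J0 ⊆ img Y (prod I (bun T θ)) → ∀ η ∈ θ,
      ∃ α ∈ θ, η ⊆ α ∧ (∀ Y ∈ J0, Y ∈ U ↔ α ∈ Y) ∧ ∀ i ∈ I0, R i α (app m (pair i α)) ∧
        app m (pair i α) ∈ bun T (app c (pair i ∅)) := fun I0 J0 c1 c2 c3 c4 η hη => by
    obtain ⟨η3, c5, c6⟩ := h.bdd (fun i η => ∀ α ∈ θ, η ⊆ α → (∀ γ ∈ α, ∃ δ ∈ α, Q γ δ) → Unc α →
      ∃ γ ∈ α, ∃ u ∈ T γ, R i α u) c1 fun i hi => H i (c2 hi)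
    obtain ⟨α, d1, d2, d3, d4⟩ := a2 _ J0 (h.sm_prod (h.sm_union c1 (h.sm_ct (ct_up ∅ ∅)))
      (sm_mem h.om_mem)) (prod_mono (union_ss (ss_trans c2 ss_union_l) ss_union_r) ss_rfl) c3 c4 _
      (h.od.union_mem (h.od.union_mem hη c5) (h.od.union_mem b1 (h.sc_mem b3)))
    have g1 : ∀ γ ∈ α, ∃ δ ∈ α, Q γ δ := by
      by_contra h1
      have := hk _ (pair_mem_prod.2 ⟨z0 _ empty_mem_om, d1⟩)
      simp only [fst_pair, snd_pair] at this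
      obtain ⟨e1, e2⟩ := this.2.1 h1
      obtain ⟨δ, e3, e4⟩ := b2 _ (d4 _ (by simp [empty_mem_om]) e1)
      exact e2 ⟨δ, d2 (ss_union_r (ss_union_l e3)), e4⟩
    have g2 : Unc α := by
      by_contra h1
      obtain ⟨n, e1, e2, e3⟩ := he α d1 h1 η2 (d2 (ss_union_r (ss_union_r (self_mem_sc _))))
      have := hk _ (pair_mem_prod.2 ⟨z0 _ e1, d1⟩)
      simp only [fst_pair, snd_pair] at this
      have e4 := (this.2.2 g1).1 h1 e2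
      obtain ⟨_, e5, rfl⟩ := b4 n e1
      exact e3 ((h.od.mem b3).trans (e4 ▸ d4 _ (by simp [e1]) (e4 ▸ e2)) e5)
    refine ⟨α, d1, ss_trans ss_union_l (ss_trans ss_union_l d2), d3, fun i hi => ?_⟩
    obtain ⟨ξ, e1, e2⟩ := c6 i hi
    have := hk (pair (pair i ∅) α) (by simp [c2 hi, empty_mem_om, d1])
    simp only [fst_pair, snd_pair] at this
    obtain ⟨e3, e4⟩ := (this.2.2 g1).2 g2 (e2 α d1 (ss_trans ((h.od.mem c5).tr e1)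
      (ss_trans ss_union_r (ss_trans ss_union_l d2))) g1 g2)
    have := hm (pair i α) (by simp [c2 hi, d1])
    simp only [fst_pair, snd_pair] at this
    exact ⟨(this e4).2, mem_bun.2 ⟨_, d4 _ (by simp [hi, empty_mem_om]) e3, (this e4).1⟩⟩
  obtain ⟨c', hc⟩ := skolem (fun i u => u ∈ bun T θ ∧ Y (pair i u) ∈ U) I fun i hi => by
    have e0 := a1 (pair i ∅) (by simp [hi, empty_mem_om])
    have e1 : bun T (app c (pair i ∅)) ⊆ bun T θ := fun x hx =>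
      let ⟨y, a, b⟩ := mem_bun.1 hx; mem_bun.2 ⟨y, h.od.trans a e0, b⟩
    obtain ⟨α, d1, -, d3, d4⟩ := key _ _ (h.sm_ct (ct_up i i)) (fun x hx => by
      rw [mem_up, or_self] at hx; exact hx ▸ hi) ((h.sm_bun (sm_mem e0) T fun y hy =>
        HT y (h.od.trans hy e0)).img fun u => Y (pair i u)) (fun x hx => by
        obtain ⟨u, a, rfl⟩ := mem_img.1 hx
        exact img_mem (pair_mem_prod.2 ⟨hi, e1 a⟩)) ∅ h.empty_mem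
    have e2 := (d4 i (by simp)).2
    exact ⟨_, e1 e2, (d3 _ (mem_img.2 ⟨_, e2, rfl⟩)).2 (by simp [Y, d1])⟩
  refine ⟨c', fun I0 c1 c2 η hη => ?_⟩
  obtain ⟨α, d1, d2, d3, d4⟩ := key _ _ c1 c2 (c1.img fun i => Y (pair i (app c' i))) (fun x hx => by
    obtain ⟨i, a, rfl⟩ := mem_img.1 hx
    exact img_mem (pair_mem_prod.2 ⟨c2 a, (hc i (c2 a)).1⟩)) η hη
  refine ⟨α, d1, d2, fun i hi => ?_⟩
  have := (d3 _ (mem_img.2 ⟨i, hi, rfl⟩)).1 (hc i (c2 hi)).2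
  simp only [Y, mem_sep, fst_pair, snd_pair] at this
  exact this.2 ▸ (d4 i hi).1

end Pool.Agent.P.MP_f1f2b3_lc
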