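import Pool.Agent.P.MP_f1f2b3_lc.Levy
import Pool.Agent.P.MP_f1f2b3_lc.WC

/-! The statement which holds after the collapse exactly when weak compactness fails. -/

set_option linter.unusedSectionVars false
set_option linter.unusedVariables false
set_option synthInstance.maxSize 4096

namespace Pool.Agent.P.MP_f1f2b3_lc

universe u w

section

variable {M : Type u} [ZF M]

/-- the set `{2, 3}` -/
noncomputable def d23 : M := up (sc (sc ∅)) (sc (sc (sc ∅)))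

/-- the universe -/
noncomputable def XX (θ : M) : M := prod θ (SS θ)

/-- level bound -/
def LvX (x γ : M) : Prop := fst x ∈ γ ∧ Lv' (snd x) γ

/-- bounded sections -/
def Bd (θ R : M) : Prop := ∀ β ∈ θ, ∃ γ ∈ θ, ∀ x ∈ XX θ, pair β x ∈ R → LvX x γ

/-- bounded sections -/
def Bd2 (θ Y : M) : Prop :=
  ∀ β ∈ θ, ∃ γ ∈ θ, ∀ p ∈ Lev θ, ∀ x ∈ XX θ, pair β (pair p x) ∈ Y → Lv p γ ∧ LvX x γ

/-- witnesses -/
def Wit (θ : M) (Y : M → M → Prop) (o ζ β m s : M) : Prop :=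
  cut' s β ⊆ o ∧ ∀ n ∈ (om : M), ∃ p ∈ Lev θ, ∃ s' ∈ SS θ, p ⊆ sl s m ∧ s' ⊆ s ∧
    Y n (pair β (pair p (pair ζ s')))

/-- closure points with a witness -/
def AA (θ : M) (Y : M → M → Prop) (o ζ β : M) : Prop :=
  (∀ n ∈ (om : M), ∀ β' ∈ β, ∀ p ∈ Lev θ, ∀ s ∈ SS θ, Y n (pair β' (pair p (pair ζ s))) →
    Lv p β ∧ Lv' s β) ∧ ∃ m ∈ (d23 : M), ∃ s ∈ SS θ, Wit θ Y o ζ β m s

/-- order isomorphism between `i` and the part of `A` below `β` -/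
def Iso (A : M → Prop) (β i e : M) : Prop :=
  (∀ x ∈ i, ∃ y ∈ β, pair x y ∈ e) ∧ (∀ y ∈ β, A y → ∃ x ∈ i, pair x y ∈ e) ∧
    ∀ x ∈ i, ∀ y ∈ β, pair x y ∈ e → A y ∧ ∀ x' ∈ i, ∀ y' ∈ β, pair x' y' ∈ e → (x ∈ x' ↔ y ∈ y')

/-- order type -/
def Ot (θ : M) (A : M → Prop) (β i : M) : Prop := ∃ e ∈ cs (prod w1 θ), Iso A β i e

/-- the pattern is captured -/
def ConcA (θ : M) (F f Y : M → M → Prop) (o ζ j : M) : Prop :=
  ∀ i ∈ (w1 : M), ∀ β ∈ θ, AA θ Y o ζ β → Ot θ (AA θ Y o ζ) β i → (F ζ β ↔ f j i)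

/-- genericity -/
def ConcB (θ : M) (g : M → Prop) (Y : M → M → Prop) (o ζ : M) : Prop :=
  ∀ q ∈ Lev θ, ∃ i ∈ (w1 : M), ∃ β ∈ θ, AA θ Y o ζ β ∧ Ot θ (AA θ Y o ζ) β i ∧
    ∃ m ∈ (d23 : M), ∃ s ∈ SS θ, Wit θ Y o ζ β m s ∧ (∀ a ∈ sl s m, g a) ∧
      ∀ z ∈ s, ∀ a ∈ q, lv a = lv (snd z) → lv a ∈ β

/-- the fourth clause for one sequence -/
def Q4 (θ : M) (F f : M → M → Prop) (g : M → Prop) (Y : M → M → Prop) : Prop :=
  ∀ o ∈ SS θ, ∀ ζ ∈ θ, (∀ m ∈ (d23 : M), ∀ a ∈ sl o m, g a) →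
    (∀ η ∈ θ, ∃ β ∈ θ, η ⊆ β ∧ AA θ Y o ζ β) →
    (∃ j ∈ (w1 : M), ConcA θ F f Y o ζ j) ∧ ConcB θ g Y o ζ

/-- `Y` names `R` -/
def Nm (θ : M) (g : M → Prop) (R Y : M → Prop) : Prop :=
  ∀ β ∈ θ, ∀ x ∈ XX θ, R (pair β x) ↔ ∃ p ∈ Lev θ, (∀ a ∈ p, g a) ∧ Y (pair β (pair p x))

/-- the body of the statement -/
def Body (θ F g N f : M) : Prop :=
  (∀ b, ¬ Br θ F b) ∧ Fn g ∧
    (∀ R, R ⊆ prod θ (XX θ) → Bd θ R → ∃ Y ∈ N, Y ⊆ prod θ (prod (Lev θ) (XX θ)) ∧ Bd2 θ Y ∧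
      Nm θ (· ∈ g) (· ∈ R) (· ∈ Y)) ∧
    ∀ Y, Y ⊆ prod om N → Fn Y →
      Q4 θ (fun a b => pair a b ∈ F) (fun a b => pair a b ∈ f) (· ∈ g) fun n y => y ∈ app Y n

end

section Fam

variable {I : Type w} {A : I → Type u} [∀ i, ZF (A i)] {K : (∀ i, A i) → Prop}
variable (s t : ∀ i, (ℕ → A i) → A i) [hs : Tm K s] [ht : Tm K t]

instance tm_d23 : Tm K (fun _ _ => d23) := by unfold d23; infer_instance
instance tm_XX : Tm K (fun i v => XX (s i v)) := by unfold XX; infer_instance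
instance df_LvX : Df K (fun i v => LvX (s i v) (t i v)) := by unfold LvX; infer_instance
instance df_Bd : Df K (fun i v => Bd (s i v) (t i v)) := by unfold Bd; infer_instance
instance df_Bd2 : Df K (fun i v => Bd2 (s i v) (t i v)) := by unfold Bd2; infer_instance

theorem df_Body : Df K (fun i v => Body (v 0) (v 1) (v 2) (v 3) (v 4)) := by
  unfold Body Br Nm Q4 ConcA ConcB Ot Iso AA Wit; infer_instance

end Fam

namespace Emb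

variable {M N : Type u} [ZF M] [ZF N] {j : M → N} (h : Emb j)
include h

theorem the {P : M → Prop} {Q : N → Prop} (h1 : ∀ y, Q y → ∃ x, y = j x)
    (h2 : ∀ x, P x ↔ Q (j x)) : j (the P) = MP_f1f2b3_lc.the Q := by
  refine h.eq_of (fun y hy => ?_) fun x => ?_
  · obtain ⟨z, a, b⟩ := mem_the.1 hy
    obtain ⟨x, rfl⟩ := h1 z ((a z).2 rfl)
    exact h.ex b
  · simp only [mem_the]
    refine ⟨fun ⟨y, a, b⟩ => ⟨j y, fun z => ⟨fun c => ?_, fun c => c ▸ (h2 y).1 ((a y).2 rfl)⟩,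
      h.mem_iff.2 b⟩, fun ⟨z, a, b⟩ => ?_⟩
    · obtain ⟨x, rfl⟩ := h1 z c
      rw [(a x).1 ((h2 x).2 c)]
    · obtain ⟨y, rfl⟩ := h1 z ((a z).2 rfl)
      exact ⟨y, fun x => (h2 x).trans ((a _).trans h.eq_iff), h.mem_iff.1 b⟩

theorem ex_pair' {p : M} {a b : N} (hp : j p = MP_f1f2b3_lc.pair a b) :
    ∃ x y, a = j x ∧ b = j y :=
  h.ex_pair (f := MP_f1f2b3_lc.up p p) (by rw [h.up, ← hp]; simp)

theorem fst (p : M) : j (fst p) = MP_f1f2b3_lc.fst (j p) :=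
  h.the (fun y ⟨_, e⟩ => let ⟨x, _, a, _⟩ := h.ex_pair' e; ⟨x, a⟩) fun x =>
    ⟨fun ⟨b, e⟩ => ⟨j b, by rw [e, h.pair]⟩, fun ⟨b, e⟩ => by
      obtain ⟨-, b, -, rfl⟩ := h.ex_pair' e
      exact ⟨b, h.inj (by rw [e, h.pair])⟩⟩

theorem snd (p : M) : j (snd p) = MP_f1f2b3_lc.snd (j p) :=
  h.the (fun y ⟨_, e⟩ => let ⟨_, x, _, a⟩ := h.ex_pair' e; ⟨x, a⟩) fun x =>
    ⟨fun ⟨b, e⟩ => ⟨j b, by rw [e, h.pair]⟩, fun ⟨b, e⟩ => by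
      obtain ⟨b, -, rfl, -⟩ := h.ex_pair' e
      exact ⟨b, h.inj (by rw [e, h.pair])⟩⟩

theorem app (f x : M) : j (app f x) = MP_f1f2b3_lc.app (j f) (j x) :=
  h.the (fun y e => let ⟨_, x, _, a⟩ := h.ex_pair e; ⟨x, a⟩) fun y => by
    rw [← h.pair, h.mem_iff]

theorem lv (p : M) : j (lv p) = MP_f1f2b3_lc.lv (j p) := by
  simp only [MP_f1f2b3_lc.lv, h.fst]

theorem cut' (s β : M) : j (cut' s β) = MP_f1f2b3_lc.cut' (j s) (j β) :=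
  h.sep fun x _ => by rw [← h.snd, ← h.lv, h.mem_iff]

theorem lv_iff {p γ : M} : Lv (j p) (j γ) ↔ Lv p γ := by
  simp only [Lv, h.ball, ← h.lv, h.mem_iff]

theorem lv'_iff {p γ : M} : Lv' (j p) (j γ) ↔ Lv' p γ := by
  simp only [Lv', h.ball, ← h.snd, ← h.lv, h.mem_iff]

theorem lvX_iff {p γ : M} : LvX (j p) (j γ) ↔ LvX p γ := by
  simp only [LvX, ← h.snd, ← h.fst, h.mem_iff, h.lv'_iff]

theorem d23 : j d23 = d23 := by simp only [MP_f1f2b3_lc.d23, h.up, h.sc, h.empty]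

theorem br_iff {θ : M} {F b : N} : Br (j θ) F b ↔
    ∀ η ∈ θ, ∃ β ∈ θ, η ⊆ β ∧ ∀ ζ ∈ η, j ζ ∈ b ↔ j (MP_f1f2b3_lc.pair ζ β) ∈ F := by
  simp only [Br, h.ball, h.bex, h.ss_iff, h.pair]

end Emb

/-- end extensions without new countable sets -/
structure SEmb {M N : Type u} [ZF M] [ZF N] (j : M → N) : Prop extends Emb j where
  cs : ∀ X, j (cs X) = cs (j X)
  w1 : j w1 = w1

namespace SEmb

variable {M N : Type u} [ZF M] [ZF N] {j : M → N} (h : SEmb j) {θ : M}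
include h

theorem At : j (At θ) = MP_f1f2b3_lc.At (j θ) := by
  rw [MP_f1f2b3_lc.At, MP_f1f2b3_lc.At, ← h.w1, ← h.toEmb.prod, ← h.toEmb.prod]
  exact h.toEmb.sep fun x _ => by rw [← h.toEmb.snd, ← h.toEmb.lv, h.toEmb.mem_iff]

theorem Lev : j (Lev θ) = MP_f1f2b3_lc.Lev (j θ) := by
  rw [MP_f1f2b3_lc.Lev, MP_f1f2b3_lc.Lev, ← h.At, ← h.cs]
  exact h.toEmb.sep fun x _ => h.toEmb.fn_iff.symm

theorem SS : j (SS θ) = MP_f1f2b3_lc.SS (j θ) := by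
  rw [MP_f1f2b3_lc.SS, MP_f1f2b3_lc.SS, ← h.At, ← h.toEmb.om, ← h.toEmb.prod, ← h.cs]
  exact h.toEmb.sep fun x _ => by simp only [h.toEmb.ball, ← h.toEmb.sl, h.toEmb.fn_iff]

theorem XX : j (XX θ) = MP_f1f2b3_lc.XX (j θ) := by
  rw [MP_f1f2b3_lc.XX, MP_f1f2b3_lc.XX, ← h.SS, h.toEmb.prod]

theorem bd_iff {R : N} : Bd (j θ) R ↔
    ∀ β ∈ θ, ∃ γ ∈ θ, ∀ x ∈ MP_f1f2b3_lc.XX θ, j (pair β x) ∈ R → LvX x γ := by
  have e := h.toEmb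
  simp only [Bd, ← h.XX, e.ball, e.bex, e.lvX_iff, e.pair]

theorem bd2_iff {R : N} : Bd2 (j θ) R ↔ ∀ β ∈ θ, ∃ γ ∈ θ, ∀ p ∈ MP_f1f2b3_lc.Lev θ,
    ∀ x ∈ MP_f1f2b3_lc.XX θ, j (pair β (pair p x)) ∈ R → Lv p γ ∧ LvX x γ := by
  have e := h.toEmb
  simp only [Bd2, ← h.XX, ← h.Lev, e.ball, e.bex, e.lvX_iff, e.lv_iff, e.pair]

theorem nm_iff {g R Y : N → Prop} : Nm (j θ) g R Y ↔
    Nm θ (fun a => g (j a)) (fun a => R (j a)) fun a => Y (j a) := by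
  have e := h.toEmb
  simp only [Nm, ← h.XX, ← h.Lev, e.ball, e.bex, e.pair]

theorem wit_iff {Y : N → N → Prop} {o ζ β m s : M} : Wit (j θ) Y (j o) (j ζ) (j β) (j m) (j s) ↔
    Wit θ (fun a b => Y (j a) (j b)) o ζ β m s := by
  have e := h.toEmb
  simp only [Wit, ← h.SS, ← h.Lev, ← e.om, e.ball, e.bex, ← e.pair, ← e.cut', ← e.sl, e.ss_iff]

theorem aa_iff {Y : N → N → Prop} {o ζ β : M} : AA (j θ) Y (j o) (j ζ) (j β) ↔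
    AA θ (fun a b => Y (j a) (j b)) o ζ β := by
  have e := h.toEmb
  simp only [AA, ← h.SS, ← h.Lev, ← e.om, ← e.d23, e.ball, e.bex, ← e.pair, h.wit_iff, e.lv_iff,
    e.lv'_iff]

theorem ot_iff {A : N → Prop} {β i : M} : Ot (j θ) A (j β) (j i) ↔ Ot θ (fun a => A (j a)) β i := by
  have e := h.toEmb
  simp only [Ot, Iso, ← h.w1, ← e.prod, ← h.cs, e.ball, e.bex, ← e.pair, e.mem_iff]

theorem q4_iff {F f Y : N → N → Prop} {g : N → Prop} : Q4 (j θ) F f g Y ↔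
    Q4 θ (fun a b => F (j a) (j b)) (fun a b => f (j a) (j b)) (fun a => g (j a))
      fun a b => Y (j a) (j b) := by
  have e := h.toEmb
  simp only [Q4, ConcA, ConcB, ← h.SS, ← h.Lev, ← h.w1, ← e.d23, e.ball, e.bex, ← e.sl, h.wit_iff,
    h.aa_iff, h.ot_iff, e.ss_iff, ← e.snd, ← e.lv, e.mem_iff, e.eq_iff]

end SEmb

theorem semb_ι {M : Type u} [Md M] [Countable M] {θ : M} (h : Ina θ) (H : Gen (Lev θ)) :
    SEmb (ι H) := ⟨emb_ι H, ι_cs, ι_w1 h⟩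

end Pool.Agent.P.MP_f1f2b3_lc
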