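import Pool.Agent.P.MP_f1f2b3_lc.PP

/-! If weak compactness fails, the statement holds in every generic extension. -/

set_option linter.unusedSectionVars false
set_option linter.unusedVariables false
set_option synthInstance.maxSize 4096

namespace Pool.Agent.P.MP_f1f2b3_lc

universe u w

section

variable {M : Type u} [ZF M] {A : M → Prop} [hA : D1 fun v => A (v 0)] {θ : M}

/-- the collapse of a class of ordinals -/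
noncomputable def rk (A : M → Prop) (β : M) : M :=
  rc (fun _ g => img snd (sep g fun p => A (fst p))) β

instance t1_rk (s : (ℕ → M) → M) [T1 s] : T1 fun v => rk A (s v) := by
  have := hA.use
  unfold rk; infer_instance

theorem mem_rk {β x : M} : x ∈ rk A β ↔ ∃ y ∈ β, A y ∧ rk A y = x := by
  have := hA.use
  rw [rk, rc_eq]
  simp only [mem_img, mem_sep, mem_graph]
  exact ⟨fun ⟨_, ⟨⟨y, h1, e⟩, h2⟩, h3⟩ => ⟨y, h1, by rwa [← e, fst_pair] at h2,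
    by rw [← h3, ← e, snd_pair]; rfl⟩,
    fun ⟨y, h1, h2, h3⟩ => ⟨_, ⟨⟨y, h1, rfl⟩, by simpa⟩, by rw [snd_pair]; exact h3⟩⟩

theorem od_rk (β : M) : Od β → Od (rk A β) := by
  refine mem_ind (fun β => Od β → Od (rk A β)) (fun β ih h => od_of (fun x hx z hz => ?_)
    fun x hx => ?_) β
  · obtain ⟨y, a, -, rfl⟩ := mem_rk.1 hx
    obtain ⟨y', b, c⟩ := mem_rk.1 hz
    exact mem_rk.2 ⟨y', h.trans b a, c⟩
  · obtain ⟨y, a, -, rfl⟩ := mem_rk.1 hx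
    exact ih y a (h.mem a)

theorem rk_inj {β γ : M} (h1 : Od β) (h2 : Od γ) (h3 : A β) (h4 : A γ) (e : rk A β = rk A γ) :
    β = γ := by
  rcases h1.tri h2 with h | h | h
  · exact (mem_ne (mem_rk.2 ⟨β, h, h3, rfl⟩) e).elim
  · exact h
  · exact (mem_ne (mem_rk.2 ⟨γ, h, h4, rfl⟩) e.symm).elim

theorem Iso.rk_eq {β i e : M} (h : Iso A β i e) (h1 : Od β) (h2 : Od i) : rk A β = i := by
  have key : ∀ y x, y ⊆ β → x ⊆ i → (∀ y' ∈ y, ∀ x' ∈ i, pair x' y' ∈ e → rk A y' = x') →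
      (∀ x' ∈ i, ∀ y' ∈ β, pair x' y' ∈ e → (x' ∈ x ↔ y' ∈ y)) → rk A y = x :=
    fun y x a b c d => ext' fun z => mem_rk.trans ⟨fun ⟨y', f, g, k⟩ => by
      obtain ⟨x', l, m⟩ := h.2.1 y' (a f) g
      rw [← k, c y' f x' l m]
      exact (d x' l y' (a f) m).2 f, fun f => by
      obtain ⟨y', l, m⟩ := h.1 z (b f)
      have := (d z (b f) y' l m).1 f
      exact ⟨y', this, (h.2.2 z (b f) y' l m).1, c y' this z (b f) m⟩⟩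
  exact key β i ss_rfl ss_rfl (trans_ind h1.tr _ fun y hy ih x hx a => key y x (h1.tr hy) (h2.tr hx)
    ih fun x' b y' c d => (h.2.2 x' b y' c d).2 x hx y hy a) fun x' a y' b _ => iff_of_true a b

instance d1_Ot (s t : (ℕ → M) → M) [T1 s] [T1 t] : D1 fun v => Ot θ A (s v) (t v) := by
  have := hA.use
  unfold Ot Iso; infer_instance

end

variable {M : Type u} [Md M] {θ : M}

theorem Ina.ex_ot (h : Ina θ) {A : M → Prop} [hA : D1 fun v => A (v 0)]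
    (H : ∀ η ∈ θ, ∃ β ∈ θ, η ⊆ β ∧ A β) {i : M} (hi : i ∈ (w1 : M)) :
    ∃ β ∈ θ, A β ∧ Ot θ A β i := by
  have := hA.use
  obtain ⟨hw, hw'⟩ := h.om1
  have h1 : i ∈ rk A θ := ((hw.1.mem hi).mem_or_ss (od_rk θ h.od)).resolve_right fun h1 => by
    obtain ⟨η, a, b⟩ := h.bound (s := sep θ A) (((sm_mem (h.od.trans hi hw')).mono h1).cv
      (cv_of_rel (fun x y => rk A y = x) (fun y hy => ⟨_, mem_rk.2 ⟨y, (mem_sep.1 hy).1,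
        (mem_sep.1 hy).2, rfl⟩, rfl⟩) fun n _ y hy z hz a b => rk_inj (h.od.mem (mem_sep.1 hy).1)
          (h.od.mem (mem_sep.1 hz).1) (mem_sep.1 hy).2 (mem_sep.1 hz).2 (a.trans b.symm))) sep_ss
    obtain ⟨β, c, d, e⟩ := H η a
    exact not_ss_of_mem (b (mem_sep.2 ⟨c, e⟩)) d
  obtain ⟨β, a, b, rfl⟩ := mem_rk.1 h1
  have hβ := h.od.mem a
  have key : ∀ x y, pair x y ∈ img (fun y => pair (rk A y) y) (sep β A) ↔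
      y ∈ β ∧ A y ∧ rk A y = x := fun x y => by
    simp only [mem_img, mem_sep, pair_inj]
    exact ⟨fun ⟨z, c, d, e⟩ => e ▸ ⟨c.1, c.2, d⟩, fun ⟨c, d, e⟩ => ⟨y, ⟨c, d⟩, e, rfl⟩⟩
  refine ⟨β, a, b, img (fun y => pair (rk A y) y) (sep β A), mem_cs.2 ⟨fun z hz => ?_,
    Ct.img ((hw.2.2 _ hi).cv ?_) _⟩, fun x hx => ?_, fun y hy c => ⟨_, mem_rk.2 ⟨y, hy, c, rfl⟩,
      (key _ _).2 ⟨hy, c, rfl⟩⟩, fun x hx y hy c => ⟨((key _ _).1 c).2.1, fun x' hx' y' hy' d => ?_⟩⟩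
  · obtain ⟨y, c, rfl⟩ := mem_img.1 hz
    rw [mem_sep] at c
    exact pair_mem_prod.2 ⟨hw.1.trans (mem_rk.2 ⟨y, c.1, c.2, rfl⟩) hi, h.od.trans c.1 a⟩
  · exact cv_of_rel (fun x y => rk A y = x) (fun y hy => ⟨_, mem_rk.2 ⟨y, (mem_sep.1 hy).1,
      (mem_sep.1 hy).2, rfl⟩, rfl⟩) fun n _ y hy z hz a b => rk_inj (hβ.mem (mem_sep.1 hy).1)
        (hβ.mem (mem_sep.1 hz).1) (mem_sep.1 hy).2 (mem_sep.1 hz).2 (a.trans b.symm)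
  · obtain ⟨y, c, d⟩ := mem_rk.1 hx
    exact ⟨y, c, (key _ _).2 ⟨c, d⟩⟩
  · obtain ⟨-, c1, rfl⟩ := (key _ _).1 c
    obtain ⟨-, d1, rfl⟩ := (key _ _).1 d
    refine ⟨fun e => ?_, fun e => mem_rk.2 ⟨y, e, c1, rfl⟩⟩
    rcases (hβ.mem hy).tri (hβ.mem hy') with f | rfl | f
    exacts [f, (mem_irrefl _ e).elim, (mem_asymm e (mem_rk.2 ⟨y', f, d1, rfl⟩)).elim]

theorem Ina.sm_tx (h : Ina θ) {γ : M} (hγ : γ ∈ θ) : Sm θ (sep (XX θ) fun x => LvX x γ) :=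
  (h.sm_prod (sm_mem hγ) (h.sm_ss hγ)).mono fun x hx => by
    obtain ⟨ζ, a, s, b, rfl⟩ := mem_prod.1 (mem_sep.1 hx).1
    simpa [LvX, b] using (mem_sep.1 hx).2

theorem LvX.mono {x γ δ : M} (h : LvX x γ) (h' : γ ⊆ δ) : LvX x δ := ⟨h' h.1, h.2.mono h'⟩

section
variable {Y : M → M → Prop} [hY : D1 fun v => Y (v 0) (v 1)]

instance d1_Wit (o ζ β m s : (ℕ → M) → M) [T1 o] [T1 ζ] [T1 β] [T1 m] [T1 s] :
    D1 fun v => Wit θ Y (o v) (ζ v) (β v) (m v) (s v) := by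
  have := hY.use2
  unfold Wit; infer_instance

instance d1_AA (o ζ β : (ℕ → M) → M) [T1 o] [T1 ζ] [T1 β] :
    D1 fun v => AA θ Y (o v) (ζ v) (β v) := by
  have := hY.use2
  unfold AA; infer_instance

end

variable [Countable M]

theorem ex_name {P : M} [Fact (∅ ∈ P)] (X : M) (R : M → M → Prop) [hR : D1 fun v => R (v 0) (v 1)] :
    ∃ τ, ∀ (H : Gen P) y, y ∈ val H τ ↔ ∃ x ∈ X, ∃ q ∈ H, R x q ∧ y = ι H x := by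
  have := hR.use2
  refine ⟨img (fun z => pair (chk (fst z)) (snd z)) (sep (prod X P) fun z => R (fst z) (snd z)),
    fun H y => ?_⟩
  simp only [mem_val, mem_img, mem_sep, pair_inj]
  constructor
  · rintro ⟨_, _, ⟨z, ⟨a, b⟩, rfl, rfl⟩, c, rfl⟩
    exact ⟨_, fst_mem a, _, c, b, rfl⟩
  · rintro ⟨x, a, q, b, c, rfl⟩
    exact ⟨_, _, ⟨pair x q, by simp [a, c, Gen.mem b], by simp, snd_pair _ _⟩, b, rfl⟩

theorem Ina.no_branch (h : Ina θ) {F : M} (hF : ∀ b, ¬ Br θ F b) (H : Gen (Lev θ)) (b : Ext H) :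
    ¬ Br (ι H θ) (ι H F) b := by
  have e := emb_ι H
  obtain ⟨τ, rfl⟩ := val_surj b
  simp only [e.br_iff, e.mem_iff]
  intro h1
  obtain ⟨p0, a1, a2⟩ := truth (fun H : Gen (Lev θ) => ∀ η ∈ θ, ∃ β ∈ θ, η ⊆ β ∧
    ∀ ζ ∈ η, ι H ζ ∈ val H τ ↔ pair ζ β ∈ F) h1
  obtain ⟨η, b1, b2⟩ := h.ex_lv (Gen.mem a1)
  obtain ⟨α, b3, b4, b5⟩ := h.clp (fun p γ => p0 ⊆ p → ∃ ζ ∈ γ, ∃ p1 ∈ Lev θ, ∃ p2 ∈ Lev θ,
      p ⊆ p1 ∧ p ⊆ p2 ∧ Lv p1 γ ∧ Lv p2 γ ∧ Frc (Lev θ) p1 (fun H => ι H ζ ∈ val H τ) ∧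
        Frc (Lev θ) p2 fun H => ι H ζ ∉ val H τ) (fun p hp => by
    by_cases c : p0 ⊆ p
    swap
    · exact ⟨η, b1, fun c' => (c c').elim⟩
    by_contra hn
    refine hF (sep θ fun ζ => Frc (Lev θ) p fun H => ι H ζ ∈ val H τ) fun η hη => ?_
    obtain ⟨G, hG⟩ := ex_gen hp
    obtain ⟨β, c1, c2, c3⟩ := a2 G (Gen.ss hG c) η hη
    refine ⟨β, c1, c2, fun ζ hζ => Iff.trans ?_ (c3 ζ hζ)⟩
    have c4 := h.od.trans hζ hη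
    rw [mem_sep]
    refine ⟨fun c5 => c5.2 G hG, fun c5 => ⟨c4, ?_⟩⟩
    by_contra c6
    obtain ⟨p1, -, d1, d2⟩ := truth' (fun H => ι H ζ ∈ val H τ) c5 hG
    obtain ⟨p2, d3, d4⟩ := not_frc (S := fun H => ι H ζ ∉ val H τ) (p := p)
      fun d => c6 fun H d' => not_not.1 (d H d')
    obtain ⟨γ1, d5, d6⟩ := h.ex_lv d1.1
    obtain ⟨γ2, d7, d8⟩ := h.ex_lv d3.1
    exact hn ⟨_, h.od.union_mem (h.sc_mem c4) (h.od.union_mem d5 d7), fun _ =>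
      ⟨ζ, ss_union_l (self_mem_sc ζ), p1, d1.1, p2, d3.1, d1.2.2, d3.2.2,
        d6.mono (ss_trans ss_union_l ss_union_r), d8.mono (ss_trans ss_union_r ss_union_r),
        d2, d4⟩⟩) b1
  obtain ⟨β, -, -, c3⟩ := h1 α b3
  obtain ⟨p, -, c4, c5⟩ := truth' (fun H : Gen (Lev θ) =>
    ∀ ζ ∈ α, ι H ζ ∈ val H τ ↔ pair ζ β ∈ F) c3 a1
  have hα := h.od.mem b3
  obtain ⟨γ, d1, d2⟩ := b5 _ (lev_ss c4.1 cut_ss) lv_cut
  obtain ⟨ζ, d3, p1, d4, p2, d5, d6, d7, d8, d9, d10, d11⟩ := d2 (ss_cut c4.2.2 (b2.mono (hα.tr b4)))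
  obtain ⟨G1, f1⟩ := ex_gen (amalg c4.1 d4 d6)
  obtain ⟨G2, f2⟩ := ex_gen (amalg c4.1 d5 d7)
  exact d11 G2 (Gen.ss f2 (ss_trans (ss_cut ss_rfl (d9.mono (hα.tr d1))) ss_union_r))
    ((c5 G2 (Gen.ss f2 ss_union_l) ζ (hα.trans d3 d1)).2
      ((c5 G1 (Gen.ss f1 ss_union_l) ζ (hα.trans d3 d1)).1
        (d10 G1 (Gen.ss f1 (ss_trans (ss_cut ss_rfl (d8.mono (hα.tr d1))) ss_union_r)))))

theorem Ina.ex_f (h : Ina θ) (H : Gen (Lev θ)) : ∃ f : Ext H, ∀ u : M, u ⊆ w1 → ∃ j ∈ (w1 : M),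
    ∀ i ∈ (w1 : M), i ∈ u ↔ ι H (pair j i) ∈ f := by
  have e := emb_ι H
  obtain ⟨hw, hw'⟩ := h.om1
  obtain ⟨μ, a1, k, a2⟩ := h.lim _ hw'
  obtain ⟨τ, hτ⟩ := ex_name (P := Lev θ) (prod w1 w1)
    fun x q => ∃ η, pair (pair μ (fst x)) η ∈ q ∧ snd x ∈ app k η
  refine ⟨val H τ, fun u hu => ?_⟩
  obtain ⟨η, a3, rfl⟩ := a2 u (mem_pw.2 hu)
  obtain ⟨r, b1, j, b2, b3⟩ := H.meet_all (fun r => ∃ j ∈ (w1 : M), pair (pair μ j) η ∈ r)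
    fun p hp => by
      obtain ⟨j, b1, b2⟩ := hw.ex_not_mem ((mem_Lev.1 hp).2.1.img fun a => snd (fst a))
      refine ⟨p ∪ up (pair (pair μ j) η) (pair (pair μ j) η), ⟨union_lev hp (mem_Lev.2 ⟨fun x hx => ?_,
        ct_up _ _, fun a b c d e => ?_⟩) fun k y z c d => ?_, hp, ss_union_l (a := p)⟩, j, b1, by simp⟩
      · rw [mem_up, or_self] at hx
        exact mem_At.2 ⟨μ, a1, j, b1, η, h.od.trans a3 a1, a3, hx⟩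
      · simp only [mem_up, or_self, pair_inj] at d e
        exact d.2.trans e.2.symm
      · simp only [mem_up, or_self, pair_inj] at d
        exact (b2 (mem_img.2 ⟨_, c, by simp [d.1]⟩)).elim
  refine ⟨j, b2, fun i hi => ?_⟩
  simp only [hτ, e.eq_iff]
  refine ⟨fun c => ⟨_, pair_mem_prod.2 ⟨b2, hi⟩, r, b1, ⟨η, by simpa, by simpa⟩, rfl⟩, ?_⟩
  rintro ⟨_, -, q, c1, ⟨η', c2, c3⟩, rfl⟩
  simp only [fst_pair, snd_pair] at c2 c3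
  rwa [Gen.fn b1 c1 b3 c2]

theorem Ina.q4 (h : Ina θ) (H : Gen (Lev θ)) (F : M) {f : M → M → Prop}
    (hf : ∀ u : M, u ⊆ w1 → ∃ j ∈ (w1 : M), ∀ i ∈ (w1 : M), i ∈ u ↔ f j i) (Y : M → M → Prop)
    [hY : D1 fun v => Y (v 0) (v 1)] :
    Q4 θ (fun a b => pair a b ∈ F) f (fun a => ∃ p ∈ H, a ∈ p) Y := by
  intro o ho ζ hζ h1 h2
  obtain ⟨hw, hw'⟩ := h.om1
  have uq : ∀ β ∈ θ, ∀ i ∈ (w1 : M), Ot θ (AA θ Y o ζ) β i → rk (AA θ Y o ζ) β = i :=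
    fun β a i b ⟨e, _, c⟩ => c.rk_eq (h.od.mem a) (hw.1.mem b)
  refine ⟨?_, fun q hq => ?_⟩
  · obtain ⟨j, a1, a2⟩ := hf (sep w1 fun i => ∃ β ∈ θ, AA θ Y o ζ β ∧ Ot θ (AA θ Y o ζ) β i ∧
      pair ζ β ∈ F) sep_ss
    refine ⟨j, a1, fun i hi β hβ a3 a4 => Iff.trans ?_ (a2 i hi)⟩
    rw [mem_sep]
    refine ⟨fun a5 => ⟨hi, β, hβ, a3, a4, a5⟩, fun ⟨_, β', b1, b2, b3, b4⟩ => ?_⟩
    rwa [rk_inj (h.od.mem hβ) (h.od.mem b1) a3 b2 ((uq β hβ i hi a4).trans (uq β' b1 i hi b3).symm)]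
  have a1 : bun (sl o) d23 ∈ H := by
    have a2 : ∀ m ∈ (d23 : M), sl o m ∈ H := fun m hm => Gen.mem_of (sl_mem ho m) (h1 m hm)
    refine Gen.ss (Gen.union (a2 _ (mem_up.2 (Or.inl rfl))) (a2 _ (mem_up.2 (Or.inr rfl))))
      fun x hx => ?_
    obtain ⟨m, a3, a4⟩ := mem_bun.1 hx
    rcases mem_up.1 a3 with rfl | rfl
    exacts [ss_union_l a4, ss_union_r a4]
  obtain ⟨r, a2, -, i, a3, β, a4, a5, a6, m, a7, s, a8, a9, a10, a11⟩ := Gen.meet'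
    (fun r => ∃ i ∈ (w1 : M), ∃ β ∈ θ, AA θ Y o ζ β ∧ Ot θ (AA θ Y o ζ) β i ∧
      ∃ m ∈ (d23 : M), ∃ s ∈ SS θ, Wit θ Y o ζ β m s ∧ sl s m ⊆ r ∧
        ∀ z ∈ s, ∀ a ∈ q, lv a = lv (snd z) → lv a ∈ β) a1 fun r hr => by
    have b1 : Ct (img lv (r ∪ q)) := ((mem_Lev.1 hr.1).2.1.union (mem_Lev.1 hq).2.1).img lv
    obtain ⟨i, b2, b3⟩ := hw.ex_not_mem (x := sep w1 fun i => ∃ α ∈ img lv (r ∪ q), ∃ β ∈ θ,
        AA θ Y o ζ β ∧ Ot θ (AA θ Y o ζ) β i ∧ β ⊆ α ∧ ∀ β' ∈ θ, AA θ Y o ζ β' → β ∈ β' → α ∈ β')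
      (b1.cv (cv_of_rel (fun α i => ∃ β ∈ θ, AA θ Y o ζ β ∧ Ot θ (AA θ Y o ζ) β i ∧ β ⊆ α ∧
        ∀ β' ∈ θ, AA θ Y o ζ β' → β ∈ β' → α ∈ β') (fun i hi => (mem_sep.1 hi).2)
        fun α _ i hi i' hi' ⟨β, c1, c2, c3, c4, c5⟩ ⟨β', d1, d2, d3, d4, d5⟩ => by
          rw [← uq β c1 i (mem_sep.1 hi).1 c3, ← uq β' d1 i' (mem_sep.1 hi').1 d3]
          rcases (h.od.mem c1).tri (h.od.mem d1) with e | rfl | e
          exacts [(not_ss_of_mem (c5 β' d1 d2 e) d4).elim, rfl,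
            (not_ss_of_mem (d5 β c1 c2 e) c4).elim]))
    obtain ⟨β, b4, b5, b6⟩ := h.ex_ot h2 b2
    obtain ⟨β0, b7, b8, b9⟩ := h2 _ (h.sc_mem b4)
    obtain ⟨β', c1, ⟨c2, c3, c4⟩, c5⟩ := od_least (fun β' => β' ∈ θ ∧ AA θ Y o ζ β' ∧ β ∈ β')
      (h.od.mem b7) ⟨b7, b9, b8 (self_mem_sc β)⟩
    have key : ∀ a ∈ r ∪ q, lv a ∈ β' → lv a ∈ β := fun a ha c6 =>
      ((c1.mem c6).mem_or_ss (h.od.mem b4)).resolve_right fun c7 => b3 (mem_sep.2 ⟨b2, _,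
        img_mem ha, β, b4, b5, b6, c7, fun β2 d1 d2 d3 =>
          (h.od.mem d1).ss_of_not_mem c1 (fun d4 => c5 β2 d4 ⟨d1, d2, d3⟩) c6⟩)
    obtain ⟨m, d1, s, d2, d3, d4⟩ := b5.2
    have d5 : cut' s β' ∈ SS θ := ss_ss d2 cut'_ss
    refine ⟨r ∪ sl (cut' s β') m, ⟨union_lev hr.1 (sl_mem d5 m) fun k y z e1 e2 => ?_, hr.1,
      ss_union_l (a := r)⟩, i, b2, β, b4, b5, b6, m, d1, _, d5, ⟨fun z hz => d3 ?_, fun n hn => ?_⟩,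
      ss_union_r, fun z hz a ha e => key a (ss_union_r ha) (e ▸ (mem_cut'.1 hz).2)⟩
    · simp only [mem_sl, mem_cut', snd_pair] at e2
      refine (mem_Lev.1 hr.1).2.2 e1 (hr.2.2 _ (mem_bun.2 ⟨m, d1, mem_sl.2 (d3 ?_)⟩))
      simp only [mem_cut', snd_pair]
      exact ⟨e2.1, lv_eq k y z ▸ key _ (ss_union_l e1) (lv_eq k z y ▸ e2.2)⟩
    · simp only [mem_cut'] at hz ⊢
      exact ⟨hz.1.1, hz.2⟩
    · obtain ⟨p, e1, s', e2, e3, e4, e5⟩ := d4 n hn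
      obtain ⟨e6, e7⟩ := c3.1 n hn β c4 p e1 s' e2 e5
      exact ⟨p, e1, s', e2, sl_cut' s β' m ▸ ss_cut e3 e6, ss_cut' e4 e7, e5⟩
  exact ⟨i, a3, β, a4, a5, a6, m, a7, s, a8, a9, fun a ha => ⟨r, a2, a10 ha⟩, a11⟩

theorem Ina.partA (h : Ina θ) {F : M} (hF : ∀ b, ¬ Br θ F b) (H : Gen (Lev θ)) :
    ∃ F g N f : Ext H, Body (ι H θ) F g N f := by
  have e := semb_ι h H
  have e' := e.toEmb
  obtain ⟨f, hf⟩ := h.ex_f H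
  obtain ⟨τ, hτ⟩ := ex_name (P := Lev θ) (At θ) fun a q => a ∈ q
  have hg : ∀ a, ι H a ∈ val H τ ↔ ∃ p ∈ H, a ∈ p := fun a => by
    simp only [hτ, e'.eq_iff]
    exact ⟨fun ⟨_, _, q, a, b, c⟩ => ⟨q, a, c ▸ b⟩,
      fun ⟨p, b, c⟩ => ⟨a, (mem_Lev.1 (Gen.mem b)).1 c, p, b, c, rfl⟩⟩
  refine ⟨ι H F, val H τ, ι H (pw (prod θ (prod (Lev θ) (XX θ)))), f, h.no_branch hF H,
    fun a b c h1 h2 => ?_, fun R _ h1 => ?_, fun Y h1 h2 => ?_⟩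
  · obtain ⟨x, -, q, a1, a2, a3⟩ := (hτ H _).1 h1
    obtain ⟨x', -, q', b1, b2, b3⟩ := (hτ H _).1 h2
    obtain ⟨a, b, rfl, rfl⟩ := e'.ex_pair' a3.symm
    obtain ⟨-, c, -, rfl⟩ := e'.ex_pair' b3.symm
    rw [← e'.pair, e'.eq_iff] at a3 b3
    subst a3 b3
    rw [Gen.fn a1 b1 a2 b2]
  · obtain ⟨ρ, rfl⟩ := val_surj R
    obtain ⟨p, a1, a2⟩ := truth (fun H : Gen (Lev θ) => ∀ β ∈ θ, ∃ γ ∈ θ, ∀ x ∈ XX θ,
      ι H (pair β x) ∈ val H ρ → LvX x γ) (e.bd_iff.1 h1)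
    obtain ⟨Z, b1, b2, b3⟩ := h.bn (fun γ => sep (XX θ) fun x => LvX x γ) (fun γ => h.sm_tx)
      (fun γ δ c x hx => mem_sep.2 ⟨(mem_sep.1 hx).1, (mem_sep.1 hx).2.mono c⟩)
      (fun H β x => ι H (pair β x) ∈ val H ρ) (XX θ) (Gen.mem a1) fun G hG β hβ =>
        (a2 G hG β hβ).imp fun γ c => ⟨c.1, fun x hx d => mem_sep.2 ⟨hx, c.2 x hx d⟩⟩
    refine ⟨ι H Z, e'.mem_iff.2 (mem_pw.2 b1), ?_, e.bd2_iff.2 fun β hβ => ?_,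
      e.nm_iff.2 fun β hβ x hx => (b3 H a1 β hβ x hx).trans ?_⟩
    · rw [← e.XX, ← e.Lev, ← e'.prod, ← e'.prod]
      exact e'.ss_iff.2 b1
    · exact (b2 β hβ).imp fun γ c => ⟨c.1, fun p _ x _ d =>
        (c.2 p x (e'.mem_iff.1 d)).imp_right fun d => (mem_sep.1 d :).2⟩
    · simp only [hg, e'.mem_iff]
      exact ⟨fun ⟨q, c, d⟩ => ⟨q, Gen.mem c, fun a ha => ⟨q, c, ha⟩, d⟩,
        fun ⟨q, c, d, d'⟩ => ⟨q, Gen.mem_of c d, d'⟩⟩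
  · obtain ⟨Y, -, -, rfl⟩ := ground_ct (X := prod om (pw (prod θ (prod (Lev θ) (XX θ)))))
      (by rwa [e'.prod, e'.om]) (ct_of_fn h1 h2)
    rw [e.q4_iff]
    simp only [← e'.pair, ← e'.app, e'.mem_iff, hg]
    exact h.q4 H F hf _

end Pool.Agent.P.MP_f1f2b3_lc
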