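import Pool.Agent.P.MP_f1f2b3_lc.PartA

/-! Splitting and fusion below a weakly compact cardinal. -/

set_option linter.unusedSectionVars false
set_option linter.unusedVariables false
set_option synthInstance.maxSize 4096

namespace Pool.Agent.P.MP_f1f2b3_lc

universe u w

variable {M : Type u} [Md M] {θ : M}

/-- `R` is a rich part of `C` -/
def Rich (θ : M) (C : M → M → M → Prop) (R : M) : Prop :=
  (∀ β ζ s, pair β (pair ζ s) ∈ R → C β ζ s) ∧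
    ∀ β ∈ θ, ∀ ζ ∈ β, ∀ s ∈ SS θ, C β ζ s → ∃ s' ∈ SS θ, s' ⊆ s ∧ pair β (pair ζ s') ∈ R

theorem Ina.ex_rich (h : Ina θ) (C : M → M → M → Prop) [hC : D1 fun v => C (v 0) (v 1) (v 2)]
    (H : ∀ β ∈ θ, ∃ γ ∈ θ, ∀ ζ ∈ β, ∀ s ∈ SS θ, C β ζ s → C β ζ (cut' s γ)) :
    ∃ R, R ⊆ prod θ (XX θ) ∧ Bd θ R ∧ Rich θ C R := by
  have := hC.use3
  obtain ⟨k, hk⟩ := skolem (fun β γ => γ ∈ θ ∧ ∀ ζ ∈ β, ∀ s ∈ SS θ, C β ζ s → C β ζ (cut' s γ)) θ H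
  refine ⟨sep (prod θ (XX θ)) fun z => fst (snd z) ∈ fst z ∧ Lv' (snd (snd z)) (app k (fst z)) ∧
    C (fst z) (fst (snd z)) (snd (snd z)), sep_ss, fun β hβ => ⟨β ∪ app k β,
      h.od.union_mem hβ (hk β hβ).1, fun x _ hx => ?_⟩, fun β ζ s hz => ?_,
      fun β hβ ζ hζ s hs hc => ⟨_, ss_ss hs cut'_ss, cut'_ss (β := app k β), ?_⟩⟩
  · simp only [mem_sep, fst_pair, snd_pair] at hx
    exact ⟨ss_union_l hx.2.1, hx.2.2.1.mono ss_union_r⟩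
  · simp only [mem_sep, fst_pair, snd_pair] at hz
    exact hz.2.2.2
  · simp only [mem_sep, fst_pair, snd_pair, XX, pair_mem_prod]
    exact ⟨⟨hβ, h.od.trans hζ hβ, ss_ss hs cut'_ss⟩, hζ, lv_cut', (hk β hβ).2 ζ hζ s hs hc⟩

/-- closure point of a name -/
def ClZ (Z β : M) : Prop := ∀ β' ∈ β, ∀ q p ζ s, pair β' (pair q (pair p (pair ζ s))) ∈ Z →
  Lv q β ∧ Lv p β ∧ Lv' s β

/-- both sides are caught by the name -/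
def CZ (θ Z β ζ s : M) : Prop := ClZ Z β ∧ ∀ l ∈ sc (sc (∅ : M)), ∃ q, ∃ p ∈ Lev θ, ∃ s' ∈ SS θ,
  q ⊆ sl s l ∧ p ⊆ sl s (sc (sc l)) ∧ s' ⊆ s ∧ pair β (pair q (pair p (pair ζ s'))) ∈ Z

/-- bounded sections -/
def BdZ (θ Z : M) : Prop := ∀ β ∈ θ, ∃ γ ∈ θ, ∀ q p ζ s, pair β (pair q (pair p (pair ζ s))) ∈ Z →
  Lv q γ ∧ Lv p γ ∧ Lv' s γ

instance d1_ClZ (s t : (ℕ → M) → M) [T1 s] [T1 t] : D1 fun v => ClZ (s v) (t v) := by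
  unfold ClZ; infer_instance

instance d1_CZ (s t r o : (ℕ → M) → M) [T1 s] [T1 t] [T1 r] [T1 o] :
    D1 fun v => CZ θ (s v) (t v) (r v) (o v) := by
  unfold CZ; infer_instance

instance d1_BdZ (s : (ℕ → M) → M) [T1 s] : D1 fun v => BdZ θ (s v) := by
  unfold BdZ; infer_instance

theorem CZ.mono {Z β ζ s t : M} (h : CZ θ Z β ζ s) (h' : s ⊆ t) : CZ θ Z β ζ t :=
  ⟨h.1, fun l hl => let ⟨q, p, a, s', b, c, d, e, f⟩ := h.2 l hl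
    ⟨q, p, a, s', b, ss_trans c (sl_mono h' _), ss_trans d (sl_mono h' _), ss_trans e h', f⟩⟩

theorem Ina.rich_cz (h : Ina θ) {Z : M} (hZ : BdZ θ Z) :
    ∃ R, R ⊆ prod θ (XX θ) ∧ Bd θ R ∧ Rich θ (CZ θ Z) R :=
  h.ex_rich _ fun β hβ => (hZ β hβ).imp fun γ a => ⟨a.1, fun ζ _ s _ b => ⟨b.1, fun l hl => by
    obtain ⟨q, p, c, s', d, e, f, g, k⟩ := b.2 l hl
    obtain ⟨k1, k2, k3⟩ := a.2 _ _ _ _ k
    exact ⟨q, p, c, s', d, sl_cut' s γ _ ▸ ss_cut e k1, sl_cut' s γ _ ▸ ss_cut f k2,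
      ss_cut' g k3, k⟩⟩⟩

theorem scsc_not_mem (l : M) : sc (sc l) ∉ sc (sc (∅ : M)) := fun h => by
  simp only [mem_sc, not_mem_empty, false_or] at h
  exact h.elim (sc_ne_empty _) fun h => sc_ne_empty _ (sc_inj h)

theorem two_ss_om : sc (sc (∅ : M)) ⊆ om := od_om.tr (sc_mem_om (sc_mem_om empty_mem_om))

theorem mem_d23 {m : M} : m ∈ (d23 : M) ↔ ∃ l ∈ sc (sc (∅ : M)), m = sc (sc l) := by
  simp [d23]

theorem aa_congr {Y Y' : M → M → Prop} {o ζ β β' : M} (hβ : Od β) (h' : β' ∈ β)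
    (e : ∀ n, ∀ γ ∈ β, ∀ p s, Y n (pair γ (pair p (pair ζ s))) ↔ Y' n (pair γ (pair p (pair ζ s)))) :
    AA θ Y o ζ β' ↔ AA θ Y' o ζ β' := by
  simp only [AA, Wit, e _ β' h']
  exact and_congr_left fun _ => forall₂_congr fun n _ => forall₂_congr fun γ hγ => by
    simp only [e n γ (hβ.trans hγ h')]

theorem ot_congr {A A' : M → Prop} {β i : M} (e : ∀ y ∈ β, A y ↔ A' y) (h : Ot θ A β i) :
    Ot θ A' β i :=
  let ⟨k, a, b, c, d⟩ := h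
  ⟨k, a, b, fun y hy f => c y hy ((e y hy).2 f),
    fun x hx y hy f => ⟨(e y hy).1 (d x hx y hy f).1, (d x hx y hy f).2⟩⟩

variable [Countable M]

theorem ex_dec_below (S : Gen (Lev θ) → Prop) [FD (Lev θ) fun H _ => S H] {r : M}
    (hr : r ∈ Lev θ) : ∃ t ∈ Lev θ, r ⊆ t ∧ (Frc (Lev θ) t S ∨ Frc (Lev θ) t fun H => ¬ S H) := by
  by_cases h1 : Frc (Lev θ) r fun H => ¬ S H
  · exact ⟨r, hr, ss_rfl, Or.inr h1⟩
  · obtain ⟨q, a, b⟩ := not_frc h1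
    exact ⟨q, a.1, a.2.2, Or.inl b⟩

theorem frc_cut {S : Gen (Lev θ) → Prop} [FD (Lev θ) fun H _ => S H] {q t α : M} (ht : t ∈ Lev θ)
    (hq : q ⊆ cut t α) (h : Frc (Lev θ) t S) (hn : ¬ ∃ s0 ∈ Lev θ, ∃ s1 ∈ Lev θ, q ⊆ s0 ∧ q ⊆ s1 ∧
      cut s0 α ⊆ s1 ∧ cut s1 α ⊆ s0 ∧ Frc (Lev θ) s0 (fun H => ¬ S H) ∧ Frc (Lev θ) s1 S) :
    Frc (Lev θ) (cut t α) S := by
  by_contra h1
  obtain ⟨t', a, b⟩ := not_frc (S := fun H => ¬ S H) (p := cut t α)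
    fun d => h1 fun H d' => not_not.1 (d H d')
  refine hn ⟨t', a.1, _, amalg ht a.1 a.2.2, ss_trans hq a.2.2, ss_trans hq (ss_trans cut_ss ss_union_l),
    ss_union_r, fun x hx => ?_, b, h.mono ht ss_union_l⟩
  rw [mem_cut, mem_union] at hx
  exact hx.1.elim (fun c => a.2.2 x (mem_cut.2 ⟨c, hx.2⟩)) fun c => cut_ss c

theorem Ina.split (h : Ina θ) (ha : Arrow Mem.E θ) (F : Gen (Lev θ) → M → M → Prop)
    [hF : FD (Lev θ) fun H v => F H (v 0) (v 1)] {q : M} (hq : q ∈ Lev θ)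
    (h1 : Frc (Lev θ) q fun H => ∀ Z : M, ¬ ∀ η ∈ θ, ∃ β ∈ θ, η ⊆ β ∧
      ∀ ζ ∈ η, (∃ r ∈ H, pair ζ r ∈ Z) ↔ F H ζ β)
    (Q : M → M → Prop) [hQ : D1 fun v => Q (v 0) (v 1)] (HQ : ∀ γ ∈ θ, ∃ δ ∈ θ, Q γ δ)
    {η : M} (hη : η ∈ θ) : ∃ α ∈ θ, η ⊆ α ∧ (∀ γ ∈ α, ∃ δ ∈ α, Q γ δ) ∧ Unc α ∧
      ∃ ζ ∈ α, ∃ s0 ∈ Lev θ, ∃ s1 ∈ Lev θ, q ⊆ s0 ∧ q ⊆ s1 ∧ cut s0 α ⊆ s1 ∧ cut s1 α ⊆ s0 ∧
        Frc (Lev θ) s0 (fun H => ¬ F H ζ α) ∧ Frc (Lev θ) s1 fun H => F H ζ α := by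
  have := hF.use2
  by_contra hn
  obtain ⟨η0, a1, a2⟩ := h.ex_lv hq
  obtain ⟨c, hc⟩ := h.nup ha Q HQ (fun γ => prod (sep (Lev θ) fun p => Lv p γ) (sc (sc ∅)))
    (fun γ hγ => h.sm_prod (h.sm_lev hγ) (h.sm_ct (ct_om.mono two_ss_om)))
    (fun i α u => fst u ∈ Lev θ ∧ fst i ⊆ fst u ∧
      ((snd u = ∅ ∧ Frc (Lev θ) (fst u) fun H => ¬ F H (snd i) α) ∨
        (snd u ≠ ∅ ∧ Frc (Lev θ) (fst u) fun H => F H (snd i) α)))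
    (h.flt_prod (h.flt_of (fun γ => sep (Lev θ) fun p => Lv p γ) (fun γ => h.sm_lev)
      (J := sep (Lev θ) fun r => q ⊆ r) fun r hr => (h.ex_lv (mem_sep.1 hr).1).imp fun γ a =>
        ⟨a.1, mem_sep.2 ⟨(mem_sep.1 hr).1, a.2⟩⟩) h.flt_self) fun i hi => by
    obtain ⟨r, b1, ζ, b2, rfl⟩ := mem_prod.1 hi
    rw [mem_sep] at b1
    obtain ⟨γ, b3, b4⟩ := h.ex_lv b1.1
    refine ⟨_, h.od.union_mem (h.od.union_mem hη b3) (h.sc_mem b2), fun α b5 b6 b7 b8 => ?_⟩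
    have b9 : ¬ ∃ s0 ∈ Lev θ, ∃ s1 ∈ Lev θ, q ⊆ s0 ∧ q ⊆ s1 ∧ cut s0 α ⊆ s1 ∧ cut s1 α ⊆ s0 ∧
        Frc (Lev θ) s0 (fun H => ¬ F H ζ α) ∧ Frc (Lev θ) s1 fun H => F H ζ α := fun b9 =>
      hn ⟨α, b5, ss_trans ss_union_l (ss_trans ss_union_l b6), b7, b8, ζ,
        b6 (ss_union_r (self_mem_sc ζ)), b9⟩
    obtain ⟨t, c1, c2, c3⟩ := ex_dec_below (fun H => F H ζ α) b1.1
    have c4 : r ⊆ cut t α := ss_cut c2 (b4.mono (ss_trans ss_union_r (ss_trans ss_union_l b6)))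
    have c5 := lev_ss c1 (cut_ss (β := α))
    obtain ⟨γ', c6, c7⟩ := b8.lv (mem_Lev.1 c5).2.1 lv_cut
    simp only [fst_pair, snd_pair]
    rcases c3 with c3 | c3
    · exact ⟨γ', c6, pair (cut t α) (sc ∅), by simp [c5, c7], by
        simpa [c5, c4, sc_ne_empty] using frc_cut c1 (ss_trans b1.2 c4) c3 b9⟩
    · exact ⟨γ', c6, pair (cut t α) ∅, by simp [c5, c7], by
        simpa [c5, c4] using frc_cut c1 (ss_trans b1.2 c4) c3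
          fun ⟨s0, d1, s1, d2, d3, d4, d5, d6, d7, d8⟩ =>
            b9 ⟨s1, d2, s0, d1, d4, d3, d6, d5, d8, fun H d => not_not.1 (d7 H d)⟩⟩
  obtain ⟨H, hH⟩ := ex_gen hq
  refine h1 H hH (sep (prod θ (Lev θ)) fun z => ∃ r ∈ sep (Lev θ) fun r => q ⊆ r,
    fst (app c (pair r (fst z))) = snd z ∧ snd (app c (pair r (fst z))) ≠ ∅) fun η hη => ?_
  have two : ∀ ζ ∈ θ, ∀ r ∈ sep (Lev θ) fun r => q ⊆ r, ∀ r' ∈ sep (Lev θ) fun r => q ⊆ r,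
      up (pair r ζ) (pair r' ζ) ⊆ prod (sep (Lev θ) fun r => q ⊆ r) θ := fun ζ a r b r' c x hx => by
    rcases mem_up.1 hx with rfl | rfl <;> exact pair_mem_prod.2 ⟨‹_›, a⟩
  obtain ⟨γ, b1, b2⟩ := h.bdd (fun ζ γ => Frc (Lev θ) q fun H => ∃ γ' ∈ γ,
      ∃ r ∈ sep (Lev θ) fun r => q ⊆ r, Lv r γ' ∧ fst (app c (pair r ζ)) ∈ H) (sm_mem hη)
    fun ζ hζ => h.cc _ hq fun G hG => by
      have b1 := h.od.trans hζ hη
      obtain ⟨t, b2, -, r, b3, b4⟩ := Gen.meet' (fun t => ∃ r ∈ sep (Lev θ) fun r => q ⊆ r,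
        fst (app c (pair r ζ)) ⊆ t) hG fun t ht => by
          have b2 : t ∈ sep (Lev θ) fun r => q ⊆ r := mem_sep.2 ⟨ht.1, ht.2.2⟩
          obtain ⟨α, -, -, b3⟩ := hc _ (h.sm_ct (ct_up _ _)) (two ζ b1 t b2 t b2) η hη
          have := b3 _ (mem_up.2 (Or.inl rfl))
          rw [fst_pair] at this
          exact ⟨_, ⟨this.1, ht.1, this.2.1⟩, t, b2, ss_rfl⟩
      obtain ⟨γ, b5, b6⟩ := h.ex_lv (mem_sep.1 b3).1
      exact ⟨γ, b5, r, b3, b6, Gen.ss b2 b4⟩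
  obtain ⟨α, c1, c2, c3⟩ := hc (prod (sep (sep (Lev θ) fun p => Lv p γ) fun r => q ⊆ r) η)
    (h.sm_prod ((h.sm_lev b1).mono sep_ss) (sm_mem hη)) (prod_mono (fun r hr =>
      mem_sep.2 ⟨(mem_sep.1 (mem_sep.1 hr).1).1, (mem_sep.1 hr).2⟩) (h.od.tr hη)) η hη
  refine ⟨α, c1, c2, fun ζ hζ => ?_⟩
  have d0 := h.od.trans hζ hη
  obtain ⟨γ1, d1, d2⟩ := b2 ζ hζ
  obtain ⟨γ2, d3, r, d4, d5, d6⟩ := d2 H hH
  have := c3 (pair r ζ) (pair_mem_prod.2 ⟨mem_sep.2 ⟨mem_sep.2 ⟨(mem_sep.1 d4).1,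
    d5.mono ((h.od.mem b1).tr ((h.od.mem b1).trans d3 d1))⟩, (mem_sep.1 d4).2⟩, hζ⟩)
  simp only [fst_pair, snd_pair] at this
  rcases this.2.2 with ⟨d7, d8⟩ | ⟨d7, d8⟩
  · refine iff_of_false (fun ⟨t, e1, e2⟩ => ?_) (d8 H d6)
    rw [mem_sep, fst_pair, snd_pair] at e2
    obtain ⟨-, r', e3, rfl, e4⟩ := e2
    obtain ⟨α', -, -, e5⟩ := hc _ (h.sm_ct (ct_up _ _)) (two ζ d0 r d4 r' e3) η hη
    have e6 := (e5 _ (mem_up.2 (Or.inl rfl))).2.2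
    have e7 := (e5 _ (mem_up.2 (Or.inr rfl))).2.2
    rw [snd_pair] at e6 e7
    exact (e6.resolve_right fun e => e.1 d7).2 H d6 ((e7.resolve_left fun e => e4 e.1).2 H e1)
  · refine iff_of_true ⟨_, d6, ?_⟩ (d8 H d6)
    rw [mem_sep, fst_pair, snd_pair]
    exact ⟨pair_mem_prod.2 ⟨d0, this.1⟩, r, d4, rfl, d7⟩

/-- the invariant of the fusion -/
def Inv (θ : M) (g : Gen (Lev θ) → M → Prop) (q α s : M) : Prop :=
  ∀ l ∈ sc (sc (∅ : M)), q ⊆ sl s l ∧ (∀ l' ∈ sc (sc (∅ : M)), cut (sl s l) α ⊆ sl s l') ∧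
    Frc (Lev θ) (sl s l) fun H => ∀ a ∈ sl s (sc (sc l)), g H a

variable {g : Gen (Lev θ) → M → Prop} [hg : FD (Lev θ) fun H v => g H (v 0)]

instance d1_Inv (q s t : (ℕ → M) → M) [T1 q] [T1 s] [T1 t] :
    D1 fun v => Inv θ g (q v) (s v) (t v) := by
  have := hg.use
  unfold Inv; infer_instance

theorem inv_step {q α s l x Z : M} (hs : s ∈ SS θ) (hi : Inv θ g q α s) (hl : l ∈ sc (sc (∅ : M)))
    (h2 : Frc (Lev θ) q fun H => ∀ k y z, g H (pair k y) → g H (pair k z) → y = z) (hq : q ∈ Lev θ)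
    (h3 : Frc (Lev θ) q fun H => ∃ p ∈ Lev θ, (∀ a ∈ p, g H a) ∧
      ∃ r ∈ H, pair α (pair r (pair p x)) ∈ Z) :
    ∃ t ∈ SS θ, Inv θ g q α t ∧ s ⊆ t ∧ ∃ r, ∃ p ∈ Lev θ, r ⊆ sl t l ∧ p ⊆ sl t (sc (sc l)) ∧
      pair α (pair r (pair p x)) ∈ Z := by
  have := hg.use
  obtain ⟨H, hH⟩ := ex_gen (sl_mem hs l)
  have a0 := Gen.ss hH (hi l hl).1
  obtain ⟨p, a1, a2, r, a3, a4⟩ := h3 H a0
  obtain ⟨t, a5, a6, a7⟩ := truth' (fun H => ∀ a ∈ p, g H a) a2 (Gen.union hH a3)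
  have a8 : sl s l ⊆ t := ss_trans ss_union_l a6.2.2
  have key : ∀ m a, a ∈ sl (s ∪ (prod (up l l) t ∪ (prod (sc (sc ∅)) (cut t α) ∪
      prod (up (sc (sc l)) (sc (sc l))) p))) m ↔ a ∈ sl s m ∨ (m = l ∧ a ∈ t) ∨
        (m ∈ sc (sc (∅ : M)) ∧ a ∈ cut t α) ∨ (m = sc (sc l) ∧ a ∈ p) := fun m a => by
    simp only [mem_sl, mem_union, pair_mem_prod, mem_up, or_self]
  have b1 := mem_Lev.1 a6.1
  have b2 := mem_Lev.1 a1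
  have b3 := mem_SS.1 hs
  have hu : s ∪ (prod (up l l) t ∪ (prod (sc (sc ∅)) (cut t α) ∪
      prod (up (sc (sc l)) (sc (sc l))) p)) ∈ SS θ := by
    refine mem_SS.2 ⟨union_ss b3.1 (union_ss (prod_mono (fun x hx => ?_) b1.1) (union_ss
      (prod_mono two_ss_om (ss_trans cut_ss b1.1)) (prod_mono (fun x hx => ?_) b2.1))),
      b3.2.1.union (((ct_up _ _).prod b1.2.1).union (((ct_om.mono two_ss_om).prod
        (b1.2.1.mono cut_ss)).union ((ct_up _ _).prod b2.2.1))), fun m => ?_⟩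
    · rw [mem_up, or_self] at hx
      exact hx ▸ two_ss_om hl
    · rw [mem_up, or_self] at hx
      exact hx ▸ sc_mem_om (sc_mem_om (two_ss_om hl))
    by_cases c1 : m = l
    · refine b1.2.2.mono fun a ha => ?_
      rcases (key m a).1 ha with c | c | c | c
      exacts [a8 (c1 ▸ c), c.2, cut_ss c.2, (scsc_not_mem l (c.1 ▸ c1 ▸ hl)).elim]
    by_cases c2 : m ∈ sc (sc (∅ : M))
    · refine (mem_Lev.1 (amalg (sl_mem hs m) a6.1 (ss_trans ((hi m c2).2.1 l hl) a8))).2.2.mono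
        fun a ha => ?_
      rcases (key m a).1 ha with c | c | c | c
      exacts [ss_union_l c, (c1 c.1).elim, ss_union_r c.2, (scsc_not_mem l (c.1 ▸ c2)).elim]
    by_cases c3 : m = sc (sc l)
    · have : ∀ a ∈ sl (s ∪ (prod (up l l) t ∪ (prod (sc (sc ∅)) (cut t α) ∪
          prod (up (sc (sc l)) (sc (sc l))) p))) m, g H a := fun a ha => by
        rcases (key m a).1 ha with c | c | c | c
        exacts [(hi l hl).2.2 H hH a (c3 ▸ c), (c1 c.1).elim, (c2 c.1).elim, a2 a c.2]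
      exact fun k y z d1 d2 => h2 H a0 k y z (this _ d1) (this _ d2)
    · refine (b3.2.2 m).mono fun a ha => ?_
      rcases (key m a).1 ha with c | c | c | c
      exacts [c, (c1 c.1).elim, (c2 c.1).elim, (c3 c.1).elim]
  refine ⟨_, hu, fun m hm => ⟨ss_trans (hi m hm).1 (sl_mono ss_union_l m), fun m' hm' a ha => ?_,
    fun G hG a ha => ?_⟩, ss_union_l, r, p, a1, fun a ha => (key _ a).2 (Or.inr (Or.inl
      ⟨rfl, a6.2.2 a (ss_union_r ha)⟩)), fun a ha => (key _ a).2 (Or.inr (Or.inr (Or.inr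
        ⟨rfl, ha⟩))), a4⟩
  · rw [mem_cut, key] at ha
    rw [key]
    rcases ha.1 with c | c | c | c
    exacts [Or.inl ((hi m hm).2.1 m' hm' (mem_cut.2 ⟨c, ha.2⟩)),
      Or.inr (Or.inr (Or.inl ⟨hm', mem_cut.2 ⟨c.2, ha.2⟩⟩)), Or.inr (Or.inr (Or.inl ⟨hm', c.2⟩)),
      (scsc_not_mem l (c.1 ▸ hm)).elim]
  · rcases (key _ a).1 ha with c | c | c | c
    exacts [(hi m hm).2.2 G (Gen.ss hG (sl_mono ss_union_l m)) a c,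
      (scsc_not_mem m (c.1 ▸ hl)).elim, (scsc_not_mem m c.1).elim,
      a7 G (Gen.ss hG fun b hb => (key m b).2 (Or.inr (Or.inl ⟨sc_inj (sc_inj c.1), hb⟩))) a c.2]

theorem fusion {q α ζ s Rs Zs : M} (hs : s ∈ SS θ) (hi : Inv θ g q α s)
    (h2 : Frc (Lev θ) q fun H => ∀ k y z, g H (pair k y) → g H (pair k z) → y = z) (hq : q ∈ Lev θ)
    (h3 : ∀ n ∈ (om : M), ∀ s' ∈ SS θ, pair α (pair ζ s') ∈ app Rs n → Frc (Lev θ) q fun H =>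
      ∃ p ∈ Lev θ, (∀ a ∈ p, g H a) ∧ ∃ r ∈ H, pair α (pair r (pair p (pair ζ s'))) ∈ app Zs n)
    (h4 : ∀ n ∈ (om : M), ClZ (app Zs n) α)
    (h5 : ∃ s' ∈ SS θ, s' ⊆ s ∧ pair α (pair ζ s') ∈ app Rs ∅)
    (h6 : ∀ n ∈ (om : M), ∀ s ∈ SS θ, CZ θ (app Zs n) α ζ s →
      ∃ s' ∈ SS θ, s' ⊆ s ∧ pair α (pair ζ s') ∈ app Rs (sc n)) :
    ∃ t ∈ SS θ, Inv θ g q α t ∧ ∀ n ∈ (om : M), CZ θ (app Zs n) α ζ t := by
  obtain ⟨f, a1, a2⟩ := dc (sep (SS θ) (Inv θ g q α)) (fun n s t => s ⊆ t ∧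
      ((∃ s' ∈ SS θ, s' ⊆ s ∧ pair α (pair ζ s') ∈ app Rs n) → CZ θ (app Zs n) α ζ t))
      (mem_sep.2 ⟨hs, hi⟩) fun n hn s hs => by
    by_cases c : ∃ s' ∈ SS θ, s' ⊆ s ∧ pair α (pair ζ s') ∈ app Rs n
    swap
    · exact ⟨s, hs, ss_rfl, fun c' => (c c').elim⟩
    obtain ⟨s', c1, c2, c3⟩ := c
    rw [mem_sep] at hs
    obtain ⟨t, d1, d2, d3, r, p, d4, d5, d6, d7⟩ := inv_step hs.1 hs.2 (l := ∅) (by simp) h2 hq
      (h3 n hn s' c1 c3)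
    obtain ⟨t', e1, e2, e3, r', p', e4, e5, e6, e7⟩ := inv_step d1 d2 (self_mem_sc _) h2 hq
      (h3 n hn s' c1 c3)
    refine ⟨t', mem_sep.2 ⟨e1, e2⟩, ss_trans d3 e3, fun _ => ⟨h4 n hn, fun l hl => ?_⟩⟩
    simp only [mem_sc, not_mem_empty, false_or] at hl
    rcases hl with rfl | rfl
    · exact ⟨r, p, d4, s', c1, ss_trans d5 (sl_mono e3 _), ss_trans d6 (sl_mono e3 _),
        ss_trans c2 (ss_trans d3 e3), d7⟩
    · exact ⟨r', p', e4, s', c1, e5, e6, ss_trans c2 (ss_trans d3 e3), e7⟩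
  have b1 : ∀ n ∈ (om : M), app f n ⊆ bun (app f) om := fun n hn x hx => mem_bun.2 ⟨n, hn, hx⟩
  have b2 : ∀ n ∈ (om : M), ∃ s' ∈ SS θ, s' ⊆ app f n ∧ pair α (pair ζ s') ∈ app Rs n :=
    om_ind _ (a1 ▸ h5) fun n hn ih =>
      h6 n hn _ (mem_sep.1 (a2 _ (sc_mem_om hn)).1).1 ((a2 n hn).2.2 ih)
  have b3 := fun n hn => (mem_sep.1 (a2 n hn).1).2
  refine ⟨_, chain_ss (fun n hn => (mem_sep.1 (a2 n hn).1).1) fun n hn => (a2 n hn).2.1,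
    fun l hl => ⟨ss_trans (b3 _ empty_mem_om l hl).1 (sl_mono (b1 _ empty_mem_om) l),
      fun l' hl' a ha => ?_, fun H hH a ha => ?_⟩,
    fun n hn => ((a2 n hn).2.2 (b2 n hn)).mono (b1 _ (sc_mem_om hn))⟩
  · rw [mem_cut, mem_sl] at ha
    obtain ⟨n, c1, c2⟩ := mem_bun.1 ha.1
    exact sl_mono (b1 n c1) l' ((b3 n c1 l hl).2.1 l' hl' (mem_cut.2 ⟨mem_sl.2 c2, ha.2⟩))
  · obtain ⟨n, c1, c2⟩ := mem_bun.1 (mem_sl.1 ha)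
    exact (b3 n c1 l hl).2.2 H (Gen.ss hH (sl_mono (b1 n c1) l)) a (mem_sl.2 c2)

end Pool.Agent.P.MP_f1f2b3_lc
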