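import Pool.Agent.P.MP_f1f2b3_lc.PartB1

/-! If the partition relation holds, the statement fails in every generic extension. -/

set_option linter.unusedSectionVars false
set_option linter.unusedVariables false
set_option synthInstance.maxSize 4096

namespace Pool.Agent.P.MP_f1f2b3_lc

universe u w

variable {M : Type u} [Md M] {θ : M} [Countable M]

/-- the value of a name with sections -/
def YZ (H : Gen (Lev θ)) (Z y : M) : Prop :=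
  ∃ β q x, pair β (pair q x) ∈ Z ∧ q ∈ H ∧ y = pair β x

theorem yz_pair {H : Gen (Lev θ)} {Z β x : M} :
    YZ H Z (pair β x) ↔ ∃ q ∈ H, pair β (pair q x) ∈ Z := by
  simp only [YZ, pair_inj]
  exact ⟨fun ⟨_, q, _, a, b, c, d⟩ => ⟨q, b, c ▸ d ▸ a⟩, fun ⟨q, a, b⟩ => ⟨β, q, x, b, a, rfl, rfl⟩⟩

instance fd_YZ (s t : (ℕ → M) → M) [T1 s] [T1 t] : FD (Lev θ) fun H v => YZ H (s v) (t v) := by
  unfold YZ; infer_instance

theorem aa_of {H : Gen (Lev θ)} {Zs o ζ α s l : M} (hl : l ∈ sc (sc (∅ : M))) (hs : s ∈ SS θ)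
    (h1 : sl s l ∈ H) (h2 : cut' s α ⊆ o) (h3 : ∀ n ∈ (om : M), CZ θ (app Zs n) α ζ s) :
    AA θ (fun n y => n ∈ (om : M) ∧ YZ H (app Zs n) y) o ζ α := by
  refine ⟨fun n hn β hβ p _ s' _ a => ?_, _, mem_d23.2 ⟨l, hl, rfl⟩, s, hs, h2, fun n hn => ?_⟩
  · obtain ⟨q, -, b⟩ := yz_pair.1 a.2
    exact ((h3 n hn).1 β hβ q p ζ s' b).2
  · obtain ⟨q, p, a, s', b, c, d, e, f⟩ := (h3 n hn).2 l hl
    exact ⟨p, a, s', b, d, e, hn, yz_pair.2 ⟨q, Gen.ss h1 c, f⟩⟩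

theorem Ina.core (h : Ina θ) (ha : Arrow Mem.E θ) (F f : Gen (Lev θ) → M → M → Prop)
    (g Good : Gen (Lev θ) → M → Prop) [hF : FD (Lev θ) fun H v => F H (v 0) (v 1)]
    [hf : FD (Lev θ) fun H v => f H (v 0) (v 1)] [hg : FD (Lev θ) fun H v => g H (v 0)]
    [hG : FD (Lev θ) fun H v => Good H (v 0)] {q0 : M} (hq : q0 ∈ Lev θ)
    (h1 : Frc (Lev θ) q0 fun H => ∀ Z : M, ¬ ∀ η ∈ θ, ∃ β ∈ θ, η ⊆ β ∧
      ∀ ζ ∈ η, (∃ r ∈ H, pair ζ r ∈ Z) ↔ F H ζ β)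
    (h2 : Frc (Lev θ) q0 fun H => ∀ k y z, g H (pair k y) → g H (pair k z) → y = z)
    (h3 : ∀ R, R ⊆ prod θ (XX θ) → Bd θ R → ∀ q ∈ Lev θ, q0 ⊆ q → ∃ q' ∈ Lev θ, q ⊆ q' ∧
      ∃ Z, Z ⊆ prod θ (prod (Lev θ) (prod (Lev θ) (XX θ))) ∧ BdZ θ Z ∧
        Frc (Lev θ) q' fun H => Good H Z ∧ Nm θ (g H) (· ∈ R) (YZ H Z))
    (h4 : ∀ Zs : M, Frc (Lev θ) q0 fun H => (∀ n ∈ (om : M), Good H (app Zs n)) →
      Q4 θ (F H) (f H) (g H) fun n y => n ∈ (om : M) ∧ YZ H (app Zs n) y) : False := by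
  have := hF.use2
  have := hf.use2
  have := hg.use
  have := hG.use
  have fN : ∀ s t [T1 s] [T1 t],
      FD (Lev θ) fun H v => Nm θ (g H) (· ∈ s v) (YZ H (t v)) := fun s t _ _ => by
    unfold Nm; infer_instance
  obtain ⟨hw, hw'⟩ := h.om1
  obtain ⟨δ, a1, a2⟩ := h.bdd (fun z γ => Dec θ γ fun H => f H (fst z) (snd z))
    (h.sm_prod (sm_mem hw') (sm_mem hw')) fun z _ => h.ex_dec _
  obtain ⟨R0, a3, a4, a5⟩ := h.ex_rich (fun β ζ s => δ ⊆ β ∧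
      Frc (Lev θ) (sl s ∅) (fun H => ¬ F H ζ β) ∧ Frc (Lev θ) (sl s (sc ∅)) fun H => F H ζ β)
    fun β hβ => by
      obtain ⟨γ, b1, b2⟩ := h.bdd (fun ζ γ => Dec θ γ fun H => F H ζ β) (sm_mem hβ)
        fun z _ => h.ex_dec _
      refine ⟨γ, b1, fun ζ hζ s hs c => ?_⟩
      obtain ⟨γ', b3, b4⟩ := b2 ζ hζ
      have b5 := b4.mono ((h.od.mem b1).tr b3)
      simp only [sl_cut']
      exact ⟨c.1, b5.not.cut (sl_mem hs _) c.2.1, b5.cut (sl_mem hs _) c.2.2⟩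
  obtain ⟨q1, a6, a7, Z0, a8, a9, a10⟩ := h3 R0 a3 a4 q0 hq ss_rfl
  have dR : D1 fun v : ℕ → M => Rich θ (CZ θ (v 0)) (v 1) := by unfold Rich; infer_instance
  have := dR.use2 (P := fun a b => Rich θ (CZ θ a) b)
  obtain ⟨st, b1, b2⟩ := dc (sep (prod (Lev θ) (prod (pw (prod θ (XX θ)))
      (pw (prod θ (prod (Lev θ) (prod (Lev θ) (XX θ))))))) fun z => q0 ⊆ fst z ∧
        BdZ θ (snd (snd z)) ∧ Frc (Lev θ) (fst z) fun H => Good H (snd (snd z)) ∧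
          Nm θ (g H) (· ∈ fst (snd z)) (YZ H (snd (snd z))))
      (fun _ z z' => fst z ⊆ fst z' ∧ Rich θ (CZ θ (snd (snd z))) (fst (snd z')))
      (a := pair q1 (pair R0 Z0)) (by simpa [a3, a6, a7, a8, a9] using a10) fun _ _ z hz => by
    rw [mem_sep] at hz
    obtain ⟨R, c1, c2, c3⟩ := h.rich_cz hz.2.2.1
    obtain ⟨q, c4, c5, Z, c6, c7, c8⟩ := h3 R c1 c2 _ (fst_mem hz.1) hz.2.1
    exact ⟨pair q (pair R Z), by simpa [c1, c4, c6, c7, ss_trans hz.2.1 c5] using c8,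
      by simpa [c5] using c3⟩
  obtain ⟨Rs, hR⟩ : ∃ Rs : M, ∀ n ∈ (om : M), app Rs n = fst (snd (app st n)) :=
    ⟨graph (fun n => fst (snd (app st n))) om, fun n hn => app_graph hn⟩
  obtain ⟨Zs, hZ⟩ : ∃ Zs : M, ∀ n ∈ (om : M), app Zs n = snd (snd (app st n)) :=
    ⟨graph (fun n => snd (snd (app st n))) om, fun n hn => app_graph hn⟩
  obtain ⟨q, c1, c2⟩ : ∃ q ∈ Lev θ, ∀ n ∈ (om : M), fst (app st n) ⊆ q := by
    have e : ∀ n ∈ (om : M), app (graph (fun n => fst (app st n)) om) n = fst (app st n) :=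
      fun n hn => app_graph hn
    exact ⟨_, chain_lev (fun n hn => e n hn ▸ fst_mem (mem_sep.1 (b2 n hn).1).1) fun n hn => by
      rw [e n hn, e _ (sc_mem_om hn)]; exact (b2 n hn).2.1,
      fun n hn x hx => mem_bun.2 ⟨n, hn, e n hn ▸ hx⟩⟩
  have c3 : q0 ⊆ q := ss_trans (mem_sep.1 (b2 _ empty_mem_om).1).2.1 (c2 _ empty_mem_om)
  have c4 : ∀ n ∈ (om : M), BdZ θ (app Zs n) := fun n hn =>
    hZ n hn ▸ (mem_sep.1 (b2 n hn).1).2.2.1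
  have c5 : ∀ n ∈ (om : M), Frc (Lev θ) q fun H => Good H (app Zs n) ∧
      Nm θ (g H) (· ∈ app Rs n) (YZ H (app Zs n)) := fun n hn => by
    rw [hZ n hn, hR n hn]
    exact (mem_sep.1 (b2 n hn).1).2.2.2.mono (fst_mem (mem_sep.1 (b2 n hn).1).1) (c2 n hn)
  have c6 : ∀ n ∈ (om : M), Rich θ (CZ θ (app Zs n)) (app Rs (sc n)) := fun n hn => by
    rw [hZ n hn, hR _ (sc_mem_om hn)]
    exact (b2 n hn).2.2
  have c7 : app Rs ∅ = R0 := by rw [hR _ empty_mem_om, b1]; simp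
  clear hR hZ c2 b1 b2 st a6 a7 a8 a9 a10 q1 Z0
  obtain ⟨ζ, d1, o, d2, d3⟩ : ∃ ζ ∈ θ, ∃ o ∈ SS θ, ∀ η ∈ θ, ∃ α ∈ θ, η ⊆ α ∧ ∃ s ∈ SS θ,
      cut' s α = o ∧ Inv θ g q α s ∧ ∀ n ∈ (om : M), CZ θ (app Zs n) α ζ s := by
    by_contra hn
    obtain ⟨α, d1, d2, d3, d4, ζ, d5, s0, d6, s1, d7, d8, d9, d10, d11, d12, d13⟩ := h.split ha F c1
      (h1.mono hq c3) (fun γ γ' => (∀ z ∈ prod γ (sep (SS θ) fun o => Lv' o γ), ∃ η ∈ γ',
        ∀ α ∈ θ, η ⊆ α → ¬ ∃ s ∈ SS θ, cut' s α = snd z ∧ Inv θ g q α s ∧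
          ∀ n ∈ (om : M), CZ θ (app Zs n) α (fst z) s) ∧ ∀ n ∈ (om : M), ∃ ξ ∈ γ', ∀ q p ζ s,
            pair γ (pair q (pair p (pair ζ s))) ∈ app Zs n → Lv q ξ ∧ Lv p ξ ∧ Lv' s ξ)
      (fun γ hγ => by
        obtain ⟨γ1, e1, e2⟩ := h.bdd (fun z η => ∀ α ∈ θ, η ⊆ α → ¬ ∃ s ∈ SS θ,
          cut' s α = snd z ∧ Inv θ g q α s ∧ ∀ n ∈ (om : M), CZ θ (app Zs n) α (fst z) s)
          (h.sm_prod (sm_mem hγ) (h.sm_ss hγ)) fun z hz => by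
            by_contra e
            refine hn ⟨_, h.od.trans (fst_mem hz) hγ, _, (mem_sep.1 (snd_mem hz)).1, fun η hη => ?_⟩
            by_contra e'
            exact e ⟨η, hη, fun α a b c => e' ⟨α, a, b, c⟩⟩
        obtain ⟨γ2, e3, e4⟩ := h.bdd (fun n ξ => ∀ q p ζ s,
          pair γ (pair q (pair p (pair ζ s))) ∈ app Zs n → Lv q ξ ∧ Lv p ξ ∧ Lv' s ξ)
          (sm_mem h.om_mem) fun n hn => c4 n hn γ hγ
        exact ⟨_, h.od.union_mem e1 e3, fun z hz => (e2 z hz).imp fun _ a => ⟨ss_union_l a.1, a.2⟩,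
          fun z hz => (e4 z hz).imp fun _ a => ⟨ss_union_r a.1, a.2⟩⟩) a1
    have hα := h.od.mem d1
    have key : ∀ m a, a ∈ sl (prod (up ∅ ∅) s0 ∪ prod (up (sc ∅) (sc ∅)) s1) m ↔
        (m = ∅ ∧ a ∈ s0) ∨ (m = sc ∅ ∧ a ∈ s1) := fun m a => by simp
    have k0 : sl (prod (up ∅ ∅) s0 ∪ prod (up (sc ∅) (sc ∅)) s1) ∅ = s0 :=
      ext' fun a => by simp [(sc_ne_empty (∅ : M)).symm]
    have k1 : sl (prod (up ∅ ∅) s0 ∪ prod (up (sc ∅) (sc ∅)) s1) (sc ∅) = s1 :=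
      ext' fun a => by simp [sc_ne_empty]
    have e0 : prod (up ∅ ∅) s0 ∪ prod (up (sc ∅) (sc ∅)) s1 ∈ SS θ := by
      refine mem_SS.2 ⟨union_ss (prod_mono (fun x hx => two_ss_om ?_) (mem_Lev.1 d6).1)
        (prod_mono (fun x hx => two_ss_om ?_) (mem_Lev.1 d7).1), ((ct_up _ _).prod
          (mem_Lev.1 d6).2.1).union ((ct_up _ _).prod (mem_Lev.1 d7).2.1), fun m => ?_⟩
      · simp_all
      · simp_all
      · by_cases e : m = ∅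
        · rw [e, k0]; exact (mem_Lev.1 d6).2.2
        · exact (mem_Lev.1 d7).2.2.mono fun a ha => (((key m a).1 ha).resolve_left fun c => e c.1).2
    refine (fusion (g := g) (q := q) (α := α) (ζ := ζ) (Rs := Rs) (Zs := Zs) e0
      (fun l hl => ⟨?_, fun l' hl' => ?_, fun H _ a ha => ?_⟩) (h2.mono hq c3) c1
      (fun n hn s' a b H hH => ?_) (fun n hn β hβ q p ζ s a => ?_)
      (c7 ▸ a5.2 α d1 ζ d5 _ e0 ⟨d2, by rwa [k0], by rwa [k1]⟩)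
      fun n hn s a b => (c6 n hn).2 α d1 ζ d5 s a b).elim fun t ⟨e1, e2, e3⟩ => ?_
    rotate_right
    · obtain ⟨γ1, e4, e5⟩ := d4.lv' (mem_SS.1 (ss_ss e1 cut'_ss)).2.1 (lv_cut' (p := t))
      obtain ⟨γ2, e6, e7⟩ := d4 _ (fun x hx => by
        rw [mem_up, or_self] at hx; exact hx ▸ d5) (ct_up ζ ζ)
      obtain ⟨γ', e8, e9, -⟩ := d3 _ (hα.union_mem e4 e6)
      obtain ⟨η, f1, f2⟩ := e9 (pair ζ (cut' t α)) (pair_mem_prod.2 ⟨ss_union_r (e7 (by simp)),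
        mem_sep.2 ⟨ss_ss e1 cut'_ss, e5.mono ss_union_l⟩⟩)
      exact f2 α d1 (hα.tr (hα.trans f1 e8)) ⟨t, e1, by simp, e2, by simpa using e3⟩
    · simp only [mem_sc, not_mem_empty, false_or] at hl
      rcases hl with rfl | rfl
      exacts [k0.symm ▸ d8, k1.symm ▸ d9]
    · simp only [mem_sc, not_mem_empty, false_or] at hl hl'
      rcases hl with rfl | rfl <;> rcases hl' with rfl | rfl <;> simp only [k0, k1]
      exacts [cut_ss, d10, d11, cut_ss]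
    · rcases (key _ a).1 ha with c | c
      exacts [(sc_ne_empty _ c.1).elim, (sc_ne_empty _ (sc_inj c.1)).elim]
    · obtain ⟨p, c, d, e⟩ := ((c5 n hn H hH).2 α d1 _
        (pair_mem_prod.2 ⟨h.od.trans d5 d1, a⟩)).1 b
      exact ⟨p, c, d, yz_pair.1 e⟩
    · obtain ⟨γ', b1, -, b2⟩ := d3 β hβ
      obtain ⟨ξ, b3, b4⟩ := b2 n hn
      have := hα.tr (hα.trans b3 b1)
      obtain ⟨b5, b6, b7⟩ := b4 q p ζ s a
      exact ⟨b5.mono this, b6.mono this, b7.mono this⟩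
  have z0 : (∅ : M) ∈ sc (sc (∅ : M)) := by simp
  have e1 : q ⊆ sl o ∅ ∧ ∀ l ∈ sc (sc (∅ : M)), sl o l ⊆ sl o ∅ := by
    obtain ⟨η, a, b⟩ := h.ex_lv c1
    obtain ⟨α, -, c, s, -, rfl, d, -⟩ := d3 η a
    simp only [sl_cut']
    exact ⟨ss_cut (d _ z0).1 (b.mono c), fun l hl => ss_cut ((d l hl).2.1 _ z0) lv_cut⟩
  have e2 : ∀ r ∈ Lev θ, sl o ∅ ⊆ r → ∀ l ∈ sc (sc (∅ : M)), ∀ η ∈ θ, ∃ α ∈ θ, η ⊆ α ∧
      ∃ s ∈ SS θ, cut' s α = o ∧ Inv θ g q α s ∧ (∀ n ∈ (om : M), CZ θ (app Zs n) α ζ s) ∧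
        r ∪ sl s l ∈ Lev θ := fun r hr a l hl η hη => by
    obtain ⟨γ, b, c⟩ := h.ex_lv hr
    obtain ⟨α, d, e, s, k1, k2, k3, k4⟩ := d3 _ (h.od.union_mem hη b)
    refine ⟨α, d, ss_trans ss_union_l e, s, k1, k2, k3, k4, union_lev hr (sl_mem k1 l)
      fun k y z m1 m2 => (mem_Lev.1 hr).2.2 m1 (a (e1.2 l hl ?_))⟩
    rw [← k2, sl_cut', mem_cut]
    exact ⟨m2, lv_eq k y z ▸ e (ss_union_r (c _ m1))⟩
  obtain ⟨H, hH⟩ := ex_gen (sl_mem d2 ∅)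
  have e3 := Gen.ss hH e1.1
  have fA : ∀ s [T1 s], FD (Lev θ) fun H v =>
      AA θ (fun n y => n ∈ (om : M) ∧ YZ H (app Zs n) y) o ζ (s v) := fun s _ => by
    unfold AA Wit; infer_instance
  obtain ⟨⟨j, f1, f2⟩, f3⟩ := h4 Zs H (Gen.ss e3 c3) (fun n hn => (c5 n hn H e3).1) o d2 ζ d1
    (fun m hm a ha => by
      obtain ⟨l, hl, rfl⟩ := mem_d23.1 hm
      obtain ⟨r, a1, -, a2⟩ := Gen.meet' (fun r => Frc (Lev θ) r fun H => g H a) hH fun r hr => by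
        obtain ⟨α, -, -, s, b1, rfl, b2, -, b3⟩ := e2 r hr.1 hr.2.2 l hl ∅ h.empty_mem
        exact ⟨_, ⟨b3, hr.1, ss_union_l (a := r)⟩, fun G hG =>
          (b2 l hl).2.2 G (Gen.ss hG ss_union_r) a (sl_mono cut'_ss _ ha)⟩
      exact a2 H a1) fun η hη => by
      obtain ⟨r, a1, -, β, a2, a3, a4⟩ := Gen.meet' (fun r => ∃ β ∈ θ, η ⊆ β ∧ Frc (Lev θ) r
        fun H => AA θ (fun n y => n ∈ (om : M) ∧ YZ H (app Zs n) y) o ζ β) hH fun r hr => by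
          obtain ⟨α, b4, b5, s, b1, b6, -, b2, b3⟩ := e2 r hr.1 hr.2.2 _ z0 η hη
          exact ⟨_, ⟨b3, hr.1, ss_union_l (a := r)⟩, α, b4, b5, fun G hG =>
            aa_of z0 b1 (Gen.ss hG ss_union_r) (b6 ▸ ss_rfl) b2⟩
      exact ⟨β, a2, a3, a4 H a1⟩
  have fC : FD (Lev θ) fun H _ =>
      ConcA θ (F H) (f H) (fun n y => n ∈ (om : M) ∧ YZ H (app Zs n) y) o ζ j := by
    unfold ConcA Ot Iso; infer_instance
  obtain ⟨q', g1, g2, g3⟩ := truth' (fun H =>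
    ConcA θ (F H) (f H) (fun n y => n ∈ (om : M) ∧ YZ H (app Zs n) y) o ζ j) f2 hH
  obtain ⟨i, g4, β, g5, g6, g7, m, -, s, g8, g9, g10, g11⟩ := f3 q' g2.1
  have k1 : ∀ n ∈ (om : M), ∃ s' ∈ SS θ, s' ⊆ s ∧ pair β (pair ζ s') ∈ app Rs n := fun n hn => by
    obtain ⟨p, a, s', b, c, d, e⟩ := g9.2 n hn
    exact ⟨s', b, d, ((c5 n hn H e3).2 β g5 _ (pair_mem_prod.2 ⟨d1, b⟩)).2
      ⟨p, a, fun x hx => g10 x (c hx), e.2⟩⟩
  have k2 : ∀ n ∈ (om : M), CZ θ (app Zs n) β ζ s := fun n hn =>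
    let ⟨s', _, b, c⟩ := k1 _ (sc_mem_om hn); ((c6 n hn).1 _ _ _ c).mono b
  obtain ⟨s', k3, k4, k5⟩ := k1 _ empty_mem_om
  obtain ⟨k6, k7, k8⟩ := a5.1 _ _ _ (c7 ▸ k5)
  have fin : ∀ l ∈ sc (sc (∅ : M)), ∃ G : Gen (Lev θ), sl s' l ∈ G ∧ (F G ζ β ↔ f H j i) :=
    fun l hl => by
      have m1 : cut (sl s l) β ⊆ q' :=
        sl_cut' s β l ▸ ss_trans (sl_mono g9.1 l) (ss_trans (e1.2 l hl) g2.2.2)
      obtain ⟨G, m2, m3⟩ := switch (H := H) (α := β) (union_lev g2.1 (sl_mem g8 l) fun k y z a b =>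
        (mem_Lev.1 g2.1).2.2 a (m1 (mem_cut.2 ⟨b, lv_eq k y z ▸ g11 _ (mem_sl.1 b) _ a
          (by rw [snd_pair]; exact lv_eq _ _ _)⟩))) (Gen.ss g1 fun a ha => by
            rw [mem_cut, mem_union] at ha
            exact ha.1.elim id fun b => m1 (mem_cut.2 ⟨b, ha.2⟩))
      have m4 := Gen.ss m2 ss_union_r
      refine ⟨G, Gen.ss m4 (sl_mono k4 l), (g3 G (Gen.ss m2 ss_union_l) i g4 β g5
        (aa_of hl g8 m4 g9.1 k2) (ot_congr (fun y hy => aa_congr (h.od.mem g5) hy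
          fun n γ hγ p s => and_congr_right fun hn => ?_) g7)).trans ?_⟩
      · simp only [yz_pair]
        exact exists_congr fun r => and_congr_left fun a => m3 r ((k2 n hn).1 γ hγ _ _ _ _ a).1
      · obtain ⟨γ, a, b⟩ := a2 (pair j i) (pair_mem_prod.2 ⟨f1, g4⟩)
        simp only [fst_pair, snd_pair] at b
        exact ((b.mono (ss_trans ((h.od.mem a1).tr a) k6)).iff m3).symm
  obtain ⟨G0, m1, m2⟩ := fin _ z0
  obtain ⟨G1, m3, m4⟩ := fin _ (self_mem_sc _)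
  exact k7 G0 m1 (m2.2 (m4.1 (k8 G1 m3)))

/-- the name described by a set of triples -/
noncomputable def nmz (Z : M) : M :=
  img (fun z => pair (chk (pair (fst z) (snd (snd z)))) (fst (snd z)))
    (sep Z fun z => ∃ a b c, z = pair a (pair b c))

instance t1_nu (s : (ℕ → M) → M) [T1 s] : T1 fun v => nmz (s v) := by unfold nmz; infer_instance

theorem mem_val_nu {H : Gen (Lev θ)} {Z : M} {y : Ext H} :
    y ∈ val H (nmz Z) ↔ ∃ x, YZ H Z x ∧ y = ι H x := by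
  simp only [mem_val, nmz, mem_img, mem_sep, pair_inj, YZ]
  constructor
  · rintro ⟨_, _, ⟨_, ⟨a, β, q, x, rfl⟩, rfl, rfl⟩, b, rfl⟩
    simp only [fst_pair, snd_pair] at b ⊢
    exact ⟨_, ⟨β, q, x, a, b, rfl⟩, rfl⟩
  · rintro ⟨_, ⟨β, q, x, a, b, rfl⟩, rfl⟩
    exact ⟨chk (pair β x), q, ⟨_, ⟨a, β, q, x, rfl⟩, by simp, by simp⟩, b, rfl⟩

theorem Df.noparam {I : Type w} {A : I → Type u} [∀ i, Mem (A i)] {P : ∀ i, (ℕ → A i) → Prop}
    (h : Df (fun _ => False) P) : ∃ φ, ∀ i v, P i v ↔ Sat Mem.E φ v := by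
  obtain ⟨φ, ρ, h⟩ := h
  refine ⟨φ.ren fun n => Sum.elim id (fun c => c.2.elim) (ρ n), fun i v =>
    (h i v).trans (Iff.trans (iff_of_eq ?_) (sat_ren _ _ _ _).symm)⟩
  congr 1
  funext n
  rcases ρ n with k | c
  exacts [rfl, c.2.elim]

theorem Ina.partB (h : Ina θ) (ha : Arrow Mem.E θ) (H : Gen (Lev θ)) :
    ¬ ∃ F g N f : Ext H, Body (ι H θ) F g N f := by
  rintro ⟨F, g, N, f, hB⟩
  obtain ⟨F, rfl⟩ := val_surj F
  obtain ⟨g, rfl⟩ := val_surj g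
  obtain ⟨N, rfl⟩ := val_surj N
  obtain ⟨f, rfl⟩ := val_surj f
  obtain ⟨φ, hφ⟩ := (df_Body (A := fun H : Gen (Lev θ) => Ext H)).noparam
  have : FD (Lev θ) fun H _ => Body (ι H θ) (val H F) (val H g) (val H N) (val H f) :=
    ((FD.sat φ).fix (cons (chk θ) (cons F (cons g (cons N fun _ => f))))).congr fun H _ => hφ H
      fun n => val H (cons (chk θ) (cons F (cons g (cons N fun _ => f))) n)
  obtain ⟨q0, a1, a2⟩ := truth (fun H => Body (ι H θ) (val H F) (val H g) (val H N) (val H f)) hB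
  refine h.core ha (fun H a b => ι H (pair a b) ∈ val H F) (fun H a b => ι H (pair a b) ∈ val H f)
    (fun H a => ι H a ∈ val H g) (fun H Z => val H (nmz Z) ∈ val H N) (Gen.mem a1)
    (fun G hG Z hZ => ?_) (fun G hG k y z b c => ?_) (fun R b1 b2 q b3 b4 => ?_)
    fun Zs G hG b => ?_
  · have e := emb_ι G
    obtain ⟨τ, hτ⟩ := ex_name (P := Lev θ) θ fun ζ r => pair ζ r ∈ Z
    refine (a2 G hG).1 (val G τ) (e.br_iff.2 fun η hη => (hZ η hη).imp fun β c =>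
      ⟨c.1, c.2.1, fun ζ hζ => Iff.trans ?_ (c.2.2 ζ hζ)⟩)
    simp only [hτ, e.eq_iff]
    exact ⟨fun ⟨_, _, r, a, b, c⟩ => ⟨r, a, c ▸ b⟩,
      fun ⟨r, a, b⟩ => ⟨ζ, h.od.trans hζ hη, r, a, b, rfl⟩⟩
  · have e := emb_ι G
    rw [e.pair] at b c
    exact e.inj ((a2 G hG).2.1 b c)
  · obtain ⟨G, hG⟩ := ex_gen b3
    have e := semb_ι h G
    have e' := e.toEmb
    obtain ⟨Y, c1, c2, c3, c4⟩ := (a2 G (Gen.ss hG b4)).2.2.1 (ι G R)
      (by rw [← e.XX, ← e'.prod]; exact e'.ss_iff.2 b1)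
      (e.bd_iff.2 (by simp only [e'.mem_iff]; exact b2))
    obtain ⟨τ, rfl⟩ := val_surj Y
    rw [← e.XX, ← e.Lev, ← e'.prod, ← e'.prod] at c2
    rw [e.bd2_iff] at c3
    rw [e.nm_iff] at c4
    simp only [e'.mem_iff] at c4
    have : FD (Lev θ) fun H _ => Nm θ (fun a => ι H a ∈ val H g) (· ∈ R)
      fun a => ι H a ∈ val H τ := by unfold Nm; infer_instance
    obtain ⟨q', -, d1, d2⟩ := truth' (fun H => val H τ ∈ val H N ∧
      val H τ ⊆ val H (chk (prod θ (prod (Lev θ) (XX θ)))) ∧ (∀ β ∈ θ, ∃ γ ∈ θ, ∀ p ∈ Lev θ,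
        ∀ x ∈ XX θ, ι H (pair β (pair p x)) ∈ val H τ → Lv p γ ∧ LvX x γ) ∧
      Nm θ (fun a => ι H a ∈ val H g) (· ∈ R) fun a => ι H a ∈ val H τ) ⟨c1, c2, c3, c4⟩ hG
    obtain ⟨Z, d3, d4, d5⟩ := h.bn
      (fun γ => sep (prod (Lev θ) (XX θ)) fun x => Lv (fst x) γ ∧ LvX (snd x) γ)
      (fun γ hγ => (h.sm_prod (h.sm_lev hγ) (h.sm_tx hγ)).mono fun x hx => by
        obtain ⟨p, a, y, b, rfl⟩ := mem_prod.1 (mem_sep.1 hx).1
        simpa [a, b] using (mem_sep.1 hx).2)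
      (fun γ δ c x hx => mem_sep.2 ⟨(mem_sep.1 hx).1, (mem_sep.1 hx).2.1.mono c,
        (mem_sep.1 hx).2.2.mono c⟩)
      (fun H β x => ι H (pair β x) ∈ val H τ) (prod (Lev θ) (XX θ)) d1.1 fun G hG β hβ =>
        ((d2 G hG).2.2.1 β hβ).imp fun γ c => ⟨c.1, fun x hx d => by
          obtain ⟨p, a, y, b, rfl⟩ := mem_prod.1 hx
          simpa [a, b] using c.2 p a y b d⟩
    refine ⟨q', d1.1, d1.2.2, Z, d3, fun β hβ => (d4 β hβ).imp fun γ c => ⟨c.1,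
      fun r p ζ s d => ?_⟩, fun G hG => ?_⟩
    · have := c.2 _ _ d
      simp only [mem_sep, fst_pair, snd_pair, LvX] at this
      exact ⟨this.1, this.2.2.1, this.2.2.2.2⟩
    · have e := emb_ι G
      have key : ∀ x, ι G x ∈ val G τ ↔ YZ G Z x := fun x => by
        constructor
        · intro a
          obtain ⟨β, b, y, c, rfl⟩ := mem_prod.1 (e.mem_iff.1 ((d2 G hG).2.1 a))
          exact yz_pair.2 ((d5 G hG β b y c).1 a)
        · rintro ⟨β, r, y, a, b, rfl⟩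
          have := d3 a
          simp only [pair_mem_prod] at this
          exact (d5 G hG β this.1 y this.2.2).2 ⟨r, b, a⟩
      have : val G (nmz Z) = val G τ := ext' fun y => mem_val_nu.trans
        ⟨fun ⟨x, a, b⟩ => b ▸ (key x).2 a, fun a =>
          let ⟨x, b⟩ := e.ex ((d2 G hG).2.1 a); ⟨x, (key x).1 (b ▸ a), b⟩⟩
      refine ⟨this ▸ (d2 G hG).1, ?_⟩
      simpa only [key] using (d2 G hG).2.2.2
  · have e := semb_ι h G
    have e' := e.toEmb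
    have key : ∀ y, y ∈ val G (fl (img (fun n => op (chk n) (nmz (app Zs n))) om)) ↔
        ∃ n ∈ (om : M), y = pair (ι G n) (val G (nmz (app Zs n))) := fun y => by
      simp only [mem_val_fl, mem_img]
      exact ⟨fun ⟨_, ⟨n, a, e⟩, b⟩ => ⟨n, a, by rw [b, ← e, val_op]; rfl⟩,
        fun ⟨n, a, b⟩ => ⟨_, ⟨n, a, rfl⟩, by rw [val_op, b]; rfl⟩⟩
    have hfn : Fn (val G (fl (img (fun n => op (chk n) (nmz (app Zs n))) om))) := fun x y z a b => by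
      obtain ⟨n, -, a⟩ := (key _).1 a
      obtain ⟨m, -, b⟩ := (key _).1 b
      rw [pair_inj] at a b
      rw [a.2, b.2, e'.inj (a.1.symm.trans b.1)]
    have := (a2 G hG).2.2.2 _ (fun y hy => by
      obtain ⟨n, a, rfl⟩ := (key y).1 hy
      exact pair_mem_prod.2 ⟨e'.om ▸ e'.mem_iff.2 a, b n a⟩) hfn
    rw [e.q4_iff] at this
    simp only [← e'.pair] at this
    convert this using 3 with n y
    by_cases hn : n ∈ (om : M)
    · rw [hfn.app_eq ((key _).2 ⟨n, hn, rfl⟩), mem_val_nu]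
      simp [hn, e'.eq_iff]
    · refine iff_of_false (fun a => hn a.1) fun a => ?_
      obtain ⟨z, c, -⟩ := mem_the.1 a
      obtain ⟨m, d, d'⟩ := (key _).1 ((c z).2 rfl)
      exact hn (e'.inj (pair_inj.1 d').1 ▸ d)

end Pool.Agent.P.MP_f1f2b3_lc
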