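import Pool.Agent.P.MP_f1f2b3_lc.Ops

/-! Ordinals, induction, recursion, collection and choice. -/

set_option linter.unusedSectionVars false
set_option linter.unusedVariables false

namespace Pool.Agent.P.MP_f1f2b3_lc

universe u w

section

variable {M : Type u} [ZF M]

/-- transitive set -/
def Tr (a : M) : Prop := ∀ ⦃x⦄, x ∈ a → x ⊆ a

/-- ordinal -/
def Od (a : M) : Prop := ∀ x ∈ a, x ⊆ a ∧ ∀ y ∈ x, y ⊆ x

theorem isOrd_iff {a : M} : IsOrd Mem.E a ↔ Od a := Iff.rfl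

/-- `ω` -/
noncomputable def om : M := the (IsOmega Mem.E)

/-- the least ordinal with a property -/
noncomputable def lst (P : M → Prop) : M := the fun a => Od a ∧ P a ∧ ∀ c ∈ a, ¬ P c

/-- approximations of a recursion -/
def Apx (Φ : M → M → M) (g : M) : Prop :=
  ∀ p ∈ g, p = pair (fst p) (snd p) ∧ (∀ y ∈ fst p, ∃ u, pair y u ∈ g) ∧
    snd p = Φ (fst p) (res g (fst p))

/-- the defining relation of a recursion -/
def Psi (Φ : M → M → M) (x y : M) : Prop := ∃ g, Apx Φ g ∧ pair x y ∈ g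

/-- recursion along membership -/
noncomputable def rc (Φ : M → M → M) (x : M) : M := the (Psi Φ x)

end

section Fam

variable {I : Type w} {A : I → Type u} [∀ i, ZF (A i)] {K : (∀ i, A i) → Prop}
variable (s t : ∀ i, (ℕ → A i) → A i) [hs : Tm K s] [ht : Tm K t]

instance df_Tr : Df K (fun i v => Tr (s i v)) := by unfold Tr; infer_instance
instance df_Od : Df K (fun i v => Od (s i v)) := by unfold Od; infer_instance
instance tm_om : Tm K (fun _ _ => om) := by unfold om; infer_instance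

instance tm_lst {P : ∀ i, (ℕ → A i) → A i → Prop}
    [h : Df K (fun i v => P i (fun n => v (n + 1)) (v 0))] : Tm K (fun i v => lst (P i v)) := by
  have := fun s [Tm K s] => h.sub1 s
  unfold lst; infer_instance

instance df_Psi {Φ : ∀ i, (ℕ → A i) → A i → A i → A i}
    [h : Tm K (fun i v => Φ i (fun n => v (n + 2)) (v 0) (v 1))] :
    Df K (fun i v => Psi (Φ i v) (s i v) (t i v)) := by
  have := fun s t [Tm K s] [Tm K t] => Tm.sub2 s t h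
  unfold Psi Apx; infer_instance

instance tm_rc {Φ : ∀ i, (ℕ → A i) → A i → A i → A i}
    [h : Tm K (fun i v => Φ i (fun n => v (n + 2)) (v 0) (v 1))] :
    Tm K (fun i v => rc (Φ i v) (s i v)) := by
  have := fun s t [Tm K s] [Tm K t] => Tm.sub2 s t h
  unfold rc; infer_instance

end Fam

section

variable {M : Type u} [ZF M]

theorem trans_ind {T : M} (hT : Tr T) (P : M → Prop) [h : D1 fun v => P (v 0)]
    (H : ∀ x ∈ T, (∀ y ∈ x, P y) → P x) : ∀ x ∈ T, P x := by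
  intro x hx
  by_contra hn
  obtain ⟨z, h1, h2⟩ := found (a := sep T fun x => ¬ P x) (mem_sep.2 ⟨hx, hn⟩)
  rw [mem_sep] at h1
  refine h1.2 (H z h1.1 fun y hy => ?_)
  by_contra h3
  exact h2 y hy (mem_sep.2 ⟨hT h1.1 hy, h3⟩)

theorem Od.tr {a : M} (h : Od a) : Tr a := fun x hx => (h x hx).1

theorem Od.trans {a x y : M} (h : Od a) (hx : x ∈ y) (hy : y ∈ a) : x ∈ a := h.tr hy hx

theorem Od.mem {a x : M} (h : Od a) (hx : x ∈ a) : Od x :=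
  fun y hy => ⟨(h x hx).2 y hy, (h y (h.trans hy hx)).2⟩

theorem od_of {a : M} (h : Tr a) (h' : ∀ x ∈ a, Od x) : Od a :=
  fun x hx => ⟨h hx, (h' x hx).tr⟩

theorem Tr.succ {a : M} (h : Tr a) : Tr (sc a) := by
  intro x hx y hy
  rcases mem_sc.1 hx with h1 | rfl
  exacts [ss_sc a (h h1 hy), ss_sc _ hy]

theorem Od.succ {a : M} (h : Od a) : Od (sc a) :=
  od_of h.tr.succ fun x hx => (mem_sc.1 hx).elim h.mem fun e => e ▸ h

theorem od_empty : Od (∅ : M) := fun _ h => (not_mem_empty h).elim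

theorem od_sUn {a : M} (h : ∀ x ∈ a, Od x) : Od (sUn a) := by
  refine od_of (fun x hx y hy => ?_) fun x hx => ?_
  · obtain ⟨z, h1, h2⟩ := mem_sUn.1 hx
    exact mem_sUn.2 ⟨z, h1, (h z h1).trans hy h2⟩
  · obtain ⟨z, h1, h2⟩ := mem_sUn.1 hx
    exact (h z h1).mem h2

theorem Od.union {a b : M} (ha : Od a) (hb : Od b) : Od (a ∪ b) :=
  od_sUn fun x hx => (mem_up.1 hx).elim (fun e => e ▸ ha) fun e => e ▸ hb

theorem Od.tri {a b : M} (ha : Od a) (hb : Od b) : a ∈ b ∨ a = b ∨ b ∈ a := by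
  refine trans_ind ha.succ.tr (fun a => Od a → ∀ b' ∈ sc b, a ∈ b' ∨ a = b' ∨ b' ∈ a)
    (fun a _ ih ha => ?_) a (self_mem_sc a) ha b (self_mem_sc b)
  refine trans_ind hb.succ.tr (fun b' => a ∈ b' ∨ a = b' ∨ b' ∈ a) fun c hc ih2 => ?_
  by_contra hn
  push Not at hn
  refine hn.2.1 (ext' fun x => ⟨fun hx => ?_, fun hx => ?_⟩)
  · rcases ih x hx (ha.mem hx) c hc with h | rfl | h
    exacts [h, (hn.2.2 hx).elim, (hn.2.2 (ha.trans h hx)).elim]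
  · rcases ih2 x hx with h | rfl | h
    exacts [(hn.1 ((hb.succ.mem hc).trans h hx)).elim, (hn.1 hx).elim, h]

theorem Od.ss_of_not_mem {a b : M} (ha : Od a) (hb : Od b) (h : a ∉ b) : b ⊆ a := by
  rcases ha.tri hb with h1 | rfl | h1
  exacts [(h h1).elim, ss_rfl, ha.tr h1]

theorem Od.mem_or_ss {a b : M} (ha : Od a) (hb : Od b) : a ∈ b ∨ b ⊆ a := by
  by_cases h : a ∈ b
  exacts [Or.inl h, Or.inr (ha.ss_of_not_mem hb h)]

theorem not_ss_of_mem {a b : M} (h : a ∈ b) : ¬ b ⊆ a := fun h' => mem_irrefl a (h' h)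

theorem Od.mem_or_eq {a b : M} (ha : Od a) (hb : Od b) (h : a ⊆ b) : a ∈ b ∨ a = b := by
  rcases ha.tri hb with h1 | h1 | h1
  exacts [Or.inl h1, Or.inr h1, (not_ss_of_mem h1 h).elim]

theorem Od.mem_of_ss {a b c : M} (ha : Od a) (hc : Od c) (h : a ⊆ b) (h' : b ∈ c) : a ∈ c :=
  (ha.mem_or_ss hc).resolve_right fun h1 => mem_irrefl b (h (h1 h') |> fun h2 => h2)

theorem Od.sc_ss {a b : M} (hb : Od b) (h : a ∈ b) : sc a ⊆ b :=
  fun x hx => (mem_sc.1 hx).elim (fun h1 => hb.trans h1 h) fun e => e ▸ h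

theorem Od.ss_total {a b : M} (ha : Od a) (hb : Od b) : a ⊆ b ∨ b ⊆ a :=
  (ha.mem_or_ss hb).imp_left fun h => hb.tr h

theorem Od.union_mem {a b c : M} (hc : Od c) (ha : a ∈ c) (hb : b ∈ c) : a ∪ b ∈ c := by
  rcases (hc.mem ha).ss_total (hc.mem hb) with h | h
  · rwa [ss_antisymm (union_ss h ss_rfl) ss_union_r]
  · rwa [ss_antisymm (union_ss ss_rfl h) ss_union_l]

theorem Od.empty_mem {a x : M} (ha : Od a) (hx : x ∈ a) : ∅ ∈ a :=
  od_empty.mem_of_ss ha empty_ss hx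

theorem Od.sUn_sc {a : M} (ha : Od a) : sUn (sc a) = a :=
  ext' fun x => by
    simp only [mem_sUn, mem_sc]
    exact ⟨fun ⟨y, h1, h2⟩ => h1.elim (ha.trans h2) fun e => e ▸ h2, fun h => ⟨a, Or.inr rfl, h⟩⟩

theorem od_least (P : M → Prop) [D1 fun v => P (v 0)] {a : M} (ha : Od a) (h : P a) :
    ∃ b, Od b ∧ P b ∧ ∀ c ∈ b, ¬ P c := by
  obtain ⟨b, h1, h2⟩ := found (a := sep (sc a) P) (mem_sep.2 ⟨self_mem_sc a, h⟩)
  rw [mem_sep] at h1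
  exact ⟨b, ha.succ.mem h1.1, h1.2, fun c hc h3 =>
    h2 c hc (mem_sep.2 ⟨ha.succ.trans hc h1.1, h3⟩)⟩

theorem lst_spec (P : M → Prop) [D1 fun v => P (v 0)] {a : M} (ha : Od a) (h : P a) :
    Od (lst P) ∧ P (lst P) ∧ ∀ c ∈ lst P, ¬ P c := by
  obtain ⟨b, h1⟩ := od_least P ha h
  refine the_spec (P := fun a => Od a ∧ P a ∧ ∀ c ∈ a, ¬ P c) ⟨b, h1, fun c h2 => ?_⟩
  rcases h2.1.tri h1.1 with h3 | h3 | h3
  exacts [(h1.2.2 c h3 h2.2.1).elim, h3, (h2.2.2 b h3 h1.2.1).elim]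

theorem lst_ss (P : M → Prop) [D1 fun v => P (v 0)] {a : M} (ha : Od a) (h : P a) : lst P ⊆ a :=
  ha.ss_of_not_mem (lst_spec P ha h).1 fun h1 => (lst_spec P ha h).2.2 a h1 h

theorem ind_iff {I : M} : Ind Mem.E I ↔ ∅ ∈ I ∧ ∀ x ∈ I, sc x ∈ I := by
  refine and_congr ⟨fun ⟨e, h1, h2⟩ => eq_empty h2 ▸ h1, fun h => ⟨_, h, fun _ => not_mem_empty⟩⟩
    (forall₂_congr fun x _ => ⟨fun ⟨y, h1, h2⟩ => ?_, fun h => ⟨_, h, fun _ => mem_sc⟩⟩)
  rwa [← ext' (b := sc x) fun z => (h2 z).trans mem_sc.symm]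

theorem isOmega_om : IsOmega Mem.E (om : M) := by
  obtain ⟨I, hI⟩ := (ZF.zf (A := M)).infinity
  refine the_spec ⟨sep I fun x => ∀ J, Ind Mem.E J → x ∈ J, ⟨?_, fun J hJ x hx => ?_⟩,
    fun y hy => ss_antisymm (fun x hx => mem_sep.2 ⟨hy.2 I hI x hx, fun J hJ => hy.2 J hJ x hx⟩)
      fun x hx => (mem_sep.1 hx).2 y hy.1⟩
  · rw [ind_iff] at hI ⊢
    refine ⟨mem_sep.2 ⟨hI.1, fun J hJ => (ind_iff.1 hJ).1⟩, fun x hx => ?_⟩
    rw [mem_sep] at hx ⊢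
    exact ⟨hI.2 x hx.1, fun J hJ => (ind_iff.1 hJ).2 x (hx.2 J hJ)⟩
  · exact (mem_sep.1 hx).2 J hJ

theorem isOmega_iff {o : M} : IsOmega Mem.E o ↔ o = om :=
  ⟨fun h => ss_antisymm (h.2 _ isOmega_om.1) (isOmega_om.2 _ h.1), fun h => h ▸ isOmega_om⟩

theorem empty_mem_om : (∅ : M) ∈ (om : M) := (ind_iff.1 isOmega_om.1).1

theorem sc_mem_om {n : M} (h : n ∈ (om : M)) : sc n ∈ (om : M) := (ind_iff.1 isOmega_om.1).2 n h

theorem om_ind (P : M → Prop) [D1 fun v => P (v 0)] (h0 : P ∅)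
    (hs : ∀ n ∈ (om : M), P n → P (sc n)) : ∀ n ∈ (om : M), P n := by
  intro n hn
  refine (mem_sep.1 (isOmega_om.2 (sep om P) (ind_iff.2 ⟨mem_sep.2 ⟨empty_mem_om, h0⟩, ?_⟩) n hn)).2
  intro x hx
  rw [mem_sep] at hx ⊢
  exact ⟨sc_mem_om hx.1, hs x hx.1 hx.2⟩

theorem od_om : Od (om : M) := by
  have : ∀ n ∈ (om : M), Od n ∧ n ⊆ om := om_ind _ ⟨od_empty, empty_ss⟩ fun n hn h =>
    ⟨h.1.succ, fun x hx => (mem_sc.1 hx).elim (fun h1 => h.2 h1) fun e => e ▸ hn⟩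
  exact od_of (fun n hn => (this n hn).2) fun n hn => (this n hn).1

theorem om_cases {n : M} (h : n ∈ (om : M)) : n = ∅ ∨ ∃ m ∈ (om : M), n = sc m :=
  om_ind (fun n => n = ∅ ∨ ∃ m ∈ (om : M), n = sc m) (Or.inl rfl)
    (fun n hn _ => Or.inr ⟨n, hn, rfl⟩) n h

/-! recursion -/

section
variable {Φ : M → M → M} [hΦ : T1 fun v => Φ (v 0) (v 1)]

theorem Psi.unique {x y z : M} (h1 : Psi Φ x y) (h2 : Psi Φ x z) : y = z := by
  obtain ⟨g, hg, h1⟩ := h1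
  obtain ⟨g', hg', h2⟩ := h2
  have hT : Tr (img fst g) := fun a ha b hb => by
    obtain ⟨p, hp, rfl⟩ := mem_img.1 ha
    obtain ⟨u, hu⟩ := (hg p hp).2.1 b hb
    exact mem_img.2 ⟨_, hu, by simp⟩
  refine trans_ind hT (fun x => ∀ y z, pair x y ∈ g → pair x z ∈ g' → y = z)
    (fun x _ ih y z h1 h2 => ?_) x (mem_img.2 ⟨_, h1, by simp⟩) y z h1 h2
  obtain ⟨-, a1, a2⟩ := hg _ h1
  obtain ⟨-, b1, b2⟩ := hg' _ h2
  simp only [fst_pair, snd_pair] at a1 a2 b1 b2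
  rw [a2, b2]
  congr 1
  refine ext' fun p => ?_
  simp only [mem_res]
  refine and_congr_left fun hp => ⟨fun h => ?_, fun h => ?_⟩
  · obtain ⟨u, hu⟩ := b1 _ hp
    rwa [(hg p h).1, ih _ hp (snd p) _ ((hg p h).1 ▸ h) hu]
  · obtain ⟨u, hu⟩ := a1 _ hp
    rwa [(hg' p h).1, ← ih _ hp _ (snd p) hu ((hg' p h).1 ▸ h)]

theorem Psi.eq {x y : M} (h : Psi Φ x y) : rc Φ x = y := the_eq h fun _ hz => hz.unique h

instance t1_rc (s : (ℕ → M) → M) [T1 s] : T1 fun v => rc Φ (s v) :=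
  tm_rc (fun _ => s) (Φ := fun _ _ => Φ)

theorem Psi.down {x y : M} (h : Psi Φ x y) :
    (∀ z ∈ x, Psi Φ z (rc Φ z)) ∧ y = Φ x (graph (rc Φ) x) := by
  obtain ⟨g, hg, h1⟩ := h
  obtain ⟨-, a1, a2⟩ := hg _ h1
  simp only [fst_pair, snd_pair] at a1 a2
  have key : ∀ z ∈ x, pair z (rc Φ z) ∈ g := fun z hz => by
    obtain ⟨u, hu⟩ := a1 z hz
    rwa [Psi.eq ⟨g, hg, hu⟩]
  refine ⟨fun z hz => ⟨g, hg, key z hz⟩, a2.trans ?_⟩
  congr 1
  refine ext' fun p => ?_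
  rw [mem_res, mem_graph]
  refine ⟨fun ⟨h1, h2⟩ => ⟨_, h2, ?_⟩, fun ⟨z, h1, h2⟩ => h2 ▸ ⟨key z h1, by simpa⟩⟩
  rw [Psi.eq ⟨g, hg, (hg p h1).1 ▸ h1⟩, ← (hg p h1).1]

theorem psi_of_trans {T : M} (hT : Tr T) : ∀ x ∈ T, Psi Φ x (rc Φ x) := by
  have := hΦ.use2
  refine trans_ind hT _ fun x hx ih => ?_
  have hD : ∀ z ∈ sep T fun z => z = x ∨ Psi Φ z (rc Φ z), ∀ y ∈ z,
      y ∈ T ∧ Psi Φ y (rc Φ y) := fun z hz y hy => by
    rw [mem_sep] at hz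
    exact ⟨hT hz.1 hy, hz.2.elim (fun e => ih y (e ▸ hy)) fun h => h.down.1 y hy⟩
  have : Psi Φ x (Φ x (graph (rc Φ) x)) := by
    refine ⟨graph (fun z => Φ z (graph (rc Φ) z)) (sep T fun z => z = x ∨ Psi Φ z (rc Φ z)),
      fun p hp => ?_, pair_mem_graph.2 ⟨mem_sep.2 ⟨hx, Or.inl rfl⟩, rfl⟩⟩
    obtain ⟨z, hz, rfl⟩ := mem_graph.1 hp
    simp only [fst_pair, snd_pair, true_and]
    refine ⟨fun y hy => ⟨_, pair_mem_graph.2
      ⟨mem_sep.2 ⟨(hD z hz y hy).1, Or.inr (hD z hz y hy).2⟩, rfl⟩⟩, ?_⟩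
    congr 1
    refine ext' fun p => ?_
    simp only [mem_res, mem_graph]
    constructor
    · rintro ⟨y, hy, rfl⟩
      exact ⟨⟨y, mem_sep.2 ⟨(hD z hz y hy).1, Or.inr (hD z hz y hy).2⟩,
        by rw [← (hD z hz y hy).2.down.2]⟩, by simpa⟩
    · rintro ⟨⟨y, -, rfl⟩, hy⟩
      rw [fst_pair] at hy
      exact ⟨y, hy, by rw [← (hD z hz y hy).2.down.2]⟩
  rwa [this.eq]

end

theorem ex_trans (x : M) : ∃ T : M, Tr T ∧ x ∈ T := by
  let Φ : M → M → M := fun _ g => up x x ∪ sUn (sUn (img snd g))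
  have h := fun n hn => (psi_of_trans (Φ := Φ) od_om.tr n hn).down.2
  refine ⟨bun (rc Φ) om, fun y hy z hz => ?_, mem_bun.2 ⟨∅, empty_mem_om, ?_⟩⟩
  · obtain ⟨n, hn, hy⟩ := mem_bun.1 hy
    refine mem_bun.2 ⟨sc n, sc_mem_om hn, ?_⟩
    rw [h _ (sc_mem_om hn)]
    exact mem_union.2 (Or.inr (mem_sUn.2 ⟨y, mem_sUn.2 ⟨_, mem_img.2 ⟨pair n (rc Φ n),
      pair_mem_graph.2 ⟨self_mem_sc n, rfl⟩, snd_pair _ _⟩, hy⟩, hz⟩))
  · rw [h _ empty_mem_om]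
    simp [Φ]

theorem mem_ind (P : M → Prop) [D1 fun v => P (v 0)] (H : ∀ x, (∀ y ∈ x, P y) → P x) (x : M) :
    P x := by
  obtain ⟨T, h1, h2⟩ := ex_trans x
  exact trans_ind h1 P (fun x _ => H x) x h2

theorem psi_rc {Φ : M → M → M} [T1 fun v => Φ (v 0) (v 1)] (x : M) : Psi Φ x (rc Φ x) := by
  obtain ⟨T, h1, h2⟩ := ex_trans x
  exact psi_of_trans h1 x h2

theorem rc_eq (Φ : M → M → M) [T1 fun v => Φ (v 0) (v 1)] (x : M) :
    rc Φ x = Φ x (graph (rc Φ) x) := (psi_rc x).down.2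

/-- iteration along `ω` -/
noncomputable def iter (F : M → M → M) (a n : M) : M :=
  rc (fun n g => the fun y => (n = ∅ ∧ y = a) ∨ ∃ m, n = sc m ∧ y = F m (app g m)) n

section
variable {F : M → M → M} [hF : T1 fun v => F (v 0) (v 1)]

instance t1_iter (a : M) (s : (ℕ → M) → M) [T1 s] : T1 fun v => iter F a (s v) := by
  have := hF.use2
  unfold iter; infer_instance

theorem iter_zero (a : M) : iter F a ∅ = a := by
  have := hF.use2
  rw [iter, rc_eq]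
  exact the_eq (Or.inl ⟨rfl, rfl⟩) fun z hz => hz.elim (fun h => h.2)
    fun ⟨m, h, _⟩ => (sc_ne_empty m h.symm).elim

theorem iter_sc (a n : M) : iter F a (sc n) = F n (iter F a n) := by
  have := hF.use2
  rw [iter, rc_eq]
  refine the_eq (Or.inr ⟨n, rfl, by rw [app_graph (self_mem_sc n)]; rfl⟩) fun z hz => ?_
  rcases hz with h | ⟨m, h1, h2⟩
  · exact (sc_ne_empty n h.1).elim
  · rw [h2, ← sc_inj h1, app_graph (self_mem_sc n)]; rfl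

end

/-- the cumulative hierarchy -/
noncomputable def W (x : M) : M := rc (fun _ g => bun (fun p => pw (snd p)) g) x

instance t1_W (s : (ℕ → M) → M) [T1 s] : T1 fun v => W (s v) := by unfold W; infer_instance

theorem mem_W {x y : M} : y ∈ W x ↔ ∃ z ∈ x, y ⊆ W z := by
  rw [W, rc_eq]
  simp only [mem_bun, mem_graph, mem_pw]
  exact ⟨fun ⟨_, ⟨z, h1, e⟩, h2⟩ => ⟨z, h1, by rw [← e, snd_pair] at h2; exact h2⟩,
    fun ⟨z, h1, h2⟩ => ⟨_, ⟨z, h1, rfl⟩, by rw [snd_pair]; exact h2⟩⟩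

theorem ex_W (t : M) : ∃ α, Od α ∧ t ⊆ W α := by
  refine mem_ind (fun t => ∃ α, Od α ∧ t ⊆ W α) (fun t ih => ?_) t
  have key : ∀ y ∈ t, Od (lst fun α => y ⊆ W α) ∧ y ⊆ W (lst fun α => y ⊆ W α) := fun y hy => by
    obtain ⟨α, h1, h2⟩ := ih y hy
    exact ⟨(lst_spec (fun α => y ⊆ W α) h1 h2).1, (lst_spec (fun α => y ⊆ W α) h1 h2).2.1⟩
  refine ⟨bun (fun y => sc (lst fun α => y ⊆ W α)) t, od_sUn fun x hx => ?_, fun y hy => ?_⟩
  · obtain ⟨y, hy, rfl⟩ := mem_img.1 hx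
    exact (key y hy).1.succ
  · exact mem_W.2 ⟨_, mem_bun.2 ⟨y, hy, self_mem_sc _⟩, (key y hy).2⟩

theorem collect (R : M → M → Prop) [h : D1 fun v => R (v 0) (v 1)] (a : M)
    (H : ∀ x ∈ a, ∃ y, R x y) : ∃ c : M, ∀ x ∈ a, ∃ y ∈ c, R x y := by
  have := h.use2
  refine ⟨bun (fun x => pw (W (lst fun α => ∃ y, R x y ∧ y ⊆ W α))) a, fun x hx => ?_⟩
  obtain ⟨y, hy⟩ := H x hx
  obtain ⟨α, h1, h2⟩ := ex_W y
  obtain ⟨z, h3, h4⟩ := (lst_spec (fun α => ∃ y, R x y ∧ y ⊆ W α) h1 ⟨y, hy, h2⟩).2.1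
  exact ⟨z, mem_bun.2 ⟨x, hx, mem_pw.2 h4⟩, h3⟩

theorem burali (a : M) : ∃ α, Od α ∧ α ∉ a := by
  by_contra h
  push Not at h
  have : Od (sep a Od) := od_of (fun x hx y hy => mem_sep.2
    ⟨h y ((mem_sep.1 hx).2.mem hy), (mem_sep.1 hx).2.mem hy⟩) fun x hx => (mem_sep.1 hx).2
  exact mem_irrefl _ (mem_sep.2 ⟨h _ this, this⟩)

end

section

variable {M : Type u} [Md M]

theorem ex_choice (a : M) : ∃ f : M, ∀ x ∈ a, ∀ y ∈ x, app f x ∈ x := by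
  obtain ⟨f, h1, h2⟩ := Md.choice a
  refine ⟨f, fun x hx y hy => ?_⟩
  obtain ⟨z, h3, h4⟩ := h2 x hx ⟨y, hy⟩
  rwa [(fnl_iff.1 h1).app_eq (rel_iff.1 h4)]

theorem skolem (R : M → M → Prop) [h : D1 fun v => R (v 0) (v 1)] (a : M)
    (H : ∀ x ∈ a, ∃ y, R x y) : ∃ f : M, ∀ x ∈ a, R x (app f x) := by
  have := h.use2
  obtain ⟨c, hc⟩ := collect R a H
  obtain ⟨f, hf⟩ := ex_choice (pw c)
  refine ⟨graph (fun x => app f (sep c (R x))) a, fun x hx => ?_⟩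
  obtain ⟨y, h1, h2⟩ := hc x hx
  rw [app_graph hx]
  exact (mem_sep.1 (hf _ (mem_pw.2 sep_ss) y (mem_sep.2 ⟨h1, h2⟩))).2

theorem dc (S : M) (T : M → M → M → Prop) [h : D1 fun v => T (v 0) (v 1) (v 2)] {a : M}
    (ha : a ∈ S) (H : ∀ n ∈ (om : M), ∀ x ∈ S, ∃ y ∈ S, T n x y) :
    ∃ f : M, app f ∅ = a ∧ ∀ n ∈ (om : M), app f n ∈ S ∧ T n (app f n) (app f (sc n)) := by
  have := h.use3
  obtain ⟨g, hg⟩ := skolem (fun p y => y ∈ S ∧ T (fst p) (snd p) y) (prod om S)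
    fun p hp => H _ (fst_mem hp) _ (snd_mem hp)
  have h1 : ∀ n ∈ (om : M), iter (fun n x => app g (pair n x)) a n ∈ S :=
    om_ind _ (by rwa [iter_zero]) fun n hn ih => by
      rw [iter_sc]; exact (hg _ (pair_mem_prod.2 ⟨hn, ih⟩)).1
  refine ⟨graph (iter (fun n x => app g (pair n x)) a) om,
    by rw [app_graph empty_mem_om, iter_zero], fun n hn => ?_⟩
  rw [app_graph hn, app_graph (sc_mem_om hn), iter_sc]
  exact ⟨h1 n hn, by simpa using (hg _ (pair_mem_prod.2 ⟨hn, h1 n hn⟩)).2⟩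

theorem numer (x : M) : ∃ β f : M, Od β ∧ ∀ y ∈ x, ∃ ξ ∈ β, app f ξ = y := by
  obtain ⟨c, hc⟩ := ex_choice (pw x)
  let G : M → M := rc fun _ g => app c (x \ img snd g)
  have hG : ∀ α, G α = app c (x \ img G α) := fun α => by
    refine (rc_eq _ α).trans ?_
    congr 2
    refine ext' fun y => ?_
    simp only [mem_img, mem_graph]
    exact ⟨fun ⟨_, ⟨z, h1, e⟩, h2⟩ => ⟨z, h1, by rw [← h2, ← e, snd_pair]⟩,
      fun ⟨z, h1, h2⟩ => ⟨_, ⟨z, h1, rfl⟩, by rw [snd_pair]; exact h2⟩⟩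
  by_contra hn
  have key : ∀ α, Od α → G α ∈ x \ img G α := fun α hα => by
    rw [hG]
    by_contra h
    refine hn ⟨α, graph G α, hα, fun y hy => ?_⟩
    by_contra h2
    refine h (hc _ (mem_pw.2 sep_ss) y (mem_sdiff.2 ⟨hy, fun h3 => h2 ?_⟩))
    obtain ⟨ξ, h4, h5⟩ := mem_img.1 h3
    exact ⟨ξ, h4, by rw [app_graph h4, h5]⟩
  obtain ⟨α, h1, h2⟩ := burali (img (fun y => lst fun α => G α = y) x)
  refine h2 (mem_img.2 ⟨G α, (mem_sdiff.1 (key α h1)).1, ?_⟩)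
  obtain ⟨h3, h4, -⟩ := lst_spec (fun β => G β = G α) h1 rfl
  exact (h3.mem_or_eq h1 (lst_ss (fun β => G β = G α) h1 rfl)).resolve_left fun h5 =>
    (mem_sdiff.1 (key α h1)).2 (mem_img.2 ⟨_, h5, h4⟩)

end

end Pool.Agent.P.MP_f1f2b3_lc
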